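import Mathlib
import Pool.Agent.N753.SF.CellZ
import Pool.Agent.N753.SU.StmO
import Pool.Agent.N753.SU.Unif

/-!
# The residue classes of the points at which `f (X) (X - z) ^ j` has values in one class modulo
`q`-th powers
-/

set_option autoImplicit false
set_option linter.unusedSectionVars false

namespace Pool.Agent.K9h89.AW

open NumberField IsDedekindDomain Finset Pool.Agent.H691R3
open Pool.Agent.TH876.Loc hiding mx
open Pool.Agent.N753.LS Pool.Agent.N753.SF Pool.Agent.N753.SU Polynomial

open Classical in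
/-- the number of `x` for which `u f(x)` is a `q`-th power is at most `|F| / q + O(√|F|)` -/
theorem weil_q (q d : ℕ) (hq : q.Prime) : ∃ M : ℝ, 0 ≤ M ∧ ∀ (F : Type) [Field F] [Fintype F]
    (f : F[X]), q ∣ Fintype.card F - 1 → 1 ≤ f.natDegree → f.natDegree ≤ d →
    (∀ (c : F) (h : F[X]), f ≠ C c * h ^ q) → ∀ u : F, u ≠ 0 →
    ((univ.filter fun x : F => f.eval x = 0 ∨ ∃ w : F, f.eval x = u * w ^ q).card : ℝ) ≤
      (Fintype.card F : ℝ) / q + M * Real.sqrt (Fintype.card F) := by
  obtain ⟨C0, hC0, h0⟩ := Pool.Agent.H471R4.BW.crd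
    (Pool.Agent.H471R4.BW.cor (Pool.Agent.H471R4.BW.nv1 Pool.Agent.H471R4.BW.nv0)) q d hq
  have hq0 : q ≠ 0 := hq.ne_zero
  refine ⟨C0 + d, by positivity, ?_⟩
  intro F _ _ f hdvd hf1 hfd hns u hu
  obtain ⟨Q, hQ⟩ : ∃ Q, q * Q + 1 = Fintype.card F := by
    obtain ⟨Q, hQ⟩ := hdvd
    have : 0 < Fintype.card F := Fintype.card_pos
    exact ⟨Q, by omega⟩
  have hs1 : 1 ≤ Real.sqrt (Fintype.card F) := by
    rw [Real.one_le_sqrt]
    exact_mod_cast Fintype.card_pos
  have hss : Real.sqrt (Fintype.card F) * Real.sqrt (Fintype.card F) = Fintype.card F :=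
    Real.mul_self_sqrt (Nat.cast_nonneg _)
  have hf0 : f ≠ 0 := by
    rintro rfl
    simp at hf1
  by_cases hbig : d < Fintype.card F
  · -- a point where `f` does not vanish
    obtain ⟨c, hc⟩ : ∃ c : F, f.eval c ≠ 0 := by
      by_contra hcon
      push Not at hcon
      have h1 : (univ : Finset F) ⊆ f.roots.toFinset := by
        intro x _
        rw [Multiset.mem_toFinset, mem_roots hf0]
        exact hcon x
      have h2 := (Finset.card_le_card h1).trans ((Multiset.toFinset_card_le _).trans (card_roots' f))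
      rw [Finset.card_univ] at h2
      omega
    obtain ⟨g, hg⟩ : ∃ g, g = f.comp (X + C c) := ⟨_, rfl⟩
    have hge : ∀ x, g.eval x = f.eval (x + c) := by
      intro x
      rw [hg, eval_comp]
      simp
    have hgf : g.comp (X - C c) = f := by
      rw [hg, comp_assoc]
      simp
    have hgd : g.natDegree = f.natDegree := by
      rw [hg, natDegree_comp, natDegree_X_add_C, mul_one]
    have hgns : ∀ (c' : F) (h : F[X]), g ≠ C c' * h ^ q := by
      intro c' h' he
      apply hns c' (h'.comp (X - C c))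
      rw [← hgf, he, mul_comp, C_comp, pow_comp]
    have h1 := h0 F g (by rw [hgd]; exact hf1) (by rw [hgd]; exact hfd)
      (by rw [hge, zero_add]; exact hc) hgns (u ^ Q) Q hQ
    have h2 : (univ.filter fun x : F => f.eval x = 0 ∨ ∃ w : F, f.eval x = u * w ^ q).card ≤
        (univ.filter fun x : F => g.eval x = 0 ∨ g.eval x ^ Q = u ^ Q).card := by
      refine Finset.card_le_card_of_injOn (fun x => x - c) ?_ ?_
      · intro x hx
        rw [Finset.mem_coe, Finset.mem_filter] at hx ⊢
        refine ⟨Finset.mem_univ _, ?_⟩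
        show g.eval (x - c) = 0 ∨ g.eval (x - c) ^ Q = u ^ Q
        rw [hge, sub_add_cancel]
        by_cases hz : f.eval x = 0
        · exact Or.inl hz
        · rcases hx.2 with h | ⟨w, hw⟩
          · exact Or.inl h
          · right
            have hw0 : w ≠ 0 := by
              rintro rfl
              apply hz
              rw [hw, zero_pow hq0, mul_zero]
            rw [hw, mul_pow, ← pow_mul, show q * Q = Fintype.card F - 1 by omega,
              FiniteField.pow_card_sub_one_eq_one w hw0, mul_one]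
      · intro x _ y _ hxy
        exact sub_left_injective hxy
    have h3 : ((univ.filter fun x : F => f.eval x = 0 ∨ ∃ w : F, f.eval x = u * w ^ q).card : ℝ) ≤
        ((univ.filter fun x : F => g.eval x = 0 ∨ g.eval x ^ Q = u ^ Q).card : ℝ) := by
      exact_mod_cast h2
    refine h3.trans (h1.trans ?_)
    have h4 : (0 : ℝ) ≤ d * Real.sqrt (Fintype.card F) := by positivity
    linarith
  · have h1 : ((univ.filter fun x : F => f.eval x = 0 ∨ ∃ w : F, f.eval x = u * w ^ q).card : ℝ) ≤
        Fintype.card F := by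
      exact_mod_cast Finset.card_le_univ _
    have h2 : (Fintype.card F : ℝ) ≤ d := by exact_mod_cast not_lt.1 hbig
    have h3 : (0 : ℝ) ≤ (Fintype.card F : ℝ) / q := by positivity
    have h4 : (0 : ℝ) ≤ C0 * Real.sqrt (Fintype.card F) := by positivity
    have h5 : (d : ℝ) ≤ d * Real.sqrt (Fintype.card F) := by
      have : (0 : ℝ) ≤ d := Nat.cast_nonneg _
      nlinarith
    linarith

/-- a separable polynomial times a power of a linear one which does not divide it is not a
`q`-th power -/
theorem not_qp {F : Type} [Field F] {q : ℕ} (hq : 2 ≤ q) (f a b : F[X]) {n : F} (hn : n ≠ 0)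
    (hab : a * f + b * derivative f = C n) (hd : 1 ≤ f.natDegree) (j : ℕ) (ζ : F)
    (hζ : f.eval ζ ≠ 0) (c : F) (h : F[X]) :
    f * (X - C ζ) ^ j ≠ C c * h ^ q := by
  classical
  intro he
  let L := AlgebraicClosure F
  let i := algebraMap F L
  have hf0 : f ≠ 0 := by
    rintro rfl
    simp at hd
  have hsep : (f.map i).Separable := by
    refine ⟨C (i n)⁻¹ * a.map i, C (i n)⁻¹ * b.map i, ?_⟩
    have h1 := congrArg (Polynomial.map i) hab
    rw [Polynomial.map_add, Polynomial.map_mul, Polynomial.map_mul, Polynomial.map_C,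
      ← derivative_map] at h1
    have h3 : i n ≠ 0 := by
      intro h0
      exact hn (i.injective (by rw [h0, map_zero]))
    rw [mul_assoc, mul_assoc, ← mul_add, h1, ← C_mul, inv_mul_cancel₀ h3, C_1]
  have hcard : (f.map i).roots.card = f.natDegree := by
    rw [← natDegree_map i, ← (IsAlgClosed.splits (f.map i)).natDegree_eq_card_roots]
  obtain ⟨ρ, hρ, hρζ⟩ : ∃ ρ ∈ (f.map i).roots, ρ ≠ i ζ := by
    have h3 : 0 < (f.map i).roots.card := by omega
    obtain ⟨ρ, hρ⟩ := Multiset.card_pos_iff_exists_mem.1 h3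
    refine ⟨ρ, hρ, fun h4 => hζ ?_⟩
    have h5 : (f.map i).eval ρ = 0 := (mem_roots'.1 hρ).2
    rw [h4, eval_map, eval₂_at_apply] at h5
    exact i.injective (by rw [h5, map_zero])
  have hfρ : (f.map i).eval ρ = 0 := (mem_roots'.1 hρ).2
  have hc0 : c ≠ 0 := by
    rintro rfl
    rw [C_0, zero_mul, mul_eq_zero] at he
    rcases he with h3 | h3
    · exact hf0 h3
    · exact pow_ne_zero j (X_sub_C_ne_zero ζ) h3
  have he' := congrArg (Polynomial.map i) he
  simp only [Polynomial.map_mul, Polynomial.map_sub, Polynomial.map_X, Polynomial.map_C,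
    Polynomial.map_pow] at he'
  have h3 : (h.map i).eval ρ = 0 := by
    have h4 := congrArg (Polynomial.eval ρ) he'
    rw [eval_mul, hfρ, zero_mul, eval_mul, eval_C, eval_pow] at h4
    have h5 : i c ≠ 0 := fun h0 => hc0 (i.injective (by rw [h0, map_zero]))
    exact pow_eq_zero_iff (by omega) |>.1 ((mul_eq_zero.1 h4.symm).resolve_left h5)
  have h4 := congrArg (fun p => Polynomial.eval ρ (derivative p)) he'
  have hr : Polynomial.eval ρ (derivative (C (i c) * (h.map i) ^ q)) = 0 := by
    rw [derivative_mul, derivative_C, zero_mul, zero_add, derivative_pow, eval_mul, eval_mul,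
      eval_mul, eval_pow, h3, zero_pow (by omega)]
    ring
  have hl : Polynomial.eval ρ (derivative (f.map i * (X - C (i ζ)) ^ j)) =
      eval ρ (derivative (f.map i)) * (ρ - i ζ) ^ j := by
    rw [derivative_mul, eval_add, eval_mul, eval_mul, hfρ, zero_mul, add_zero, eval_pow, eval_sub,
      eval_X, eval_C]
  beta_reduce at h4
  rw [hl, hr] at h4
  have h6 : eval ρ (derivative (f.map i)) = 0 :=
    (mul_eq_zero.1 h4).resolve_right (pow_ne_zero _ (sub_ne_zero.2 hρζ))
  obtain ⟨a', b', hab'⟩ := hsep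
  have h7 := congrArg (Polynomial.eval ρ) hab'
  rw [eval_add, eval_mul, eval_mul, hfρ, h6, mul_zero, mul_zero, add_zero, eval_one] at h7
  exact zero_ne_one h7

variable {K : Type} [Field K] [NumberField K]

open Classical in
/-- **the number of classes** -/
theorem cell_genq (q d : ℕ) (hq : q.Prime) : ∃ M : ℝ, 0 ≤ M ∧ ∀ v : Pr K,
    q ∣ Fintype.card (kk v) - 1 → ∀ g : (kk v)[X], 1 ≤ g.natDegree → g.natDegree ≤ d →
      (∀ (c : kk v) (h : (kk v)[X]), g ≠ C c * h ^ q) → ∀ S : Finset K,
        (∀ x ∈ S, ∀ y ∈ S, v.valuation K x ≤ 1 → v.valuation K y ≤ 1 → g.eval (rd v y) ≠ 0 →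
          ∃ w : kk v, g.eval (rd v x) = g.eval (rd v y) * w ^ q) →
            ((S.image (cls v)).card : ℝ) ≤ Nv v / q + M * Real.sqrt (Nv v) := by
  obtain ⟨M, hM, hW⟩ := weil_q q d hq
  refine ⟨M + (d + 1), by positivity, fun v hodd g hg1 hgd hgs S hS => ?_⟩
  have hs1 : 1 ≤ Real.sqrt (Nv v) := by
    rw [Real.one_le_sqrt]
    linarith [two_le_Nv v]
  have hN0 : 0 ≤ Nv v := by linarith [two_le_Nv v]
  have hd0 : (0 : ℝ) ≤ d := Nat.cast_nonneg _
  have hg0 : g ≠ 0 := by
    rintro rfl
    simp at hg1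
  have hlast : ∀ B : Finset (kk v), S.image (cls v) ⊆ insert none (B.image some) →
      ((S.image (cls v)).card : ℝ) ≤ B.card + 1 := by
    intro B hB
    have h2 := ((Finset.card_le_card hB).trans (Finset.card_insert_le _ _)).trans
      (Nat.add_le_add_right Finset.card_image_le 1)
    exact_mod_cast h2
  have h6 : (1 : ℝ) ≤ (d + 1) * Real.sqrt (Nv v) := by nlinarith
  by_cases hcase : ∃ y ∈ S, v.valuation K y ≤ 1 ∧ g.eval (rd v y) ≠ 0
  · obtain ⟨y, hyS, hy, hy0⟩ := hcase
    have h5 := hlast (univ.filter fun ξ : kk v => g.eval ξ = 0 ∨ ∃ w : kk v, g.eval ξ =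
          g.eval (rd v y) * w ^ q) (by
      intro c hc
      obtain ⟨x, hx, rfl⟩ := Finset.mem_image.1 hc
      rw [Finset.mem_insert]
      by_cases hx1 : v.valuation K x ≤ 1
      · right
        rw [cls_of_le v hx1, Finset.mem_image]
        exact ⟨rd v x, Finset.mem_filter.2 ⟨Finset.mem_univ _,
          Or.inr (hS x hx y hyS hx1 hy hy0)⟩, rfl⟩
      · left
        exact cls_of_not v hx1)
    have h4 := hW (kk v) g hodd hg1 hgd hgs _ hy0
    rw [card_kk] at h4
    linarith
  · push Not at hcase
    have h5 := hlast g.roots.toFinset (by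
      intro c hc
      obtain ⟨x, hx, rfl⟩ := Finset.mem_image.1 hc
      rw [Finset.mem_insert]
      by_cases hx1 : v.valuation K x ≤ 1
      · right
        rw [cls_of_le v hx1, Finset.mem_image]
        refine ⟨rd v x, ?_, rfl⟩
        rw [Multiset.mem_toFinset, mem_roots hg0]
        exact hcase x hx hx1
      · left
        exact cls_of_not v hx1)
    have h3 : (g.roots.toFinset.card : ℝ) ≤ d := by
      exact_mod_cast (Multiset.toFinset_card_le _).trans ((card_roots' _).trans hgd)
    have h4 : ((d : ℝ) + 1) ≤ (d + 1) * Real.sqrt (Nv v) := by nlinarith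
    have h7 : 0 ≤ M * Real.sqrt (Nv v) := by positivity
    have h8 : 0 ≤ Nv v / q := by positivity
    linarith

theorem rd_pow (v : Pr K) {x : K} (hx : v.valuation K x ≤ 1) (j : ℕ) :
    rd v (x ^ j) = rd v x ^ j := by
  induction j with
  | zero =>
    rw [pow_zero, pow_zero]
    have h7 := rd_eq v (x := (1 : K)) 1 (by rw [map_one, sub_self, map_zero]; exact zero_lt_one)
    rw [h7, map_one]
  | succ j ih =>
    rw [pow_succ, rd_mul v (by rw [map_pow]; exact pow_le_one' hx j) hx, ih, pow_succ]

open Classical in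
/-- **the number of classes, uniformly in the polynomial** -/
theorem cell_zq (q : ℕ) (hq : q.Prime) (j e : ℕ) : ∃ M : ℝ, 0 ≤ M ∧ ∀ f : (𝓞 K)[X],
    1 ≤ f.natDegree → f.natDegree ≤ e → ∀ v : Pr K, q ∣ Fintype.card (kk v) - 1 →
    Good f v → GoodS f v → ∀ z : K, aeval z f ≠ 0 → v ∉ dv f z → ∀ S : Finset K,
      (∀ x ∈ S, x ≠ z) →
      (∀ x ∈ S, ∀ y ∈ S, ∃ w : K,
        aeval x f * (x - z) ^ j = aeval y f * (y - z) ^ j * w ^ q) →
        ((S.image (cls v)).card : ℝ) ≤ Nv v / q + M * Real.sqrt (Nv v) := by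
  obtain ⟨M, hM, hgen⟩ := cell_genq (K := K) q (e + j) hq
  have hq0 : q ≠ 0 := hq.ne_zero
  refine ⟨M, hM, fun f hd hde v hqv hv hv' z hz0 hzd S hSz hS => ?_⟩
  obtain ⟨F, hF⟩ : ∃ F : (kk v)[X], F = f.map (Ideal.Quotient.mk v.asIdeal) := ⟨_, rfl⟩
  have hFd : F.natDegree = f.natDegree := by rw [hF]; exact hv.2.1
  have hF0 : F ≠ 0 := by
    rintro h0
    rw [h0, natDegree_zero] at hFd
    omega
  have hnot : ∀ (i : ℕ) (ζ : kk v), F.eval ζ ≠ 0 → ∀ (c : kk v) (h : (kk v)[X]),
      F * (X - C ζ) ^ i ≠ C c * h ^ q := by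
    obtain ⟨⟨a, b, n, hab, hn⟩, -⟩ := hv'
    intro i ζ hζ c h
    refine not_qp hq.two_le F (a.map (Ideal.Quotient.mk v.asIdeal))
      (b.map (Ideal.Quotient.mk v.asIdeal))
      (n := Ideal.Quotient.mk v.asIdeal n) ?_ ?_ (by rw [hFd]; exact hd) i ζ hζ c h
    · rwa [Ne, Ideal.Quotient.eq_zero_iff_mem]
    · have h3 := congrArg (Polynomial.map (Ideal.Quotient.mk v.asIdeal)) hab
      rw [Polynomial.map_add, Polynomial.map_mul, Polynomial.map_mul, Polynomial.map_C,
        ← derivative_map, ← hF] at h3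
      exact h3
  by_cases hz : fv v z ≤ 1
  · -- `z` is integral
    have hzv := (fv_le_one v z).1 hz
    have hFz : F.eval (rd v z) ≠ 0 := by
      obtain ⟨h3, h4⟩ := rd_eval v hzv f
      rw [hF, ← h4, Ne, rd_eq_zero_iff v h3, ← fv_lt_one]
      intro h5
      exact hzd ((mem_dv hz0).2 ⟨hz, h5⟩)
    have heval : ∀ x : K, v.valuation K x ≤ 1 →
        v.valuation K (aeval x f * (x - z) ^ j) ≤ 1 ∧
        (F * (X - C (rd v z)) ^ j).eval (rd v x) = rd v (aeval x f * (x - z) ^ j) := by
      intro x hx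
      have hxz : v.valuation K (x - z) ≤ 1 := (Valuation.map_sub _ _ _).trans (max_le hx hzv)
      have hxzj : v.valuation K ((x - z) ^ j) ≤ 1 := by
        rw [map_pow]
        exact pow_le_one' hxz j
      obtain ⟨h3, h4⟩ := rd_eval v hx f
      refine ⟨?_, ?_⟩
      · rw [map_mul]
        exact mul_le_one' h3 hxzj
      · rw [rd_mul v h3 hxzj, rd_pow v hxz, rd_sub v hx hzv, h4, eval_mul, eval_pow, eval_sub,
          eval_X, eval_C, hF]
    have hXj : (X - C (rd v z)) ^ j ≠ 0 := pow_ne_zero _ (X_sub_C_ne_zero _)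
    refine hgen v hqv (F * (X - C (rd v z)) ^ j) ?_ ?_ ?_ S ?_
    · rw [natDegree_mul hF0 hXj, natDegree_pow, natDegree_X_sub_C]
      omega
    · rw [natDegree_mul hF0 hXj, natDegree_pow, natDegree_X_sub_C, hFd]
      omega
    · exact hnot j (rd v z) hFz
    · intro x hx y hy hxv hyv hy0
      obtain ⟨w, hw⟩ := hS x hx y hy
      obtain ⟨h3, h4⟩ := heval x hxv
      obtain ⟨h5, h6⟩ := heval y hyv
      rw [h6, Ne, rd_eq_zero_iff v h5, not_lt] at hy0
      have hy1 : v.valuation K (aeval y f * (y - z) ^ j) = 1 := le_antisymm h5 hy0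
      have hw1 : v.valuation K w ≤ 1 := by
        rw [hw, map_mul, hy1, one_mul, map_pow] at h3
        exact (pow_le_one_iff_of_nonneg zero_le hq0).1 h3
      refine ⟨rd v w, ?_⟩
      rw [h4, h6, hw, rd_mul v h5 (by rw [map_pow]; exact pow_le_one' hw1 q), rd_pow v hw1]
  · -- `z` reduces to the point at infinity
    rw [not_le] at hz
    obtain ⟨ζ, hζ⟩ | hall : (∃ ζ : kk v, F.eval ζ ≠ 0) ∨ ∀ ζ : kk v, F.eval ζ = 0 := by
      by_cases h : ∃ ζ : kk v, F.eval ζ ≠ 0
      · exact Or.inl h
      · push Not at h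
        exact Or.inr h
    swap
    · -- `F` vanishes at all points
      have h1 : Fintype.card (kk v) ≤ e := by
        have h1 : (univ : Finset (kk v)) ⊆ F.roots.toFinset := by
          intro x _
          rw [Multiset.mem_toFinset, mem_roots hF0]
          exact hall x
        have h2 := (Finset.card_le_card h1).trans
          ((Multiset.toFinset_card_le _).trans (card_roots' F))
        rw [Finset.card_univ] at h2
        omega
      exact hgen v hqv F (by omega) (by omega) (by
        intro c h he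
        obtain ⟨⟨a, b, n, hab, hn⟩, -⟩ := hv'
        have h3 := congrArg (Polynomial.map (Ideal.Quotient.mk v.asIdeal)) hab
        rw [Polynomial.map_add, Polynomial.map_mul, Polynomial.map_mul, Polynomial.map_C,
          ← derivative_map, ← hF, he] at h3
        have h5 : h ∣ C (Ideal.Quotient.mk v.asIdeal n) := by
          rw [← h3]
          refine dvd_add ?_ ?_
          · exact Dvd.dvd.mul_left (Dvd.dvd.mul_left (dvd_pow_self h hq0) _) _
          · refine Dvd.dvd.mul_left ?_ _
            rw [derivative_mul, derivative_C, zero_mul, zero_add, derivative_pow]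
            refine Dvd.dvd.mul_left ?_ _
            refine Dvd.dvd.mul_right (Dvd.dvd.mul_left (dvd_pow_self h ?_) _) _
            have := hq.two_le
            omega
        have h6 : IsUnit (C (Ideal.Quotient.mk v.asIdeal n) : (kk v)[X]) := by
          rw [isUnit_C, isUnit_iff_ne_zero, Ne, Ideal.Quotient.eq_zero_iff_mem]
          exact hn
        have h7 := natDegree_eq_zero_of_isUnit (isUnit_of_dvd_unit h5 h6)
        have h8 : F.natDegree ≤ 0 := by
          rw [he]
          refine natDegree_mul_le.trans ?_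
          rw [natDegree_C, zero_add]
          refine natDegree_pow_le.trans ?_
          rw [h7, mul_zero]
        omega) S (by
        intro x _ y _ _ _ hy0
        exact absurd (hall _) hy0)
    have hF1 : ∀ (c : kk v) (h : (kk v)[X]), F ≠ C c * h ^ q := by
      intro c h he
      refine hnot 0 ζ hζ c h ?_
      rw [pow_zero, mul_one]
      exact he
    refine hgen v hqv F (by omega) (by omega) hF1 S ?_
    intro x hx y hy hxv hyv hy0
    obtain ⟨w, hw⟩ := hS x hx y hy
    obtain ⟨h3, h4⟩ := rd_eval v hxv f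
    obtain ⟨h5, h6⟩ := rd_eval v hyv f
    rw [← hF] at h4 h6
    rw [← h6, Ne, rd_eq_zero_iff v h5, not_lt] at hy0
    have hy1 : v.valuation K (aeval y f) = 1 := le_antisymm h5 hy0
    have hyz : y - z ≠ 0 := sub_ne_zero.2 (hSz y hy)
    obtain ⟨u, hu⟩ : ∃ u : K, u = (x - z) / (y - z) := ⟨_, rfl⟩
    have hxz : x - z = u * (y - z) := by rw [hu, div_mul_cancel₀ _ hyz]
    have hfyz : 1 < fv v (y - z) := by
      by_contra hcon
      rw [not_lt] at hcon
      have h7 : z = y + -(y - z) := by ring
      have h8 : fv v z ≤ 1 := by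
        rw [h7]
        refine (fv_na v _ _).trans (max_le ((fv_le_one v y).2 hyv) ?_)
        rw [(fv v).map_neg]
        exact hcon
      linarith
    have hu1 : v.valuation K (u - 1) < 1 := by
      rw [← fv_lt_one]
      have h7 : u - 1 = (x - y) / (y - z) := by
        rw [hu]
        field_simp
        ring
      rw [h7, map_div₀, div_lt_one (by linarith)]
      refine lt_of_le_of_lt ?_ hfyz
      rw [sub_eq_add_neg]
      refine (fv_na v _ _).trans (max_le ((fv_le_one v x).2 hxv) ?_)
      rw [(fv v).map_neg]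
      exact (fv_le_one v y).2 hyv
    have hu2 : v.valuation K u ≤ 1 := by
      have h7 : u = (u - 1) + 1 := by ring
      rw [h7]
      refine (Valuation.map_add _ _ _).trans (max_le hu1.le ?_)
      rw [map_one]
    have hu3 : rd v u = 1 := by
      have h7 := rd_eq v (x := u) 1 (by rw [map_one]; exact hu1)
      rw [h7, map_one]
    have huj : v.valuation K (u ^ j) ≤ 1 := by
      rw [map_pow]
      exact pow_le_one' hu2 j
    have hw' : aeval x f * u ^ j = aeval y f * w ^ q := by
      have h7 : (aeval x f * u ^ j) * (y - z) ^ j = (aeval y f * w ^ q) * (y - z) ^ j := by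
        rw [hxz, mul_pow] at hw
        linear_combination hw
      exact mul_right_cancel₀ (pow_ne_zero _ hyz) h7
    have h8 : v.valuation K (aeval x f * u ^ j) ≤ 1 := by
      rw [map_mul]
      exact mul_le_one' h3 huj
    have hw1 : v.valuation K w ≤ 1 := by
      rw [hw', map_mul, hy1, one_mul, map_pow] at h8
      exact (pow_le_one_iff_of_nonneg zero_le hq0).1 h8
    refine ⟨rd v w, ?_⟩
    have h9 : rd v (aeval x f * u ^ j) = rd v (aeval x f) := by
      rw [rd_mul v h3 huj, rd_pow v hu2, hu3, one_pow, mul_one]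
    rw [← h4, ← h6, ← h9, hw', rd_mul v h5 (by rw [map_pow]; exact pow_le_one' hw1 q),
      rd_pow v hw1]

end Pool.Agent.K9h89.AW
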