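import Mathlib
import Pool.Agent.N753.LS.Mert
import Pool.Agent.N753.LS.Cell

/-!
# Mertens' theorem for the primes with `N(v) ≡ 1 mod q`: a lower bound
-/

set_option autoImplicit false
set_option linter.unusedSectionVars false

namespace Pool.Agent.K9h89.AW

open NumberField IsDedekindDomain Finset Pool.Agent.H691R3
open Pool.Agent.TH876.Loc hiding mx
open Pool.Agent.N753.LS Polynomial

section Down

variable {K L : Type} [Field K] [NumberField K] [Field L] [NumberField L] [Algebra K L]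

/-- the prime of `K` below a prime of `L` -/
noncomputable def dn (K : Type) {L : Type} [Field K] [NumberField K] [Field L] [NumberField L]
    [Algebra K L] (w : Pr L) : Pr K where
  asIdeal := w.asIdeal.under (𝓞 K)
  isPrime := by
    have := w.isPrime
    infer_instance
  ne_bot := by
    obtain ⟨x, hx, hx0⟩ := Submodule.exists_mem_ne_zero_of_ne_bot w.ne_bot
    exact Ideal.comap_ne_bot_of_integral_mem hx0 hx (Algebra.IsIntegral.isIntegral x)

theorem pv_dn (w : Pr L) : pv (dn K w) = pv w := by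
  unfold pv
  show Ideal.absNorm (Ideal.under ℤ (w.asIdeal.under (𝓞 K))) = _
  rw [Ideal.under_under]

/-- the residue fields -/
noncomputable def kmap (w : Pr L) : kk (dn K w) →+* kk w :=
  Ideal.quotientMap w.asIdeal (algebraMap (𝓞 K) (𝓞 L)) le_rfl

theorem card_dn (w : Pr L) : ∃ n : ℕ, 1 ≤ n ∧
    Fintype.card (kk w) = Fintype.card (kk (dn K w)) ^ n := by
  letI : Algebra (kk (dn K w)) (kk w) := (kmap w).toAlgebra
  have h := Module.card_eq_pow_finrank (K := kk (dn K w)) (V := kk w)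
  refine ⟨_, ?_, h⟩
  exact Module.finrank_pos

theorem Nv_dn (w : Pr L) : Nv w = Nv (dn K w) ∨ Nv (dn K w) ^ 2 ≤ Nv w := by
  obtain ⟨n, hn, h⟩ := card_dn (K := K) w
  have h1 : Nv w = Nv (dn K w) ^ n := by
    rw [← card_kk, ← card_kk, h]
    push_cast
    rfl
  rcases Nat.eq_or_lt_of_le hn with h2 | h2
  · left
    rw [h1, ← h2, pow_one]
  · right
    rw [h1]
    exact pow_le_pow_right₀ (by linarith [two_le_Nv (dn K w)]) h2

open Classical in
/-- sums over the primes of `L` of functions of the prime below -/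
theorem sum_dn (F : Finset (Pr L)) (g : Pr K → ℝ) (hg : ∀ v, 0 ≤ g v) :
    ∑ w ∈ F, g (dn K w) ≤ Module.finrank ℚ L * ∑ v ∈ F.image (dn K), g v := by
  rw [Finset.sum_comp g (dn K), Finset.mul_sum]
  refine Finset.sum_le_sum fun v _ => ?_
  rw [nsmul_eq_mul]
  refine mul_le_mul_of_nonneg_right ?_ (hg v)
  have h1 := card_above (K := L) (pv v) (F.filter fun w => dn K w = v) (by
    intro w hw
    rw [← pv_dn (K := K) w, (Finset.mem_filter.1 hw).2])
  exact_mod_cast h1

end Down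

/-- the residue field of a prime of a cyclotomic field -/
theorem dvd_card {L : Type} [Field L] [NumberField L] {q : ℕ} (hq : q.Prime) {ζ : 𝓞 L}
    (hζ : IsPrimitiveRoot ζ q) (w : Pr L) (hw : (q : 𝓞 L) ∉ w.asIdeal) :
    q ∣ Fintype.card (kk w) - 1 := by
  classical
  obtain ⟨ξ, hξ⟩ : ∃ ξ : kk w, ξ = Ideal.Quotient.mk w.asIdeal ζ := ⟨_, rfl⟩
  have h1 : ξ ^ q = 1 := by
    rw [hξ, ← map_pow, hζ.pow_eq_one, map_one]
  have h2 : ξ ≠ 1 := by
    intro h
    apply hw
    have h3 := hζ.geom_sum_eq_zero hq.one_lt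
    have h4 := congrArg (Ideal.Quotient.mk w.asIdeal) h3
    rw [map_sum, map_zero] at h4
    simp only [map_pow] at h4
    rw [← hξ, h] at h4
    simp only [one_pow, Finset.sum_const, Finset.card_range, nsmul_eq_mul, mul_one] at h4
    rw [← Ideal.Quotient.eq_zero_iff_mem, map_natCast]
    exact h4
  have hξ0 : ξ ≠ 0 := by
    rintro h
    rw [h, zero_pow hq.ne_zero] at h1
    exact zero_ne_one h1
  obtain ⟨u, hu⟩ : ∃ u : (kk w)ˣ, u = Units.mk0 ξ hξ0 := ⟨_, rfl⟩
  have hu1 : u ^ q = 1 := by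
    rw [hu]
    ext
    simp [h1]
  have hu2 : u ≠ 1 := by
    rw [hu]
    intro h
    apply h2
    have := congrArg Units.val h
    simpa using this
  have := Fact.mk hq
  have h3 : orderOf u = q := orderOf_eq_prime hu1 hu2
  rw [← h3, ← Fintype.card_units]
  exact orderOf_dvd_card

open Classical in
/-- **Mertens' theorem, the lower bound, for the primes with `N(v) ≡ 1 mod q`** -/
theorem mert_q (K : Type) [Field K] [NumberField K] (q : ℕ) (hq : q.Prime) :
    ∃ c : ℝ, 0 < c ∧ c ≤ 1 ∧ ∃ C : ℝ, 0 ≤ C ∧ ∀ z : ℝ, 1 ≤ z →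
      c * Real.log z - C ≤
        ∑ v ∈ (PP K z).filter (fun v => q ∣ Fintype.card (kk v) - 1),
          Real.log (Nv v) / Nv v := by
  have hq0 : NeZero q := ⟨hq.ne_zero⟩
  have hζ : ∃ ζ : 𝓞 (CyclotomicField q K), IsPrimitiveRoot ζ q := by
    have h1 : IsPrimitiveRoot (IsCyclotomicExtension.zeta q K (CyclotomicField q K)) q :=
      IsCyclotomicExtension.zeta_spec q K (CyclotomicField q K)
    exact ⟨h1.toInteger, h1.toInteger_isPrimitiveRoot⟩
  obtain ⟨L, hL⟩ : ∃ L : Type, L = CyclotomicField q K := ⟨_, rfl⟩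
  obtain ⟨iF, iN, iA, ζ, hζ⟩ : ∃ (iF : Field L) (iN : @NumberField L iF) (iA : Algebra K L)
      (ζ : 𝓞 L), IsPrimitiveRoot ζ q := by
    subst hL
    exact ⟨inferInstance, inferInstance, inferInstance, hζ⟩
  clear hL
  obtain ⟨n, hn⟩ : ∃ n : ℝ, n = Module.finrank ℚ L := ⟨_, rfl⟩
  have hn1 : 1 ≤ n := by
    rw [hn]
    exact_mod_cast Module.finrank_pos (R := ℚ) (M := L)
  obtain ⟨C1, hC1, h1⟩ := mertens_lower L (η := 1 / 2) (by norm_num)
  obtain ⟨C2, hC2, h2⟩ := sum_rpow_le K (s := 3 / 2) (by norm_num)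
  have hqL : (q : 𝓞 L) ≠ 0 := by
    exact_mod_cast hq.ne_zero
  obtain ⟨T, hT⟩ : ∃ T : Finset (Pr L), T = (fin_dvd hqL).toFinset := ⟨_, rfl⟩
  have hTm : ∀ w, w ∉ T → (q : 𝓞 L) ∉ w.asIdeal := by
    intro w hw h
    apply hw
    rw [hT, Set.Finite.mem_toFinset]
    exact h
  have htermL : ∀ w : Pr L, 0 ≤ Real.log (Nv w) / Nv w := fun v => by
    have h2 := log_Nv_pos v
    have h3 := Nv_pos v
    positivity
  have hterm : ∀ w : Pr K, 0 ≤ Real.log (Nv w) / Nv w := fun v => by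
    have h2 := log_Nv_pos v
    have h3 := Nv_pos v
    positivity
  obtain ⟨C3, hC3'⟩ : ∃ C3 : ℝ, C3 = ∑ w ∈ T, Real.log (Nv w) / Nv w := ⟨_, rfl⟩
  have hC3 : 0 ≤ C3 := by
    rw [hC3']
    exact Finset.sum_nonneg fun w _ => htermL w
  refine ⟨1 / (2 * n), by positivity, ?_, (C1 + C3 + 4 * (n * C2)) / n, by positivity, ?_⟩
  · rw [div_le_one (by positivity)]
    linarith
  intro z hz
  obtain ⟨W, hW⟩ : ∃ W : ℝ, W = ∑ v ∈ (PP K z).filter (fun v => q ∣ Fintype.card (kk v) - 1),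
    Real.log (Nv v) / Nv v := ⟨_, rfl⟩
  rw [← hW]
  obtain ⟨A, hA⟩ : ∃ A : Finset (Pr L), A = (PP L z \ T).filter fun w => Nv w = Nv (dn K w) :=
    ⟨_, rfl⟩
  obtain ⟨B, hB⟩ : ∃ B : Finset (Pr L), B = (PP L z \ T).filter fun w => ¬ Nv w = Nv (dn K w) :=
    ⟨_, rfl⟩
  have hAs : ∑ w ∈ A, Real.log (Nv w) / Nv w ≤ n * W := by
    have e1 : ∑ w ∈ A, Real.log (Nv w) / Nv w = ∑ w ∈ A, Real.log (Nv (dn K w)) / Nv (dn K w) := by
      refine Finset.sum_congr rfl fun w hw => ?_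
      rw [hA] at hw
      rw [(Finset.mem_filter.1 hw).2]
    rw [e1, hn, hW]
    refine (sum_dn A (fun v => Real.log (Nv v) / Nv v) hterm).trans ?_
    refine mul_le_mul_of_nonneg_left ?_ (Nat.cast_nonneg _)
    refine Finset.sum_le_sum_of_subset_of_nonneg ?_ fun v _ _ => hterm v
    intro v hv
    obtain ⟨w, hw, rfl⟩ := Finset.mem_image.1 hv
    rw [hA] at hw
    obtain ⟨hw1, hw2⟩ := Finset.mem_filter.1 hw
    obtain ⟨hw3, hw4⟩ := Finset.mem_sdiff.1 hw1
    rw [Finset.mem_filter, mem_PP, ← hw2]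
    refine ⟨mem_PP.1 hw3, ?_⟩
    have e2 := dvd_card hq hζ w (hTm w hw4)
    have e3 : Fintype.card (kk (dn K w)) = Fintype.card (kk w) := by
      have : (Fintype.card (kk (dn K w)) : ℝ) = Fintype.card (kk w) := by
        rw [card_kk, card_kk, hw2]
      exact_mod_cast this
    rw [e3]
    exact e2
  have hBs : ∑ w ∈ B, Real.log (Nv w) / Nv w ≤ 4 * (n * C2) := by
    have e1 : ∀ w ∈ B, Real.log (Nv w) / Nv w ≤ 4 * Nv (dn K w) ^ (-(3 / 2) : ℝ) := by
      intro w hw
      rw [hB] at hw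
      have hw2 := (Nv_dn (K := K) w).resolve_left (Finset.mem_filter.1 hw).2
      have h0 := Nv_pos w
      have h00 := Nv_pos (dn K w)
      have h3 : Real.log (Nv w) ≤ Nv w ^ (1 / 4 : ℝ) / (1 / 4) :=
        Real.log_le_rpow_div h0.le (by norm_num)
      have h4 : Real.log (Nv w) / Nv w ≤ 4 * Nv w ^ (-(3 / 4) : ℝ) := by
        rw [div_le_iff₀ h0]
        have e5 : 4 * Nv w ^ (-(3 / 4) : ℝ) * Nv w = 4 * Nv w ^ (1 / 4 : ℝ) := by
          rw [mul_assoc]
          congr 1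
          nth_rewrite 2 [← Real.rpow_one (Nv w)]
          rw [← Real.rpow_add h0]
          norm_num
        rw [e5]
        linarith
      refine h4.trans (mul_le_mul_of_nonneg_left ?_ (by norm_num))
      have h5 : Nv (dn K w) ^ (-(3 / 2) : ℝ) = (Nv (dn K w) ^ 2) ^ (-(3 / 4) : ℝ) := by
        rw [← Real.rpow_natCast, ← Real.rpow_mul h00.le]
        norm_num
      rw [h5]
      exact Real.rpow_le_rpow_of_nonpos (by positivity) hw2 (by norm_num)
    calc ∑ w ∈ B, Real.log (Nv w) / Nv w ≤ ∑ w ∈ B, 4 * Nv (dn K w) ^ (-(3 / 2) : ℝ) :=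
          Finset.sum_le_sum e1
      _ = 4 * ∑ w ∈ B, Nv (dn K w) ^ (-(3 / 2) : ℝ) := by rw [Finset.mul_sum]
      _ ≤ 4 * (n * C2) := by
          refine mul_le_mul_of_nonneg_left ?_ (by norm_num)
          refine (sum_dn B (fun v => Nv v ^ (-(3 / 2) : ℝ))
            fun v => Real.rpow_nonneg (Nv_pos v).le _).trans ?_
          rw [hn]
          exact mul_le_mul_of_nonneg_left (h2 _) (Nat.cast_nonneg _)
  have hsplit : ∑ w ∈ PP L z, Real.log (Nv w) / Nv w ≤ C3 +
      (∑ w ∈ A, Real.log (Nv w) / Nv w + ∑ w ∈ B, Real.log (Nv w) / Nv w) := by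
    rw [hA, hB, Finset.sum_filter_add_sum_filter_not, hC3', ← Finset.sum_union
      (Finset.disjoint_sdiff)]
    refine Finset.sum_le_sum_of_subset_of_nonneg ?_ fun v _ _ => htermL v
    intro w hw
    by_cases h : w ∈ T
    · exact Finset.mem_union_left _ h
    · exact Finset.mem_union_right _ (Finset.mem_sdiff.2 ⟨hw, h⟩)
  have h3 := h1 z hz
  have h4 : n * (1 / (2 * n) * Real.log z - (C1 + C3 + 4 * (n * C2)) / n) ≤ n * W := by
    have e1 : n * (1 / (2 * n) * Real.log z - (C1 + C3 + 4 * (n * C2)) / n) =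
        (1 - 1 / 2) * Real.log z - (C1 + C3 + 4 * (n * C2)) := by
      have : n ≠ 0 := by positivity
      field_simp
      ring
    rw [e1]
    linarith
  exact le_of_mul_le_mul_left h4 (by linarith)

end Pool.Agent.K9h89.AW
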