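import Mathlib
import Pool.Agent.K9h89.AW.W1
import Pool.Agent.K9h89.AW.W2

/-!
# The larger sieve with few classes modulo the primes with `N(v) ≡ 1 mod q`
-/

set_option autoImplicit false
set_option linter.unusedSectionVars false

namespace Pool.Agent.K9h89.AW

open NumberField IsDedekindDomain Finset Pool.Agent.H691R3
open Pool.Agent.TH876.Loc hiding mx
open Pool.Agent.N753.LS Pool.Agent.N753.SF Pool.Agent.N753.SU Polynomial

variable (K : Type) [Field K] [NumberField K]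

open Classical in
/-- **the larger sieve with few classes modulo the primes with `N(v) ≡ 1 mod q`** -/
theorem ls_boundq (q : ℕ) (hq : q.Prime) : ∃ κ : ℝ, 1 < κ ∧ ∀ K' : ℝ, 0 ≤ K' → ∀ δ : ℝ,
    0 < δ → ∃ C : ℝ, 0 < C ∧ ∀ H : ℝ, 0 ≤ H → ∀ S : Finset K,
      ∀ (G : Finset (Pr K)) (g : ℝ), ∑ v ∈ G, Real.log (Nv v) ≤ g →
        (∀ x ∈ S, ∀ y ∈ S, x ≠ y → ∀ Q : Finset (Pr K), Disjoint Q G →
          (∀ v ∈ Q, cls v x = cls v y) → g + ∑ v ∈ Q, Real.log (Nv v) ≤ 2 * H + lossK K) →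
        (∀ v, v ∉ G → q ∣ Fintype.card (kk v) - 1 →
          ((S.image (cls v)).card : ℝ) ≤ Nv v / q + K' * Real.sqrt (Nv v)) →
        (S.card : ℝ) ≤ 1 + C * Real.exp (δ * H + (2 * H - g) / κ) := by
  obtain ⟨c, hc0, hc1, Cq, hCq, hmq⟩ := mert_q K q hq
  have hq2 : (2 : ℝ) ≤ q := by exact_mod_cast hq.two_le
  have hq0 : (0 : ℝ) < q := by linarith
  obtain ⟨κ, hκdef⟩ : ∃ κ : ℝ, κ = 1 + (q - 1) * c := ⟨_, rfl⟩
  have hκ1 : 1 < κ := by
    rw [hκdef]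
    nlinarith
  have hκq : κ ≤ q := by
    rw [hκdef]
    nlinarith
  refine ⟨κ, hκ1, ?_⟩
  intro K' hK' δ hδ
  have hκ : 1 ≤ κ := hκ1.le
  have hκ0 : 0 < κ := by linarith
  obtain ⟨η, hη⟩ : ∃ η : ℝ, η = min (1 / 2) (δ / 8) := ⟨_, rfl⟩
  have hη0 : 0 < η := by rw [hη]; exact lt_min (by norm_num) (by positivity)
  have hη1 : η ≤ 1 / 2 := by rw [hη]; exact min_le_left _ _
  have hη2 : 8 * η ≤ δ := by
    have := min_le_right (1 / 2) (δ / 8)
    rw [hη]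
    linarith
  obtain ⟨η2, hη2'⟩ : ∃ η2 : ℝ, η2 = η * κ / q := ⟨_, rfl⟩
  have hη20 : 0 < η2 := by rw [hη2']; positivity
  have hη2q : q * η2 = κ * η := by
    rw [hη2']
    field_simp
  obtain ⟨C1, hC1, hmert⟩ := mertens_lower K hη0
  obtain ⟨C2, hC2, htheta⟩ := theta_le K
  obtain ⟨C3, hC3, h32⟩ := sum_log_le K
  obtain ⟨C4, hC4, hset⟩ := sum_set_le K hη20
  have hterm : ∀ v : Pr K, 0 ≤ Real.log (Nv v) / Nv v := fun v => by
    have h2 := log_Nv_pos v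
    have h3 := Nv_pos v
    positivity
  obtain ⟨K2, hK2⟩ : ∃ K2 : ℝ, K2 = K' + 1 := ⟨_, rfl⟩
  have hK20 : 0 ≤ K2 := by rw [hK2]; linarith
  obtain ⟨ν, hν'⟩ : ∃ ν : Pr K → ℝ, ν = fun v => if q ∣ Fintype.card (kk v) - 1 then
    Nv v / q + K2 * Real.sqrt (Nv v) else Nv v / 1 + K2 * Real.sqrt (Nv v) := ⟨_, rfl⟩
  obtain ⟨ℓ, hℓ⟩ : ∃ ℓ : ℝ, ℓ = lossK K := ⟨_, rfl⟩
  have hℓ0 : 0 ≤ ℓ := by rw [hℓ]; exact lossK_nonneg K
  obtain ⟨C5, hC5⟩ : ∃ C5 : ℝ, C5 = C1 + (q - 1) * Cq + q * C4 + q ^ 2 * K2 * C3 := ⟨_, rfl⟩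
  have hC50 : 0 ≤ C5 := by
    rw [hC5]
    have : 0 ≤ (q - 1 : ℝ) * Cq := mul_nonneg (by linarith) hCq
    positivity
  refine ⟨(C2 + 1) * Real.exp (ℓ + 4 * η * ℓ + 2 * (C5 + 1)), by positivity, ?_⟩
  intro H hH S G g hGg hpair hcls
  by_cases h2 : 2 ≤ S.card
  swap
  · have h3 : (S.card : ℝ) ≤ 1 := by
      have : S.card ≤ 1 := by omega
      exact_mod_cast this
    have : 0 ≤ (C2 + 1) * Real.exp (ℓ + 4 * η * ℓ + 2 * (C5 + 1)) *
      Real.exp (δ * H + (2 * H - g) / κ) := by positivity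
    linarith
  have hg0 : 0 ≤ g := by
    refine le_trans ?_ hGg
    exact Finset.sum_nonneg fun v _ => (log_Nv_pos v).le
  have hgle : g ≤ 2 * H + ℓ := by
    obtain ⟨x, hx, y, hy, hxy⟩ := Finset.one_lt_card.1 (show 1 < S.card by omega)
    have := hpair x hx y hy hxy ∅ (Finset.disjoint_empty_left _) (by simp)
    rw [Finset.sum_empty] at this
    rw [hℓ]
    linarith
  -- the parameter
  obtain ⟨Λ, hΛ⟩ : ∃ Λ : ℝ, Λ = 2 * H + ℓ - g := ⟨_, rfl⟩
  have hΛ0 : 0 ≤ Λ := by linarith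
  have hden : 0 < κ * (1 - η) := mul_pos hκ0 (by linarith)
  obtain ⟨t, ht⟩ : ∃ t : ℝ, t = (Λ + κ * η * (2 * H + ℓ) + C5 + 1) / (κ * (1 - η)) := ⟨_, rfl⟩
  have ht' : κ * (1 - η) * t = Λ + κ * η * (2 * H + ℓ) + C5 + 1 := by
    rw [ht, mul_div_cancel₀ _ hden.ne']
  obtain ⟨P, hP⟩ : ∃ P : Finset (Pr K), P = PP K (Real.exp t) \ G := ⟨_, rfl⟩
  have hPG : Disjoint P G := by
    rw [hP, Finset.disjoint_left]
    intro v hv hv'
    exact (Finset.mem_sdiff.1 hv).2 hv'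
  have hν : ∀ v ∈ P, 0 < ν v ∧ ((S.image (cls v)).card : ℝ) ≤ ν v := by
    intro v hv
    rw [hP, Finset.mem_sdiff] at hv
    have h0 := Nv_pos v
    have hs := Real.sqrt_nonneg (Nv v)
    rw [hν']
    beta_reduce
    split_ifs with h
    · refine ⟨by positivity, (hcls v hv.2 h).trans ?_⟩
      rw [hK2]
      nlinarith
    · refine ⟨by positivity, (card_cls K v S).trans ?_⟩
      rw [hK2]
      nlinarith
  have hsieve := larger_sieve2 S Λ P (by
    intro x hx y hy hxy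
    have h1 := hpair x hx y hy hxy (P.filter fun v => cls v y = cls v x)
      (hPG.mono_left (Finset.filter_subset _ _)) (fun v hv => (Finset.mem_filter.1 hv).2.symm)
    rw [← Finset.sum_filter, hΛ, hℓ]
    linarith) ν hν h2
  have ht0 : 0 ≤ t := by
    rw [ht]
    positivity
  -- the lower bound for the sum
  have hW : κ * (1 - η) * t - κ * η * (2 * H + ℓ) - C5 ≤ ∑ v ∈ P, Real.log (Nv v) / ν v := by
    obtain ⟨A, hA⟩ : ∃ A : ℝ, A = ∑ v ∈ P, Real.log (Nv v) / Nv v := ⟨_, rfl⟩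
    obtain ⟨Aq, hAq⟩ : ∃ Aq : ℝ, Aq = ∑ v ∈ P.filter (fun v => q ∣ Fintype.card (kk v) - 1),
      Real.log (Nv v) / Nv v := ⟨_, rfl⟩
    have h3 : A + (q - 1) * Aq - q ^ 2 * K2 * ∑ v ∈ P, Real.log (Nv v) / Nv v ^ (3 / 2 : ℝ) ≤
        ∑ v ∈ P, Real.log (Nv v) / ν v := by
      rw [hA, hAq, Finset.sum_filter, Finset.mul_sum, Finset.mul_sum, ← Finset.sum_add_distrib,
        ← Finset.sum_sub_distrib]
      refine Finset.sum_le_sum fun v _ => ?_
      have hl := (log_Nv_pos v).le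
      have hN := two_le_Nv v
      have hr : 0 ≤ Real.log (Nv v) / Nv v ^ (3 / 2 : ℝ) :=
        div_nonneg hl (Real.rpow_nonneg (by linarith) _)
      rw [hν']
      beta_reduce
      split_ifs with h
      · have := inv_nu (κ := (q : ℝ)) hq0 hK20 hN hl
        linarith
      · have h5 := inv_nu (κ := (1 : ℝ)) one_pos hK20 hN hl
        have h6 : 1 * (K2 * (Real.log (Nv v) / Nv v ^ (3 / 2 : ℝ))) ≤
            (q : ℝ) ^ 2 * (K2 * (Real.log (Nv v) / Nv v ^ (3 / 2 : ℝ))) := by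
          refine mul_le_mul_of_nonneg_right ?_ (mul_nonneg hK20 hr)
          nlinarith
        linarith
    have h4 := h32 P
    have h7 := hset G
    have hsubG : ∀ X Y : Finset (Pr K), (∀ v ∈ X, v ∈ Y ∨ v ∈ G) →
        ∑ v ∈ X, Real.log (Nv v) / Nv v ≤ ∑ v ∈ Y, Real.log (Nv v) / Nv v +
          ∑ v ∈ G, Real.log (Nv v) / Nv v := by
      intro X Y hXY
      rw [← Finset.sum_union_inter]
      have h8 : 0 ≤ ∑ v ∈ Y ∩ G, Real.log (Nv v) / Nv v := Finset.sum_nonneg fun v _ => hterm v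
      have h9 : ∑ v ∈ X, Real.log (Nv v) / Nv v ≤ ∑ v ∈ Y ∪ G, Real.log (Nv v) / Nv v :=
        Finset.sum_le_sum_of_subset_of_nonneg (fun v hv => Finset.mem_union.2 (hXY v hv))
          fun v _ _ => hterm v
      linarith
    have hg' : ∑ v ∈ G, Real.log (Nv v) / Nv v ≤ η2 * (2 * H + ℓ) + C4 := by
      have := mul_le_mul_of_nonneg_left (hGg.trans hgle) hη20.le
      linarith
    have h8 : (1 - η) * t - C1 - (η2 * (2 * H + ℓ) + C4) ≤ A := by
      have h6 := hmert (Real.exp t) (Real.one_le_exp ht0)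
      rw [Real.log_exp] at h6
      have h5 := hsubG (PP K (Real.exp t)) P (by
        intro v hv
        by_cases h : v ∈ G
        · exact Or.inr h
        · left
          rw [hP]
          exact Finset.mem_sdiff.2 ⟨hv, h⟩)
      rw [← hA] at h5
      linarith
    have h9 : c * t - Cq - (η2 * (2 * H + ℓ) + C4) ≤ Aq := by
      have h6 := hmq (Real.exp t) (Real.one_le_exp ht0)
      rw [Real.log_exp] at h6
      have h5 := hsubG ((PP K (Real.exp t)).filter fun v => q ∣ Fintype.card (kk v) - 1)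
        (P.filter fun v => q ∣ Fintype.card (kk v) - 1) (by
        intro v hv
        obtain ⟨hv1, hv2⟩ := Finset.mem_filter.1 hv
        by_cases h : v ∈ G
        · exact Or.inr h
        · left
          rw [hP]
          exact Finset.mem_filter.2 ⟨Finset.mem_sdiff.2 ⟨hv1, h⟩, hv2⟩)
      rw [← hAq] at h5
      linarith
    have h10 : (q : ℝ) ^ 2 * K2 * ∑ v ∈ P, Real.log (Nv v) / Nv v ^ (3 / 2 : ℝ) ≤
        q ^ 2 * K2 * C3 := mul_le_mul_of_nonneg_left h4 (by positivity)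
    have h11 := mul_le_mul_of_nonneg_left h9 (show 0 ≤ (q : ℝ) - 1 by linarith)
    have h12 : 0 ≤ η * ((q - 1) * c * t) :=
      mul_nonneg hη0.le (mul_nonneg (mul_nonneg (by linarith) hc0.le) ht0)
    have h13 : q * η2 * (2 * H + ℓ) = κ * η * (2 * H + ℓ) := by rw [hη2q]
    have h14 : κ * (1 - η) * t = (1 - η) * t + (q - 1) * (c * t) - η * ((q - 1) * c * t) := by
      rw [hκdef]
      ring
    rw [hC5, h14]
    nlinarith
  have hW1 : 1 ≤ ∑ v ∈ P, Real.log (Nv v) / ν v - Λ := by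
    linarith
  have hΘ : ∑ v ∈ P, Real.log (Nv v) ≤ C2 * Real.exp t := by
    refine le_trans (Finset.sum_le_sum_of_subset_of_nonneg ?_ fun v _ _ => (log_Nv_pos v).le)
      (htheta (Real.exp t) (Real.exp_pos t).le)
    rw [hP]
    exact Finset.sdiff_subset
  have hS1 : (S.card : ℝ) ≤ C2 * Real.exp t := by
    have h3 : (S.card : ℝ) * 1 ≤ (S.card : ℝ) *
        (∑ v ∈ P, Real.log (Nv v) / ν v - Λ) :=
      mul_le_mul_of_nonneg_left hW1 (Nat.cast_nonneg _)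
    linarith
  have ht1 : t ≤ ℓ + 4 * η * ℓ + 2 * (C5 + 1) + (δ * H + (2 * H - g) / κ) := by
    rw [ht, div_le_iff₀ hden]
    -- it suffices to multiply out
    obtain ⟨u, hu⟩ : ∃ u : ℝ, u = (2 * H - g) / κ := ⟨_, rfl⟩
    have hu' : 2 * H - g = κ * u := by rw [hu]; field_simp
    rw [← hu]
    have hΛu : Λ = κ * u + ℓ := by linarith
    rw [hΛu] at hΛ0 ⊢
    obtain ⟨A, hA⟩ : ∃ A : ℝ, A = κ * (η * H) := ⟨_, rfl⟩
    obtain ⟨D, hD⟩ : ∃ D : ℝ, D = κ * (η * ℓ) := ⟨_, rfl⟩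
    have hηH : 0 ≤ η * H := by positivity
    have hηℓ : 0 ≤ η * ℓ := by positivity
    have hηH' : η * H ≤ A := by rw [hA]; nlinarith
    have hu1 : κ * u ≤ 2 * H := by linarith
    have e1 : κ * u - 2 * A ≤ κ * (1 - η) * u := by
      have h1 : η * (κ * u) ≤ η * (2 * H) := mul_le_mul_of_nonneg_left hu1 hη0.le
      have h2 : κ * (1 - η) * u = κ * u - η * (κ * u) := by ring
      linarith
    have e2 : 4 * A ≤ κ * (1 - η) * (δ * H) := by
      have h0 : 8 * (η * H) ≤ δ * H := by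
        have := mul_le_mul_of_nonneg_right hη2 hH
        linarith
      have h1 : (1 / 2) * (δ * H) ≤ (1 - η) * (δ * H) :=
        mul_le_mul_of_nonneg_right (by linarith) (by positivity)
      have h2 : κ * (4 * (η * H)) ≤ κ * ((1 - η) * (δ * H)) :=
        mul_le_mul_of_nonneg_left (by linarith) hκ0.le
      rw [hA]
      linarith
    have e3 : 2 * D ≤ κ * (1 - η) * (4 * η * ℓ) := by
      have h1 : (1 / 2) * (4 * (η * ℓ)) ≤ (1 - η) * (4 * (η * ℓ)) :=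
        mul_le_mul_of_nonneg_right (by linarith) (by positivity)
      have h2 : κ * (2 * (η * ℓ)) ≤ κ * ((1 - η) * (4 * (η * ℓ))) :=
        mul_le_mul_of_nonneg_left (by linarith) hκ0.le
      rw [hD]
      linarith
    have e4 : ℓ - D ≤ κ * (1 - η) * ℓ := by
      have h1 : κ * (1 - η) * ℓ = κ * ℓ - D := by rw [hD]; ring
      have h2 : 1 * ℓ ≤ κ * ℓ := mul_le_mul_of_nonneg_right hκ hℓ0
      linarith
    have e5 : C5 + 1 ≤ κ * (1 - η) * (2 * (C5 + 1)) := by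
      have h1 : 1 * (1 / 2) ≤ κ * (1 - η) :=
        mul_le_mul hκ (by linarith) (by norm_num) hκ0.le
      have h2 : (1 / 2) * (2 * (C5 + 1)) ≤ κ * (1 - η) * (2 * (C5 + 1)) :=
        mul_le_mul_of_nonneg_right (by linarith) (by positivity)
      linarith
    have e6 : κ * η * (2 * H + ℓ) = 2 * A + D := by rw [hA, hD]; ring
    have e7 : (ℓ + 4 * η * ℓ + 2 * (C5 + 1) + (δ * H + u)) * (κ * (1 - η)) =
        κ * (1 - η) * u + κ * (1 - η) * (δ * H) + κ * (1 - η) * (4 * η * ℓ) +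
          κ * (1 - η) * ℓ + κ * (1 - η) * (2 * (C5 + 1)) := by ring
    rw [e6, e7]
    linarith
  calc (S.card : ℝ) ≤ C2 * Real.exp t := hS1
    _ ≤ (C2 + 1) * Real.exp (ℓ + 4 * η * ℓ + 2 * (C5 + 1) + (δ * H + (2 * H - g) / κ)) := by
        refine mul_le_mul (by linarith) (Real.exp_le_exp.2 ht1) (Real.exp_pos _).le (by linarith)
    _ = (C2 + 1) * Real.exp (ℓ + 4 * η * ℓ + 2 * (C5 + 1)) *
        Real.exp (δ * H + (2 * H - g) / κ) := by
        rw [Real.exp_add (ℓ + 4 * η * ℓ + 2 * (C5 + 1)), ← mul_assoc]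
    _ ≤ _ := by linarith


variable {K}

open Classical in
/-- the larger sieve, uniformly in the bad primes -/
theorem ls_boundq3 (q : ℕ) (hq : q.Prime) : ∃ κ : ℝ, 1 < κ ∧ ∀ K' : ℝ, 0 ≤ K' → ∀ δ : ℝ,
    0 < δ → ∃ C : ℝ, 0 < C ∧ ∀ (Bad : Finset (Pr K)) (H : ℝ), 0 ≤ H → ∀ S : Finset K,
      ∀ (G : Finset (Pr K)) (g : ℝ), ∑ v ∈ G, Real.log (Nv v) ≤ g →
        (∀ x ∈ S, ∀ y ∈ S, x ≠ y → ∀ Q : Finset (Pr K), Disjoint Q G →
          (∀ v ∈ Q, cls v x = cls v y) → g + ∑ v ∈ Q, Real.log (Nv v) ≤ 2 * H + lossK K) →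
        (∀ v, v ∉ G → v ∉ Bad → q ∣ Fintype.card (kk v) - 1 →
          ((S.image (cls v)).card : ℝ) ≤ Nv v / q + K' * Real.sqrt (Nv v)) →
        (S.card : ℝ) ≤ 1 + C * Real.exp (δ * (H + ∑ v ∈ Bad, Real.log (Nv v)) +
          (2 * H - g) / κ) := by
  obtain ⟨κ, hκ, h0⟩ := ls_boundq K q hq
  refine ⟨κ, hκ, fun K' hK' δ hδ => ?_⟩
  obtain ⟨C, hC, h⟩ := h0 K' hK' δ hδ
  refine ⟨C, hC, ?_⟩
  intro Bad H hH S G g hG hpair hcls
  obtain ⟨β, hβ⟩ : ∃ β : ℝ, β = ∑ v ∈ Bad, Real.log (Nv v) := ⟨_, rfl⟩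
  have hβ0 : 0 ≤ β := by
    rw [hβ]
    exact Finset.sum_nonneg fun v _ => (log_Nv_pos v).le
  rw [← hβ]
  have h1 := h (H + β / 2) (by positivity) S (G ∪ Bad) (g + β) (by
    have h2 : ∑ v ∈ G ∪ Bad, Real.log (Nv v) ≤ ∑ v ∈ G, Real.log (Nv v) +
        ∑ v ∈ Bad, Real.log (Nv v) := by
      rw [← Finset.sum_union_inter]
      have : 0 ≤ ∑ v ∈ G ∩ Bad, Real.log (Nv v) := Finset.sum_nonneg fun v _ => (log_Nv_pos v).le
      linarith
    rw [← hβ] at h2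
    linarith) (by
    intro x hx y hy hxy Q hQ hQc
    have h2 := hpair x hx y hy hxy Q (hQ.mono_right Finset.subset_union_left) hQc
    linarith) (by
    intro v hv hqv
    rw [Finset.mem_union, not_or] at hv
    exact hcls v hv.1 hv.2 hqv)
  refine h1.trans ?_
  have e1 : 2 * (H + β / 2) - (g + β) = 2 * H - g := by ring
  rw [e1]
  have h2 : Real.exp (δ * (H + β / 2) + (2 * H - g) / κ) ≤
      Real.exp (δ * (H + β) + (2 * H - g) / κ) := by
    refine Real.exp_le_exp.2 ?_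
    have : δ * (H + β / 2) ≤ δ * (H + β) := mul_le_mul_of_nonneg_left (by linarith) hδ.le
    linarith
  have := mul_le_mul_of_nonneg_left h2 hC.le
  linarith

end Pool.Agent.K9h89.AW
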