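import Mathlib
import Pool.Agent.K9h89.AW.W4

/-!
# The residue classes of the points at which `f (X) (X - z) ^ j` has values in one class modulo
`q`-th powers: polynomials of degree at least two, arbitrary `z`
-/

set_option autoImplicit false
set_option linter.unusedSectionVars false

namespace Pool.Agent.K9h89.AW

open NumberField IsDedekindDomain Finset Pool.Agent.H691R3
open Pool.Agent.TH876.Loc hiding mx
open Pool.Agent.N753.LS Pool.Agent.N753.SF Pool.Agent.N753.SU Polynomial

/-- a separable polynomial of degree at least two times a power of a linear one is not a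
`q`-th power -/
theorem not_qp2 {F : Type} [Field F] {q : ℕ} (hq : 2 ≤ q) (f a b : F[X]) {n : F} (hn : n ≠ 0)
    (hab : a * f + b * derivative f = C n) (hd : 2 ≤ f.natDegree) (j : ℕ) (ζ : F)
    (c : F) (h : F[X]) :
    f * (X - C ζ) ^ j ≠ C c * h ^ q := by
  classical
  intro he
  let L := AlgebraicClosure F
  let i := algebraMap F L
  have hf0 : f ≠ 0 := by
    rintro rfl
    simp at hd
  have hsep : (f.map i).Separable := by
    refine ⟨C (i n)⁻¹ * a.map i, C (i n)⁻¹ * b.map i, ?_⟩
    have h1 := congrArg (Polynomial.map i) hab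
    rw [Polynomial.map_add, Polynomial.map_mul, Polynomial.map_mul, Polynomial.map_C,
      ← derivative_map] at h1
    have h3 : i n ≠ 0 := by
      intro h0
      exact hn (i.injective (by rw [h0, map_zero]))
    rw [mul_assoc, mul_assoc, ← mul_add, h1, ← C_mul, inv_mul_cancel₀ h3, C_1]
  have hcard : (f.map i).roots.card = f.natDegree := by
    rw [← natDegree_map i, ← (IsAlgClosed.splits (f.map i)).natDegree_eq_card_roots]
  obtain ⟨ρ, hρ, hρζ⟩ : ∃ ρ ∈ (f.map i).roots, ρ ≠ i ζ := by
    have h3 : 1 < (f.map i).roots.toFinset.card := by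
      rw [Multiset.toFinset_card_of_nodup (nodup_roots hsep)]
      omega
    obtain ⟨ρ, hρ, hρ'⟩ := Finset.exists_mem_ne h3 (i ζ)
    exact ⟨ρ, Multiset.mem_toFinset.1 hρ, hρ'⟩
  have hfρ : (f.map i).eval ρ = 0 := (mem_roots'.1 hρ).2
  have hc0 : c ≠ 0 := by
    rintro rfl
    rw [C_0, zero_mul, mul_eq_zero] at he
    rcases he with h3 | h3
    · exact hf0 h3
    · exact pow_ne_zero j (X_sub_C_ne_zero ζ) h3
  have he' := congrArg (Polynomial.map i) he
  simp only [Polynomial.map_mul, Polynomial.map_sub, Polynomial.map_X, Polynomial.map_C,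
    Polynomial.map_pow] at he'
  have h3 : (h.map i).eval ρ = 0 := by
    have h4 := congrArg (Polynomial.eval ρ) he'
    rw [eval_mul, hfρ, zero_mul, eval_mul, eval_C, eval_pow] at h4
    have h5 : i c ≠ 0 := fun h0 => hc0 (i.injective (by rw [h0, map_zero]))
    exact pow_eq_zero_iff (by omega) |>.1 ((mul_eq_zero.1 h4.symm).resolve_left h5)
  have h4 := congrArg (fun p => Polynomial.eval ρ (derivative p)) he'
  have hr : Polynomial.eval ρ (derivative (C (i c) * (h.map i) ^ q)) = 0 := by
    rw [derivative_mul, derivative_C, zero_mul, zero_add, derivative_pow, eval_mul, eval_mul,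
      eval_mul, eval_pow, h3, zero_pow (by omega)]
    ring
  have hl : Polynomial.eval ρ (derivative (f.map i * (X - C (i ζ)) ^ j)) =
      eval ρ (derivative (f.map i)) * (ρ - i ζ) ^ j := by
    rw [derivative_mul, eval_add, eval_mul, eval_mul, hfρ, zero_mul, add_zero, eval_pow, eval_sub,
      eval_X, eval_C]
  beta_reduce at h4
  rw [hl, hr] at h4
  have h6 : eval ρ (derivative (f.map i)) = 0 :=
    (mul_eq_zero.1 h4).resolve_right (pow_ne_zero _ (sub_ne_zero.2 hρζ))
  obtain ⟨a', b', hab'⟩ := hsep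
  have h7 := congrArg (Polynomial.eval ρ) hab'
  rw [eval_add, eval_mul, eval_mul, hfρ, h6, mul_zero, mul_zero, add_zero, eval_one] at h7
  exact zero_ne_one h7

variable {K : Type} [Field K] [NumberField K]

open Classical in
/-- **the number of classes, uniformly in the polynomial** -/
theorem cell_zq2 (q : ℕ) (hq : q.Prime) (j e : ℕ) : ∃ M : ℝ, 0 ≤ M ∧ ∀ f : (𝓞 K)[X],
    2 ≤ f.natDegree → f.natDegree ≤ e → ∀ v : Pr K, q ∣ Fintype.card (kk v) - 1 →
    Good f v → GoodS f v → ∀ z : K, ∀ S : Finset K,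
      (∀ x ∈ S, x ≠ z) →
      (∀ x ∈ S, ∀ y ∈ S, ∃ w : K,
        aeval x f * (x - z) ^ j = aeval y f * (y - z) ^ j * w ^ q) →
        ((S.image (cls v)).card : ℝ) ≤ Nv v / q + M * Real.sqrt (Nv v) := by
  obtain ⟨M, hM, hgen⟩ := cell_genq (K := K) q (e + j) hq
  have hq0 : q ≠ 0 := hq.ne_zero
  refine ⟨M, hM, fun f hd hde v hqv hv hv' z S hSz hS => ?_⟩
  obtain ⟨F, hF⟩ : ∃ F : (kk v)[X], F = f.map (Ideal.Quotient.mk v.asIdeal) := ⟨_, rfl⟩
  have hFd : F.natDegree = f.natDegree := by rw [hF]; exact hv.2.1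
  have hF0 : F ≠ 0 := by
    rintro h0
    rw [h0, natDegree_zero] at hFd
    omega
  have hnot : ∀ (i : ℕ) (ζ : kk v), ∀ (c : kk v) (h : (kk v)[X]),
      F * (X - C ζ) ^ i ≠ C c * h ^ q := by
    obtain ⟨⟨a, b, n, hab, hn⟩, -⟩ := hv'
    intro i ζ c h
    refine not_qp2 hq.two_le F (a.map (Ideal.Quotient.mk v.asIdeal))
      (b.map (Ideal.Quotient.mk v.asIdeal))
      (n := Ideal.Quotient.mk v.asIdeal n) ?_ ?_ (by rw [hFd]; exact hd) i ζ c h
    · rwa [Ne, Ideal.Quotient.eq_zero_iff_mem]
    · have h3 := congrArg (Polynomial.map (Ideal.Quotient.mk v.asIdeal)) hab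
      rw [Polynomial.map_add, Polynomial.map_mul, Polynomial.map_mul, Polynomial.map_C,
        ← derivative_map, ← hF] at h3
      exact h3
  by_cases hz : fv v z ≤ 1
  · -- `z` is integral
    have hzv := (fv_le_one v z).1 hz
    have heval : ∀ x : K, v.valuation K x ≤ 1 →
        v.valuation K (aeval x f * (x - z) ^ j) ≤ 1 ∧
        (F * (X - C (rd v z)) ^ j).eval (rd v x) = rd v (aeval x f * (x - z) ^ j) := by
      intro x hx
      have hxz : v.valuation K (x - z) ≤ 1 := (Valuation.map_sub _ _ _).trans (max_le hx hzv)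
      have hxzj : v.valuation K ((x - z) ^ j) ≤ 1 := by
        rw [map_pow]
        exact pow_le_one' hxz j
      obtain ⟨h3, h4⟩ := rd_eval v hx f
      refine ⟨?_, ?_⟩
      · rw [map_mul]
        exact mul_le_one' h3 hxzj
      · rw [rd_mul v h3 hxzj, rd_pow v hxz, rd_sub v hx hzv, h4, eval_mul, eval_pow, eval_sub,
          eval_X, eval_C, hF]
    have hXj : (X - C (rd v z)) ^ j ≠ 0 := pow_ne_zero _ (X_sub_C_ne_zero _)
    refine hgen v hqv (F * (X - C (rd v z)) ^ j) ?_ ?_ ?_ S ?_
    · rw [natDegree_mul hF0 hXj, natDegree_pow, natDegree_X_sub_C]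
      omega
    · rw [natDegree_mul hF0 hXj, natDegree_pow, natDegree_X_sub_C, hFd]
      omega
    · exact hnot j (rd v z)
    · intro x hx y hy hxv hyv hy0
      obtain ⟨w, hw⟩ := hS x hx y hy
      obtain ⟨h3, h4⟩ := heval x hxv
      obtain ⟨h5, h6⟩ := heval y hyv
      rw [h6, Ne, rd_eq_zero_iff v h5, not_lt] at hy0
      have hy1 : v.valuation K (aeval y f * (y - z) ^ j) = 1 := le_antisymm h5 hy0
      have hw1 : v.valuation K w ≤ 1 := by
        rw [hw, map_mul, hy1, one_mul, map_pow] at h3
        exact (pow_le_one_iff_of_nonneg zero_le hq0).1 h3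
      refine ⟨rd v w, ?_⟩
      rw [h4, h6, hw, rd_mul v h5 (by rw [map_pow]; exact pow_le_one' hw1 q), rd_pow v hw1]
  · -- `z` reduces to the point at infinity
    rw [not_le] at hz
    have hF1 : ∀ (c : kk v) (h : (kk v)[X]), F ≠ C c * h ^ q := by
      intro c h he
      refine hnot 0 0 c h ?_
      rw [pow_zero, mul_one]
      exact he
    refine hgen v hqv F (by omega) (by omega) hF1 S ?_
    intro x hx y hy hxv hyv hy0
    obtain ⟨w, hw⟩ := hS x hx y hy
    obtain ⟨h3, h4⟩ := rd_eval v hxv f
    obtain ⟨h5, h6⟩ := rd_eval v hyv f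
    rw [← hF] at h4 h6
    rw [← h6, Ne, rd_eq_zero_iff v h5, not_lt] at hy0
    have hy1 : v.valuation K (aeval y f) = 1 := le_antisymm h5 hy0
    have hyz : y - z ≠ 0 := sub_ne_zero.2 (hSz y hy)
    obtain ⟨u, hu⟩ : ∃ u : K, u = (x - z) / (y - z) := ⟨_, rfl⟩
    have hxz : x - z = u * (y - z) := by rw [hu, div_mul_cancel₀ _ hyz]
    have hfyz : 1 < fv v (y - z) := by
      by_contra hcon
      rw [not_lt] at hcon
      have h7 : z = y + -(y - z) := by ring
      have h8 : fv v z ≤ 1 := by
        rw [h7]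
        refine (fv_na v _ _).trans (max_le ((fv_le_one v y).2 hyv) ?_)
        rw [(fv v).map_neg]
        exact hcon
      linarith
    have hu1 : v.valuation K (u - 1) < 1 := by
      rw [← fv_lt_one]
      have h7 : u - 1 = (x - y) / (y - z) := by
        rw [hu]
        field_simp
        ring
      rw [h7, map_div₀, div_lt_one (by linarith)]
      refine lt_of_le_of_lt ?_ hfyz
      rw [sub_eq_add_neg]
      refine (fv_na v _ _).trans (max_le ((fv_le_one v x).2 hxv) ?_)
      rw [(fv v).map_neg]
      exact (fv_le_one v y).2 hyv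
    have hu2 : v.valuation K u ≤ 1 := by
      have h7 : u = (u - 1) + 1 := by ring
      rw [h7]
      refine (Valuation.map_add _ _ _).trans (max_le hu1.le ?_)
      rw [map_one]
    have hu3 : rd v u = 1 := by
      have h7 := rd_eq v (x := u) 1 (by rw [map_one]; exact hu1)
      rw [h7, map_one]
    have huj : v.valuation K (u ^ j) ≤ 1 := by
      rw [map_pow]
      exact pow_le_one' hu2 j
    have hw' : aeval x f * u ^ j = aeval y f * w ^ q := by
      have h7 : (aeval x f * u ^ j) * (y - z) ^ j = (aeval y f * w ^ q) * (y - z) ^ j := by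
        rw [hxz, mul_pow] at hw
        linear_combination hw
      exact mul_right_cancel₀ (pow_ne_zero _ hyz) h7
    have h8 : v.valuation K (aeval x f * u ^ j) ≤ 1 := by
      rw [map_mul]
      exact mul_le_one' h3 huj
    have hw1 : v.valuation K w ≤ 1 := by
      rw [hw', map_mul, hy1, one_mul, map_pow] at h8
      exact (pow_le_one_iff_of_nonneg zero_le hq0).1 h8
    refine ⟨rd v w, ?_⟩
    have h9 : rd v (aeval x f * u ^ j) = rd v (aeval x f) := by
      rw [rd_mul v h3 huj, rd_pow v hu2, hu3, one_pow, mul_one]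
    rw [← h4, ← h6, ← h9, hw', rd_mul v h5 (by rw [map_pow]; exact pow_le_one' hw1 q),
      rd_pow v hw1]

/-- `lam` in terms of the absolute values -/
theorem lam_fv (v : Pr K) {x z : K} (hxz : x ≠ z) :
    lam (Sum.inr v) (aff x) (aff z) = mx (Sum.inr v) x + mx (Sum.inr v) z -
      Real.log (fv v (x - z)) := by
  have h5 := lamA_eq (fv v) (aff_ne_zero x) (aff_ne_zero z) (aff_wedge hxz)
  have h6 : lam (Sum.inr v) (aff x) (aff z) = lamA (fv v) (aff x) (aff z) := rfl
  have e1 : (aff x).1 * (aff z).2 - (aff x).2 * (aff z).1 = x - z := by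
    simp only [aff, mul_one, one_mul]
  have e2 : ∀ t : K, Real.log (max (fv v (aff t).1) (fv v (aff t).2)) = mx (Sum.inr v) t := by
    intro t
    show Real.log (max (fv v t) (fv v 1)) = Real.log (max (fv v t) 1)
    rw [map_one]
  rw [e1, e2, e2] at h5
  rw [h6, h5]

/-- the distance to a root and the multiplicity -/
theorem ml_le_nu {f : (𝓞 K)[X]} {v : Pr K} (hv : f.leadingCoeff ∉ v.asIdeal)
    (hd : f.natDegree ≠ 0) {x z : K} (hz : aeval z f = 0) (hx : aeval x f ≠ 0) :
    ml v x z ≤ nu f v x := by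
  have hN := log_Nv_pos v
  have hxz : x ≠ z := by
    rintro rfl
    exact hx hz
  have hz1 : fv v z ≤ 1 := by
    by_contra hcon
    rw [not_le] at hcon
    have h1 := fv_large hv hcon
    rw [hz, map_zero] at h1
    have h2 : 0 < fv v z ^ f.natDegree := by positivity
    linarith
  have hmz : mx (Sum.inr v) z = 0 := by
    show Real.log (max (fv v z) 1) = 0
    rw [max_eq_right hz1, Real.log_one]
  have hlam := lam_fv v hxz
  have h4 := lam_eq_ml v hxz
  rw [hmz, add_zero] at hlam
  rcases le_or_gt (fv v x) 1 with hx1 | hx1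
  · have hmx : mx (Sum.inr v) x = 0 := by
      show Real.log (max (fv v x) 1) = 0
      rw [max_eq_right hx1, Real.log_one]
    have h2 := mu_eq_nu hv hx
    rw [mu_small f hx1] at h2
    have hle : fv v (aeval x f) ≤ fv v (x - z) := by
      obtain ⟨r, hr, h⟩ := taylor v f hz1 hx1
      have h5 : aeval x f = (aeval z (derivative f) + r * (x - z)) * (x - z) := by
        rw [h, hz]
        ring
      rw [h5, map_mul]
      refine mul_le_of_le_one_left ((fv v).nonneg _) ?_
      refine (fv_na v _ _).trans (max_le (fv_int v _ hz1) ?_)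
      rw [map_mul]
      refine mul_le_one₀ hr ((fv v).nonneg _) ?_
      rw [sub_eq_add_neg]
      refine (fv_na v _ _).trans (max_le hx1 ?_)
      rw [(fv v).map_neg]
      exact hz1
    have hlog := Real.log_le_log ((fv v).pos hx) hle
    have h6 : (ml v x z : ℝ) * Real.log (Nv v) ≤ nu f v x * Real.log (Nv v) := by
      rw [← h4, hlam, hmx, ← h2]
      linarith
    exact_mod_cast le_of_mul_le_mul_right h6 hN
  · have h5 : fv v (x - z) = fv v x := by
      refine le_antisymm ?_ ?_
      · rw [sub_eq_add_neg]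
        refine (fv_na v _ _).trans (max_le le_rfl ?_)
        rw [(fv v).map_neg]
        linarith
      · have h6 : x = (x - z) + z := by ring
        have h7 := fv_na v (x - z) z
        rw [← h6] at h7
        rcases le_max_iff.1 h7 with h8 | h8
        · exact h8
        · linarith
    have hmx : mx (Sum.inr v) x = Real.log (fv v x) := by
      show Real.log (max (fv v x) 1) = _
      rw [max_eq_left hx1.le]
    rw [hmx, h5, sub_self] at hlam
    rw [hlam] at h4
    have h6 : (ml v x z : ℝ) = 0 := by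
      rcases mul_eq_zero.1 h4.symm with h | h
      · exact h
      · exact absurd h hN.ne'
    have h7 : ml v x z = 0 := by exact_mod_cast h6
    omega

end Pool.Agent.K9h89.AW
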