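import Mathlib
import Pool.Agent.K9h89.AW.V1

/-!
# Points with given divisors and given distance to a point, modulo `q`-th powers: polynomials of
degree at least two, arbitrary `z`
-/

set_option autoImplicit false
set_option linter.unusedSectionVars false

namespace Pool.Agent.K9h89.AW

open NumberField IsDedekindDomain Finset Pool.Agent.H691R3
open Pool.Agent.TH876.Loc hiding mx
open Pool.Agent.N753.LS Pool.Agent.N753.SF Pool.Agent.N753.SU Polynomial
open H645.ABC (vl vl_mul vl_div vl_inv vl_pow)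

variable {K : Type} [Field K] [NumberField K]

variable (K) in
open Classical in
/-- **points with given divisors, modulo `q`-th powers, uniformly in the polynomial** -/
theorem od1qr (q : ℕ) (hq : q.Prime) : ∃ κ : ℝ, 1 < κ ∧ ∀ e : ℕ, 2 ≤ e → ∀ δ : ℝ, 0 < δ →
    ∃ C : ℝ, 0 < C ∧ ∀ f : (𝓞 K)[X], f.natDegree = e → ∀ Bad : Finset (Pr K),
    (∀ v ∉ Bad, Good f v ∧ GoodS f v) → ∀ H : ℝ, 0 ≤ H → ∀ z : K,
    ∀ (n : Pr K →₀ ℕ) (A : Finset (Pr K)) (S : Finset K), Disjoint A n.support →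
      (∀ x ∈ S, hr (aff x) ≤ H ∧ aeval x f ≠ 0 ∧ x ≠ z ∧
        (∀ v ∈ n.support, v ∉ Bad) ∧ (∀ v ∉ Bad, ml v x z = n v)) →
      (∀ x ∈ S, ∀ y ∈ S, ∀ v ∉ Bad, (q : ℤ) ∣ (nu f v x : ℤ) - nu f v y) →
      (∀ x ∈ S, ∀ y ∈ S, ∀ v ∈ A, cls v x = cls v y) →
      (S.card : ℝ) ≤ C * Real.exp (δ * ∑ v ∈ Bad, Real.log (Nv v)) *
        (1 + Real.exp (δ * H + (2 * H - (nrm n + ∑ v ∈ A, Real.log (Nv v))) / κ)) := by
  obtain ⟨κ, hκ, hls0⟩ := ls_boundq3 (K := K) q hq
  refine ⟨κ, hκ, ?_⟩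
  intro e he2 δ hδ
  obtain ⟨j, hj⟩ : ∃ j : ℕ, j = (q - 1) * e := ⟨_, rfl⟩
  have hej : q ∣ e + j := by
    refine ⟨e, ?_⟩
    rw [hj]
    have := hq.one_le
    obtain ⟨p, rfl⟩ : ∃ p, q = p + 1 := ⟨q - 1, by omega⟩
    simp only [Nat.add_sub_cancel]
    ring
  have hq0 : NeZero q := ⟨hq.ne_zero⟩
  obtain ⟨M, hM, hcell⟩ := cell_zq2 (K := K) q hq j e
  obtain ⟨C1, hC1, hls⟩ := hls0 M hM (δ / 2) (half_pos hδ)
  obtain ⟨C3, hC3, hcp⟩ := card_primesq K q (half_pos hδ)
  obtain ⟨ι, hι, c, hc⟩ := H645.ABC.selmer (K := K) q hq.pos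
  have : Fintype ι := Fintype.ofFinite ι
  refine ⟨C3 * (Fintype.card ι + 1) * (1 + C1), by positivity, ?_⟩
  intro f hfe Bad hBad H hH z n A S hAn hS hnu hA
  obtain ⟨N, hN⟩ : ∃ N : ℝ, N = nrm n + ∑ v ∈ A, Real.log (Nv v) := ⟨_, rfl⟩
  rw [← hN]
  obtain ⟨β, hβ⟩ : ∃ β : ℝ, β = ∑ v ∈ Bad, Real.log (Nv v) := ⟨_, rfl⟩
  have hβ0 : 0 ≤ β := by
    rw [hβ]
    exact Finset.sum_nonneg fun v _ => (log_Nv_pos v).le
  have hβB : ∑ v ∈ Bad, Real.log (Nv v) ≤ β := hβ.ge
  rw [← hβ]
  obtain ⟨E, hE⟩ : ∃ E : ℝ, E = Real.exp (δ / 2 * (H + β) +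
    (2 * H - N) / κ) := ⟨_, rfl⟩
  have hE0 : 0 < E := by rw [hE]; exact Real.exp_pos _
  let g : K → K := fun x => aeval x f * (x - z) ^ j
  have hg0 : ∀ x ∈ S, g x ≠ 0 := fun x hx =>
    mul_ne_zero (hS x hx).2.1 (pow_ne_zero _ (sub_ne_zero.2 (hS x hx).2.2.1))
  -- the classes outside `Bad` are given
  have hod : ∀ x ∈ S, ∀ y ∈ S, ∀ v ∉ Bad, (q : ℤ) ∣ vv v (g x) - vv v (g y) := by
    intro x hx y hy v hv
    rw [vv_eq v (hg0 x hx), vv_eq v (hg0 y hy)]
    have h1 := vl_gzj (hBad v hv).2.2 (hS x hx).2.1 (hS x hx).2.2.1 j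
      (Units.mk0 _ (hg0 x hx)) rfl
    have h2 := vl_gzj (hBad v hv).2.2 (hS y hy).2.1 (hS y hy).2.2.1 j
      (Units.mk0 _ (hg0 y hy)) rfl
    have h3 : ml v x z = ml v y z := by
      rw [(hS x hx).2.2.2.2 v hv, (hS y hy).2.2.2.2 v hv]
    have h4 := hnu x hx y hy v hv
    rw [h1, h2, h3, hfe]
    have h5 : (q : ℤ) ∣ (e : ℤ) + j := by exact_mod_cast hej
    have e1 : ((e : ℤ) + j) * (mxn v x : ℤ) + j * mxn v z - j * ml v y z - nu f v x -
        (((e : ℤ) + j) * (mxn v y : ℤ) + j * mxn v z - j * ml v y z - nu f v y) =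
        ((e : ℤ) + j) * ((mxn v x : ℤ) - mxn v y) - ((nu f v x : ℤ) - nu f v y) := by ring
    rw [e1]
    exact dvd_sub (h5.mul_right _) h4
  let key : K → ((v : Bad) → ZMod q) := fun x v => ((vv v.1 (g x) : ℤ) : ZMod q)
  have hsum : (S.card : ℝ) = ∑ b : ((v : Bad) → ZMod q),
      ((S.filter fun x => key x = b).card : ℝ) := by
    have := Finset.card_eq_sum_card_fiberwise (s := S) (t := Finset.univ) (f := key)
      (fun x _ => Finset.mem_coe.2 (Finset.mem_univ _))
    exact_mod_cast this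
  have hfib : ∀ b : ((v : Bad) → ZMod q), ((S.filter fun x => key x = b).card : ℝ) ≤
      (Fintype.card ι + 1) * ((1 + C1) * (1 + E)) := by
    intro b
    obtain ⟨R, hR⟩ : ∃ R, R = S.filter fun x => key x = b := ⟨_, rfl⟩
    rw [← hR]
    have hRm : ∀ x ∈ R, x ∈ S ∧ key x = b := fun x hx => by
      rw [hR] at hx
      exact Finset.mem_filter.1 hx
    rcases R.eq_empty_or_nonempty with hR0 | ⟨x0, hx0⟩
    · rw [hR0, Finset.card_empty, Nat.cast_zero]
      positivity
    obtain ⟨hx0S, hx0b⟩ := hRm x0 hx0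
    have hodR : ∀ x ∈ R, ∀ v, (q : ℤ) ∣ vv v (g x) - vv v (g x0) := by
      intro x hx v
      obtain ⟨hxS, hxb⟩ := hRm x hx
      by_cases hv : v ∈ Bad
      · have h1 : key x = key x0 := hxb.trans hx0b.symm
        have h2 : ((vv v (g x) : ℤ) : ZMod q) = ((vv v (g x0) : ℤ) : ZMod q) :=
          congrFun h1 ⟨v, hv⟩
        rw [ZMod.intCast_eq_intCast_iff_dvd_sub] at h2
        have h3 := (dvd_neg (α := ℤ)).2 h2
        rwa [neg_sub] at h3
      · exact hod x hxS x0 hx0S v hv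
    let col : K → ι := fun x => if h : g x / g x0 ≠ 0 then c (Units.mk0 _ h) else c 1
    have hsum2 : (R.card : ℝ) = ∑ a : ι, ((R.filter fun x => col x = a).card : ℝ) := by
      have := Finset.card_eq_sum_card_fiberwise (s := R) (t := Finset.univ) (f := col)
        (fun x _ => Finset.mem_coe.2 (Finset.mem_univ _))
      exact_mod_cast this
    have hfib2 : ∀ a : ι, ((R.filter fun x => col x = a).card : ℝ) ≤ 1 + C1 * E := by
      intro a
      obtain ⟨S', hS'⟩ : ∃ S', S' = R.filter fun x => col x = a := ⟨_, rfl⟩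
      rw [← hS']
      have hm : ∀ x ∈ S', x ∈ R ∧ col x = a := fun x hx => by
        rw [hS'] at hx
        exact Finset.mem_filter.1 hx
      have hpair : ∀ x ∈ S', ∀ y ∈ S', ∃ w : K,
          aeval x f * (x - z) ^ j = aeval y f * (y - z) ^ j * w ^ q := by
        intro x hx y hy
        obtain ⟨hxR, hx1⟩ := hm x hx
        obtain ⟨hyR, hy1⟩ := hm y hy
        have h1 : col x = col y := hx1.trans hy1.symm
        have hfx := hg0 x (hRm x hxR).1
        have hfy := hg0 y (hRm y hyR).1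
        have hf0 := hg0 x0 hx0S
        have dx : g x / g x0 ≠ 0 := div_ne_zero hfx hf0
        have dy : g y / g x0 ≠ 0 := div_ne_zero hfy hf0
        have h2 : c (Units.mk0 _ dx) = c (Units.mk0 _ dy) := by
          have e1 : col x = c (Units.mk0 _ dx) := dif_pos dx
          have e2 : col y = c (Units.mk0 _ dy) := dif_pos dy
          rw [← e1, ← e2, h1]
        have h3 : ∀ t (htR : t ∈ R) (dt : g t / g x0 ≠ 0), ∀ v : Pr K,
            ((q : ℕ) : ℤ) ∣ vl v (Units.mk0 _ dt) := by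
          intro t htR dt v
          have e1 : Units.mk0 _ dt = Units.mk0 (g t) (hg0 t (hRm t htR).1) /
              Units.mk0 (g x0) hf0 := by
            ext
            simp
          rw [e1, vl_div, ← vv_eq, ← vv_eq]
          exact hodR t htR v
        obtain ⟨w, hw⟩ := hc _ _ (h3 x hxR dx) (h3 y hyR dy) h2
        refine ⟨w, ?_⟩
        have h4 := congrArg (fun t : Kˣ => (t : K)) hw
        simp only [Units.val_mk0, Units.val_mul, Units.val_pow_eq_pow_val] at h4
        rw [div_eq_iff hf0] at h4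
        have h5 : g x = g y * (w : K) ^ q := by
          rw [h4]
          field_simp
        exact h5
      have h1 := hls Bad H hH S' (n.support ∪ A) N (by
        rw [Finset.sum_union hAn.symm, hN, nrm_eq]
        refine add_le_add_left (Finset.sum_le_sum fun v hv => ?_) _
        have h2 : (1 : ℝ) ≤ n v := by
          have : n v ≠ 0 := Finsupp.mem_support_iff.1 hv
          exact_mod_cast Nat.one_le_iff_ne_zero.2 this
        have h3 := log_Nv_pos v
        nlinarith) (by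
        intro x hx y hy hxy Q hQ hQc
        have hxS := (hRm x (hm x hx).1).1
        have hyS := (hRm y (hm y hy).1).1
        obtain ⟨hx1, hx2, hx3, hx4, hx5⟩ := hS x hxS
        obtain ⟨hy1, hy2, hy3, hy4, hy5⟩ := hS y hyS
        have h2 := sum_lam_le (aff_ne_zero x) (aff_ne_zero y) (aff_wedge hxy)
          (((n.support ∪ A) ∪ Q).map ⟨Sum.inr, Sum.inr_injective⟩ : Finset (Pl K))
        rw [Finset.sum_map, Finset.sum_union hQ.symm, Finset.sum_union hAn.symm] at h2
        have h3 : nrm n ≤ ∑ v ∈ n.support, lam (Sum.inr v) (aff x) (aff y) := by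
          rw [nrm_eq]
          refine Finset.sum_le_sum fun v hv => ?_
          have hvB := hx4 v hv
          have e1 : (n v : ℝ) * Real.log (Nv v) ≤ lam (Sum.inr v) (aff x) (aff z) := by
            rw [lam_eq_ml v hx3, hx5 v hvB]
          have e2 : (n v : ℝ) * Real.log (Nv v) ≤ lam (Sum.inr v) (aff z) (aff y) := by
            rw [lam_comm, lam_eq_ml v hy3, hy5 v hvB]
          have e3 := lam_triangle (Sum.inr v) (aff_ne_zero x) (aff_ne_zero z) (aff_ne_zero y)
            (aff_wedge hxy) (aff_wedge hx3) (aff_wedge (Ne.symm hy3)) _ e1 e2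
          have e4 : loss (Sum.inr v : Pl K) = 0 := rfl
          rw [e4, sub_zero] at e3
          exact e3
        have h4 : ∑ v ∈ Q, Real.log (Nv v) ≤ ∑ v ∈ Q, lam (Sum.inr v) (aff x) (aff y) :=
          Finset.sum_le_sum fun v hv => lam_ge_of_cls v hxy (hQc v hv)
        have h4' : ∑ v ∈ A, Real.log (Nv v) ≤ ∑ v ∈ A, lam (Sum.inr v) (aff x) (aff y) :=
          Finset.sum_le_sum fun v hv => lam_ge_of_cls v hxy (hA x hxS y hyS v hv)
        have h7 : ∑ x_1 ∈ n.support, lam (Sum.inr x_1) (aff x) (aff y) +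
          ∑ x_1 ∈ A, lam (Sum.inr x_1) (aff x) (aff y) +
          ∑ x_1 ∈ Q, lam (Sum.inr x_1) (aff x) (aff y) ≤ hr (aff x) + hr (aff y) + lossK K := h2
        linarith) (fun v _ hvB hqv =>
        hcell f (by omega) (by omega) v hqv (hBad v hvB).1 (hBad v hvB).2 z S'
          (fun x hx => (hS x (hRm x (hm x hx).1).1).2.2.1) hpair)
      rw [← hβ, ← hE] at h1
      exact h1
    rw [hsum2]
    calc ∑ a : ι, ((R.filter fun x => col x = a).card : ℝ) ≤ ∑ _a : ι, (1 + C1 * E) :=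
          Finset.sum_le_sum fun a _ => hfib2 a
      _ = Fintype.card ι * (1 + C1 * E) := by
          rw [Finset.sum_const, Finset.card_univ, nsmul_eq_mul]
      _ ≤ (Fintype.card ι + 1) * ((1 + C1) * (1 + E)) := by
          refine mul_le_mul (by linarith) ?_ (by positivity) (by positivity)
          nlinarith
  have hE' : 1 + E ≤ Real.exp (δ / 2 * β) *
      (1 + Real.exp (δ * H + (2 * H - N) / κ)) := by
    have e1 : (1 : ℝ) ≤ Real.exp (δ / 2 * β) := Real.one_le_exp (by positivity)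
    have e2 : E ≤ Real.exp (δ / 2 * β) * Real.exp (δ * H + (2 * H - N) / κ) := by
      rw [hE, ← Real.exp_add]
      refine Real.exp_le_exp.2 ?_
      have : 0 ≤ δ * H := by positivity
      linarith
    linarith
  have h2B : (q : ℝ) ^ Bad.card ≤ C3 * Real.exp (δ / 2 * β) := by
    refine (hcp Bad).trans (mul_le_mul_of_nonneg_left (Real.exp_le_exp.2 ?_) hC3.le)
    exact mul_le_mul_of_nonneg_left hβB (half_pos hδ).le
  rw [hsum]
  calc ∑ b : ((v : Bad) → ZMod q), ((S.filter fun x => key x = b).card : ℝ) ≤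
      ∑ _b : ((v : Bad) → ZMod q), (Fintype.card ι + 1) * ((1 + C1) * (1 + E)) :=
        Finset.sum_le_sum fun b _ => hfib b
    _ = (q : ℝ) ^ Bad.card * ((Fintype.card ι + 1) * ((1 + C1) * (1 + E))) := by
        rw [Finset.sum_const, Finset.card_univ, Fintype.card_fun, ZMod.card, Fintype.card_coe,
          nsmul_eq_mul]
        push_cast
        ring
    _ ≤ (C3 * Real.exp (δ / 2 * β)) * ((Fintype.card ι + 1) * ((1 + C1) *
        (Real.exp (δ / 2 * β) * (1 + Real.exp (δ * H + (2 * H - N) / κ))))) := by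
        refine mul_le_mul h2B ?_ (by positivity) (by positivity)
        refine mul_le_mul_of_nonneg_left ?_ (by positivity)
        exact mul_le_mul_of_nonneg_left hE' (by positivity)
    _ = C3 * (Fintype.card ι + 1) * (1 + C1) * (Real.exp (δ / 2 * β) * Real.exp (δ / 2 * β)) *
        (1 + Real.exp (δ * H + (2 * H - N) / κ)) := by ring
    _ = _ := by
        rw [← Real.exp_add]
        congr 3
        ring

end Pool.Agent.K9h89.AW
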