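import Mathlib
import Pool.Agent.K9h89.AW.V2

/-!
# Points at which the part of the value which is not a `q`-th power is small and which are not too
# near to a given point
-/

set_option autoImplicit false
set_option linter.unusedSectionVars false

namespace Pool.Agent.K9h89.AW

open NumberField IsDedekindDomain Finset Pool.Agent.H691R3
open Pool.Agent.TH876.Loc hiding mx
open Pool.Agent.N753.LS Pool.Agent.N753.SF Pool.Agent.N753.SU Polynomial

variable {K : Type} [Field K] [NumberField K]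

open Classical in
theorem exists_nn (Bad : Finset (Pr K)) (x z : K) : ∃ n : Pr K →₀ ℕ, x ≠ z →
    ∀ v, n v = if v ∈ Bad then 0 else ml v x z := by
  by_cases hx : x = z
  · exact ⟨0, fun h => absurd hx h⟩
  · have hfin : {v : Pr K | ml v x z ≠ 0}.Finite := by
      refine (lamF_support_finite (aff_ne_zero x) (aff_ne_zero z) (aff_wedge hx)).subset ?_
      intro v hv
      have hv' : ml v x z ≠ 0 := hv
      intro h0
      have e1 := lam_eq_ml v hx
      have e2 : lam (Sum.inr v) (aff x) (aff z) = 0 := h0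
      rw [e2] at e1
      rcases mul_eq_zero.1 e1.symm with h | h
      · exact hv' (by exact_mod_cast h)
      · exact (log_Nv_pos v).ne' h
    refine ⟨Finsupp.onFinset hfin.toFinset (fun v => if v ∈ Bad then 0 else ml v x z) ?_,
      fun _ v => rfl⟩
    intro v hv
    rw [Set.Finite.mem_toFinset]
    intro h0
    apply hv
    rw [h0]
    split_ifs <;> rfl

/-- the distances to `z` outside `Bad` -/
noncomputable def nn (Bad : Finset (Pr K)) (x z : K) : Pr K →₀ ℕ := (exists_nn Bad x z).choose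

open Classical in
theorem nn_apply (Bad : Finset (Pr K)) {x z : K} (h : x ≠ z) (v : Pr K) :
    nn Bad x z v = if v ∈ Bad then 0 else ml v x z := (exists_nn Bad x z).choose_spec h v

theorem nrm_nn_le (Bad : Finset (Pr K)) {x z : K} (h : x ≠ z) :
    nrm (nn Bad x z) ≤ hr (aff x) + hr (aff z) + lossK K := by
  classical
  have e1 := sum_lam_le (aff_ne_zero x) (aff_ne_zero z) (aff_wedge h)
    ((nn Bad x z).support.map ⟨Sum.inr, Sum.inr_injective⟩ : Finset (Pl K))
  rw [Finset.sum_map] at e1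
  have e2 : nrm (nn Bad x z) ≤ ∑ v ∈ (nn Bad x z).support, lam (Sum.inr v) (aff x) (aff z) := by
    rw [nrm_eq]
    refine Finset.sum_le_sum fun v _ => ?_
    rw [nn_apply Bad h v, lam_eq_ml v h]
    split_ifs
    · rw [Nat.cast_zero, zero_mul]
      exact mul_nonneg (Nat.cast_nonneg _) (log_Nv_pos v).le
    · exact le_rfl
  exact e2.trans e1

open Classical in
/-- the primes at which the multiplicity is not divisible by `q` -/
noncomputable def YY (q : ℕ) (f : (𝓞 K)[X]) (Bad : Finset (Pr K)) (x : K) : Finset (Pr K) :=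
  (dv f x \ Bad).filter fun v => ¬ q ∣ nu f v x

theorem mem_YY {q : ℕ} {f : (𝓞 K)[X]} {Bad : Finset (Pr K)}
    (hBad : ∀ v ∉ Bad, Good f v ∧ GoodS f v) {x : K} (hx : aeval x f ≠ 0) {v : Pr K} :
    v ∈ YY q f Bad x ↔ v ∉ Bad ∧ ¬ q ∣ nu f v x := by
  classical
  unfold YY
  rw [Finset.mem_filter, Finset.mem_sdiff]
  constructor
  · rintro ⟨⟨h1, h2⟩, h3⟩
    exact ⟨h2, h3⟩
  · rintro ⟨h1, h2⟩
    refine ⟨⟨(mem_dv_iff hx (hBad v h1).2.2).2 ?_, h1⟩, h2⟩
    by_contra hcon
    have : nu f v x = 0 := by omega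
    rw [this] at h2
    exact h2 (dvd_zero _)

theorem mem_nn_of_cls {Bad : Finset (Pr K)} {x z : K} (h : x ≠ z) {v : Pr K} (hv : v ∉ Bad)
    (hc : cls v x = cls v z) : v ∈ (nn Bad x z).support := by
  classical
  rw [Finsupp.mem_support_iff, nn_apply Bad h v, if_neg hv]
  intro h0
  have e1 := lam_ge_of_cls v h hc
  rw [lam_eq_ml v h, h0, Nat.cast_zero, zero_mul] at e1
  have e2 := log_Nv_pos v
  linarith

variable (K) in
open Classical in
/-- **points at which the part of the value which is not a `q`-th power is small and which are not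
too near to a given point** -/
theorem od2qr (q : ℕ) (hq : q.Prime) : ∃ la : ℝ, 0 < la ∧ la < 1 ∧
    ∀ e : ℕ, 2 ≤ e → ∀ δ : ℝ, 0 < δ → δ ≤ 1 → ∃ C : ℝ, 0 < C ∧
    ∀ f : (𝓞 K)[X], f.natDegree = e → ∀ Bad : Finset (Pr K),
    (∀ v ∉ Bad, Good f v ∧ GoodS f v) → ∀ H : ℝ, 0 ≤ H → ∀ T : ℝ, T ≤ 2 * H →
    ∀ z : K, ∀ S : Finset K, (∀ x ∈ S, hr (aff x) ≤ H ∧ aeval x f ≠ 0 ∧ x ≠ z ∧
      nrm (nn Bad x z) + ∑ v ∈ (YY q f Bad x).filter (fun v => ¬ cls v x = cls v z),
        Real.log (Nv v) ≤ T) →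
      (S.card : ℝ) ≤ C * Real.exp (2 * la * H + (1 - la) * T + δ * H) *
        Real.exp (δ * ∑ v ∈ Bad, Real.log (Nv v)) := by
  obtain ⟨κq, hκq, h1⟩ := od1qr K q hq
  have hq0 : NeZero q := ⟨hq.ne_zero⟩
  obtain ⟨la, hla⟩ : ∃ la : ℝ, la = 1 / κq := ⟨_, rfl⟩
  have hla0 : 0 < la := by rw [hla]; positivity
  have hla1 : la < 1 := by rw [hla, div_lt_one (by linarith)]; exact hκq
  refine ⟨la, hla0, hla1, ?_⟩
  intro e he2 δ hδ hδ1
  obtain ⟨δ1, hδ1'⟩ : ∃ δ1 : ℝ, δ1 = δ / 16 := ⟨_, rfl⟩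
  have hδ10 : 0 < δ1 := by rw [hδ1']; positivity
  obtain ⟨C1, hC1, h1⟩ := h1 e he2 δ1 hδ10
  obtain ⟨C3, hC3, h3⟩ := sum_nrm K hδ10
  obtain ⟨C4, hC4, h4⟩ := sum_sets K hδ10
  obtain ⟨C7, hC7, h7⟩ := card_primesq K q hδ10
  obtain ⟨C8, hC8, h8⟩ := card_primesq K (e + 1) hδ10
  refine ⟨C8 * C7 * (2 * C1) * (C4 * C3), by positivity, ?_⟩
  intro f hfe Bad hBad H hH T hT z S hS
  have hlog : ∀ v : Pr K, 0 ≤ Real.log (Nv v) := fun v => (log_Nv_pos v).le
  obtain ⟨β0, hβ0'⟩ : ∃ β0 : ℝ, β0 = ∑ v ∈ Bad, Real.log (Nv v) := ⟨_, rfl⟩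
  have hβ00 : 0 ≤ β0 := by rw [hβ0']; exact Finset.sum_nonneg fun v _ => hlog v
  obtain ⟨Bf, hBf⟩ : ∃ Bf : ℝ, Bf = Real.exp (δ * β0) := ⟨_, rfl⟩
  have hBf0 : 0 < Bf := by rw [hBf]; exact Real.exp_pos _
  obtain ⟨E, hE⟩ : ∃ E : ℝ, E = Real.exp (2 * la * H + (1 - la) * T + δ * H) := ⟨_, rfl⟩
  have hE0 : 0 < E := by rw [hE]; positivity
  rw [← hE, ← hβ0', ← hBf]
  let A : K → Finset (Pr K) := fun x => (YY q f Bad x).filter fun v => ¬ cls v x = cls v z
  let p : K → Finset (Pr K) × (Pr K →₀ ℕ) := fun x => (A x, nn Bad x z)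
  let G : Finset (Pr K) × (Pr K →₀ ℕ) → ℝ := fun k =>
    Real.exp (-((1 + δ1) * ∑ v ∈ k.1, Real.log (Nv v))) * Real.exp (-((1 + δ1) * nrm k.2))
  have hG0 : ∀ k, 0 < G k := fun k => by
    show 0 < Real.exp _ * Real.exp _
    positivity
  obtain ⟨P, hP⟩ : ∃ P, P = S.image p := ⟨_, rfl⟩
  have hfib : ∀ k ∈ P, ((S.filter fun x => p x = k).card : ℝ) ≤
      C8 * C7 * (2 * C1) * E * G k * Bf := by
    intro k hk
    rw [hP] at hk
    obtain ⟨x0, hx0, rfl⟩ := Finset.mem_image.1 hk
    obtain ⟨hx0H, hx00, hx0z, hx0T⟩ := hS x0 hx0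
    obtain ⟨R, hR⟩ : ∃ R : Finset K, R = S.filter fun x => p x = p x0 := ⟨_, rfl⟩
    rw [← hR]
    have hRm : ∀ x ∈ R, x ∈ S ∧ A x = A x0 ∧ nn Bad x z = nn Bad x0 z := by
      intro x hx
      rw [hR] at hx
      obtain ⟨hx1, hx2⟩ := Finset.mem_filter.1 hx
      have hx3 : (A x, nn Bad x z) = (A x0, nn Bad x0 z) := hx2
      rw [Prod.mk.injEq] at hx3
      exact ⟨hx1, hx3.1, hx3.2⟩
    obtain ⟨n, hn⟩ : ∃ n, n = nn Bad x0 z := ⟨_, rfl⟩
    obtain ⟨U, hU⟩ : ∃ U, U = A x0 ∪ n.support := ⟨_, rfl⟩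
    have hAx : ∀ x ∈ S, ∀ v ∈ A x, v ∉ Bad ∧ ¬ q ∣ nu f v x ∧ ¬ cls v x = cls v z := by
      intro x hx v hv
      obtain ⟨hv1, hv2⟩ := Finset.mem_filter.1 hv
      obtain ⟨hv3, hv4⟩ := (mem_YY hBad (hS x hx).2.1).1 hv1
      exact ⟨hv3, hv4, hv2⟩
    have hnB : ∀ v ∈ n.support, v ∉ Bad := by
      intro v hv hvB
      rw [hn, Finsupp.mem_support_iff, nn_apply Bad hx0z v, if_pos hvB] at hv
      exact hv rfl
    have hdisj : Disjoint (A x0) n.support := by
      rw [Finset.disjoint_left]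
      intro v hvA hvn
      obtain ⟨hv1, hv2, hv3⟩ := hAx x0 hx0 v hvA
      -- the classes agree where the distance is positive
      apply hv3
      rw [hn, Finsupp.mem_support_iff, nn_apply Bad hx0z v, if_neg hv1] at hvn
      by_contra hcls
      -- `v` is a prime of the value, hence `x0` is integral at `v`
      have hN := log_Nv_pos v
      have hnu : 1 ≤ nu f v x0 := by
        by_contra hcon
        have : nu f v x0 = 0 := by omega
        rw [this] at hv2
        exact hv2 (dvd_zero _)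
      obtain ⟨hx1, -⟩ := le_nu (hBad v hv1).2.2 hx00 le_rfl hnu
      have hlam := lam_fv v hx0z
      rw [lam_eq_ml v hx0z] at hlam
      have hmx : mx (Sum.inr v) x0 = 0 := by
        show Real.log (max (fv v x0) 1) = 0
        rw [max_eq_right hx1, Real.log_one]
      rw [hmx, zero_add] at hlam
      have hml : (1 : ℝ) ≤ ml v x0 z := by
        exact_mod_cast Nat.one_le_iff_ne_zero.2 hvn
      have hpos : 0 < mx (Sum.inr v) z - Real.log (fv v (x0 - z)) := by
        rw [← hlam]
        positivity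
      rcases le_or_gt (fv v z) 1 with hz1 | hz1
      · have hmz : mx (Sum.inr v) z = 0 := by
          show Real.log (max (fv v z) 1) = 0
          rw [max_eq_right hz1, Real.log_one]
        rw [hmz, zero_sub, neg_pos] at hpos
        have hlt : fv v (x0 - z) < 1 := by
          by_contra hcon
          rw [not_lt] at hcon
          have := Real.log_nonneg hcon
          linarith
        have hxv := (fv_le_one v x0).1 hx1
        have hzv := (fv_le_one v z).1 hz1
        apply hcls
        rw [cls_of_le v hxv, cls_of_le v hzv]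
        have hsub : v.valuation K (x0 - z) ≤ 1 :=
          (Valuation.map_sub _ _ _).trans (max_le hxv hzv)
        have h5 : rd v (x0 - z) = 0 := by
          rw [rd_eq_zero_iff v hsub, ← fv_lt_one]
          exact hlt
        rw [rd_sub v hxv hzv, sub_eq_zero] at h5
        rw [h5]
      · have hmz : mx (Sum.inr v) z = Real.log (fv v z) := by
          show Real.log (max (fv v z) 1) = _
          rw [max_eq_left hz1.le]
        have h5 : fv v z ≤ fv v (x0 - z) := by
          have h6 : z = -(x0 - z) + x0 := by ring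
          have h7 := fv_na v (-(x0 - z)) x0
          rw [← h6, (fv v).map_neg] at h7
          rcases le_max_iff.1 h7 with h8 | h8
          · exact h8
          · linarith
        have h6 := Real.log_le_log (by linarith) h5
        rw [hmz] at hpos
        linarith
    -- the keys
    let key1 : K → ((v : A x0) → Option (kk v.1)) := fun x v => cls v.1 x
    obtain ⟨t, ht⟩ : ∃ t : Finset ((v : A x0) → Option (kk v.1)),
      t = Fintype.piFinset fun v : A x0 => RC f v.1 := ⟨_, rfl⟩
    have hmaps : ∀ x ∈ R, key1 x ∈ t := by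
      intro x hx
      obtain ⟨hxS, hxA, hxn⟩ := hRm x hx
      rw [ht, Fintype.mem_piFinset]
      intro v
      have hvA : v.1 ∈ A x := by rw [hxA]; exact v.2
      obtain ⟨hv1, hv2, -⟩ := hAx x hxS v.1 hvA
      obtain ⟨g1, g2⟩ := hBad v.1 hv1
      refine cls_nu g1 g2.2 (by omega) (hS x hxS).2.1 ?_
      by_contra hcon
      have : nu f v.1 x = 0 := by omega
      rw [this] at hv2
      exact hv2 (dvd_zero _)
    obtain ⟨a, ha⟩ : ∃ a : ℝ, a = ∑ v ∈ A x0, Real.log (Nv v) := ⟨_, rfl⟩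
    have ha0 : 0 ≤ a := by rw [ha]; exact Finset.sum_nonneg fun v _ => hlog v
    obtain ⟨ν, hν⟩ : ∃ ν : ℝ, ν = nrm n := ⟨_, rfl⟩
    have hν0 : 0 ≤ ν := by rw [hν]; exact nrm_nonneg _
    have haT : ν + a ≤ T := by
      rw [hν, ha, hn]
      exact hx0T
    have hns : ∑ v ∈ n.support, Real.log (Nv v) ≤ ν := by
      rw [hν, nrm_eq]
      refine Finset.sum_le_sum fun v hv => ?_
      have h2 : (1 : ℝ) ≤ n v := by
        exact_mod_cast Nat.one_le_iff_ne_zero.2 (Finsupp.mem_support_iff.1 hv)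
      have h3 := log_Nv_pos v
      nlinarith
    have hUs : ∑ v ∈ U, Real.log (Nv v) ≤ a + ν := by
      rw [hU, Finset.sum_union hdisj, ← ha]
      linarith
    have hcard : (t.card : ℝ) ≤ C8 * Real.exp (δ1 * a) := by
      rw [ht, Fintype.card_piFinset]
      push_cast
      have e1 : ∏ v : A x0, ((RC f v.1).card : ℝ) ≤ ((e + 1 : ℕ) : ℝ) ^ (A x0).card := by
        calc ∏ v : A x0, ((RC f v.1).card : ℝ) ≤ ∏ _v : A x0, ((e + 1 : ℕ) : ℝ) := by
              refine Finset.prod_le_prod (fun _ _ => Nat.cast_nonneg _) fun v _ => ?_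
              rw [← hfe]
              exact_mod_cast card_RC f v.1
          _ = _ := by
              rw [Finset.prod_const, Finset.card_univ, Fintype.card_coe]
      refine e1.trans ?_
      rw [ha]
      exact h8 (A x0)
    have hfib1 : ∀ b ∈ t, ((R.filter fun x => key1 x = b).card : ℝ) ≤
        C7 * Real.exp (δ1 * (a + ν)) * (C1 * Real.exp (δ1 * β0) *
          (2 * Real.exp (δ1 * H + (2 * H - (ν + a)) * la))) := by
      intro b _
      obtain ⟨R1, hR1⟩ : ∃ R1, R1 = R.filter fun x => key1 x = b := ⟨_, rfl⟩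
      rw [← hR1]
      have hR1m : ∀ x ∈ R1, x ∈ R ∧ key1 x = b := by
        intro x hx
        rw [hR1] at hx
        exact Finset.mem_filter.1 hx
      let key2 : K → ((v : U) → ZMod q) := fun x v => ((nu f v.1 x : ℕ) : ZMod q)
      have hsum2 : (R1.card : ℝ) = ∑ r : ((v : U) → ZMod q),
          ((R1.filter fun x => key2 x = r).card : ℝ) := by
        have := Finset.card_eq_sum_card_fiberwise (s := R1) (t := Finset.univ) (f := key2)
          (fun x _ => Finset.mem_coe.2 (Finset.mem_univ _))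
        exact_mod_cast this
      have hfib2 : ∀ r : ((v : U) → ZMod q), ((R1.filter fun x => key2 x = r).card : ℝ) ≤
          C1 * Real.exp (δ1 * β0) * (2 * Real.exp (δ1 * H + (2 * H - (ν + a)) * la)) := by
        intro r
        obtain ⟨R2, hR2⟩ : ∃ R2, R2 = R1.filter fun x => key2 x = r := ⟨_, rfl⟩
        rw [← hR2]
        have hR2m : ∀ x ∈ R2, x ∈ S ∧ A x = A x0 ∧ nn Bad x z = n ∧ key1 x = b ∧ key2 x = r := by
          intro x hx
          rw [hR2] at hx
          obtain ⟨hx1, hx2⟩ := Finset.mem_filter.1 hx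
          obtain ⟨hx3, hx4⟩ := hR1m x hx1
          obtain ⟨hx5, hx6, hx7⟩ := hRm x hx3
          exact ⟨hx5, hx6, by rw [hx7, hn], hx4, hx2⟩
        have hout : ∀ x ∈ R2, ∀ v ∉ Bad, v ∉ U → q ∣ nu f v x := by
          intro x hx v hv hvU
          obtain ⟨hxS, hxA, hxn, -, -⟩ := hR2m x hx
          by_contra hcon
          apply hvU
          rw [hU, Finset.mem_union]
          by_cases hc : cls v x = cls v z
          · right
            rw [← hxn]
            exact mem_nn_of_cls (hS x hxS).2.2.1 hv hc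
          · left
            rw [← hxA]
            exact Finset.mem_filter.2 ⟨(mem_YY hBad (hS x hxS).2.1).2 ⟨hv, hcon⟩, hc⟩
        have g1 := h1 f hfe Bad hBad H hH z n (A x0) R2 hdisj (by
          intro x hx
          obtain ⟨hxS, hxA, hxn, -, -⟩ := hR2m x hx
          refine ⟨(hS x hxS).1, (hS x hxS).2.1, (hS x hxS).2.2.1, hnB, ?_⟩
          intro v hv
          rw [← hxn, nn_apply Bad (hS x hxS).2.2.1 v, if_neg hv]) (by
          intro x hx y hy v hv
          by_cases hvU : v ∈ U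
          · have e1 : ((nu f v x : ℕ) : ZMod q) = ((nu f v y : ℕ) : ZMod q) :=
              congrFun ((hR2m x hx).2.2.2.2.trans (hR2m y hy).2.2.2.2.symm) ⟨v, hvU⟩
            have e2 : (((nu f v y : ℕ) : ℤ) : ZMod q) = (((nu f v x : ℕ) : ℤ) : ZMod q) := by
              push_cast
              exact e1.symm
            exact (ZMod.intCast_eq_intCast_iff_dvd_sub _ _ _).1 e2
          · exact dvd_sub (by exact_mod_cast hout x hx v hv hvU)
              (by exact_mod_cast hout y hy v hv hvU)) (by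
          intro x hx y hy v hv
          exact congrFun ((hR2m x hx).2.2.2.1.trans (hR2m y hy).2.2.2.1.symm) ⟨v, hv⟩)
        refine g1.trans ?_
        rw [← hβ0', ← ha, ← hν]
        refine mul_le_mul_of_nonneg_left ?_ (by positivity)
        have e1 : (2 * H - (ν + a)) / κq = (2 * H - (ν + a)) * la := by rw [hla]; ring
        rw [e1, two_mul (Real.exp (δ1 * H + (2 * H - (ν + a)) * la))]
        refine add_le_add (Real.one_le_exp ?_) le_rfl
        have e2 : 0 ≤ (2 * H - (ν + a)) * la := mul_nonneg (by linarith) hla0.le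
        have e3 : 0 ≤ δ1 * H := by positivity
        linarith
      rw [hsum2]
      calc ∑ r : ((v : U) → ZMod q), ((R1.filter fun x => key2 x = r).card : ℝ) ≤
          ∑ _r : ((v : U) → ZMod q), C1 * Real.exp (δ1 * β0) *
            (2 * Real.exp (δ1 * H + (2 * H - (ν + a)) * la)) :=
            Finset.sum_le_sum fun r _ => hfib2 r
        _ = (q : ℝ) ^ U.card * (C1 * Real.exp (δ1 * β0) *
            (2 * Real.exp (δ1 * H + (2 * H - (ν + a)) * la))) := by
            rw [Finset.sum_const, Finset.card_univ, Fintype.card_fun, ZMod.card,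
              Fintype.card_coe, nsmul_eq_mul]
            push_cast
            ring
        _ ≤ _ := by
            refine mul_le_mul_of_nonneg_right ((h7 U).trans ?_) (by positivity)
            refine mul_le_mul_of_nonneg_left (Real.exp_le_exp.2 ?_) hC7.le
            exact mul_le_mul_of_nonneg_left hUs hδ10.le
    have hsum1 : (R.card : ℝ) = ∑ b ∈ t, ((R.filter fun x => key1 x = b).card : ℝ) := by
      have := Finset.card_eq_sum_card_fiberwise hmaps
      exact_mod_cast this
    have hGp : G (p x0) = Real.exp (-((1 + δ1) * a) + -((1 + δ1) * ν)) := by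
      rw [Real.exp_add, ha, hν, hn]
    rw [hsum1]
    calc ∑ b ∈ t, ((R.filter fun x => key1 x = b).card : ℝ) ≤
        ∑ _b ∈ t, C7 * Real.exp (δ1 * (a + ν)) * (C1 * Real.exp (δ1 * β0) *
          (2 * Real.exp (δ1 * H + (2 * H - (ν + a)) * la))) := Finset.sum_le_sum hfib1
      _ = t.card * (C7 * Real.exp (δ1 * (a + ν)) * (C1 * Real.exp (δ1 * β0) *
          (2 * Real.exp (δ1 * H + (2 * H - (ν + a)) * la)))) := by
          rw [Finset.sum_const, nsmul_eq_mul]
      _ ≤ (C8 * Real.exp (δ1 * a)) * (C7 * Real.exp (δ1 * (a + ν)) * (C1 * Real.exp (δ1 * β0) *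
          (2 * Real.exp (δ1 * H + (2 * H - (ν + a)) * la)))) :=
          mul_le_mul_of_nonneg_right hcard (by positivity)
      _ = C8 * C7 * (2 * C1) * Real.exp (δ1 * a + δ1 * (a + ν) + δ1 * β0 +
          (δ1 * H + (2 * H - (ν + a)) * la)) := by
          rw [Real.exp_add (δ1 * a + δ1 * (a + ν) + δ1 * β0) (δ1 * H + (2 * H - (ν + a)) * la),
            Real.exp_add (δ1 * a + δ1 * (a + ν)) (δ1 * β0), Real.exp_add (δ1 * a) (δ1 * (a + ν))]
          ring
      _ ≤ C8 * C7 * (2 * C1) * Real.exp ((2 * la * H + (1 - la) * T + δ * H) +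
          (-((1 + δ1) * a) + -((1 + δ1) * ν)) + δ * β0) := by
          refine mul_le_mul_of_nonneg_left (Real.exp_le_exp.2 ?_) (by positivity)
          have e1 : δ1 * β0 ≤ δ * β0 := mul_le_mul_of_nonneg_right (by rw [hδ1']; linarith) hβ00
          have e2 : (1 - la) * (ν + a) ≤ (1 - la) * T :=
            mul_le_mul_of_nonneg_left haT (by linarith)
          have e3 : δ1 * (ν + a) ≤ δ1 * (2 * H) :=
            mul_le_mul_of_nonneg_left (haT.trans hT) hδ10.le
          have e4 : 0 ≤ δ1 * ν := by positivity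
          have e5 : δ1 * H = δ / 16 * H := by rw [hδ1']
          have e6 : 0 ≤ δ * H := by positivity
          have e7 : δ1 * (2 * H) = δ / 8 * H := by rw [hδ1']; ring
          nlinarith
      _ = C8 * C7 * (2 * C1) * E * G (p x0) * Bf := by
          rw [Real.exp_add, Real.exp_add, ← hE, ← hGp, ← hBf]
          ring
  have hPG : ∑ k ∈ P, G k ≤ C4 * C3 := by
    have hsub : P ⊆ (P.image fun k => k.1) ×ˢ (P.image fun k => k.2) := by
      intro k hk'
      rw [Finset.mem_product]
      exact ⟨Finset.mem_image_of_mem _ hk', Finset.mem_image_of_mem _ hk'⟩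
    refine (Finset.sum_le_sum_of_subset_of_nonneg hsub fun k _ _ => (hG0 k).le).trans ?_
    have e1 : ∑ k ∈ (P.image fun k => k.1) ×ˢ (P.image fun k => k.2), G k =
        (∑ A ∈ P.image fun k => k.1, Real.exp (-((1 + δ1) * ∑ v ∈ A, Real.log (Nv v)))) *
            ∑ m ∈ P.image fun k => k.2, Real.exp (-((1 + δ1) * nrm m)) := by
      rw [Finset.sum_mul_sum, Finset.sum_product]
    rw [e1]
    refine mul_le_mul (h4 _) (h3 _) ?_ hC4.le
    exact Finset.sum_nonneg fun _ _ => (Real.exp_pos _).le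
  have e1 : (S.card : ℝ) = ∑ k ∈ P, ((S.filter fun x => p x = k).card : ℝ) := by
    have := Finset.card_eq_sum_card_fiberwise (s := S) (t := P) (f := p) (by
      intro x hx
      rw [hP]
      exact Finset.mem_coe.2 (Finset.mem_image_of_mem _ (Finset.mem_coe.1 hx)))
    exact_mod_cast this
  rw [e1]
  calc ∑ k ∈ P, ((S.filter fun x => p x = k).card : ℝ) ≤
      ∑ k ∈ P, C8 * C7 * (2 * C1) * E * G k * Bf := Finset.sum_le_sum hfib
    _ = C8 * C7 * (2 * C1) * E * (∑ k ∈ P, G k) * Bf := by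
        rw [Finset.mul_sum, Finset.sum_mul]
    _ ≤ C8 * C7 * (2 * C1) * E * (C4 * C3) * Bf :=
        mul_le_mul_of_nonneg_right (mul_le_mul_of_nonneg_left hPG (by positivity)) hBf0.le
    _ = _ := by ring

end Pool.Agent.K9h89.AW
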