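import Mathlib
import Pool.Agent.K9h89.AW.V3

/-!
# Points at which the part of the value which is not a `q`-th power is small, given good
# approximations
-/

set_option autoImplicit false
set_option linter.unusedSectionVars false

namespace Pool.Agent.K9h89.AW

open NumberField IsDedekindDomain Finset Pool.Agent.H691R3
open Pool.Agent.TH876.Loc hiding mx
open Pool.Agent.N753.LS Pool.Agent.N753.SF Pool.Agent.N753.SU Polynomial

variable (K : Type) [Field K] [NumberField K]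

open Classical in
/-- **points at which the part of the value which is not a `q`-th power is small** -/
theorem od2qz (q : ℕ) (hq : q.Prime) : ∃ la : ℝ, 0 < la ∧ la < 1 ∧ ∀ C0 : ℝ, 0 ≤ C0 →
    ∀ e : ℕ, 1 ≤ e → ∀ c1 : ℝ, 0 ≤ c1 → ∀ δ : ℝ, 0 < δ → δ ≤ 1 → ∃ C : ℝ, 0 < C ∧
    ∀ f : (𝓞 K)[X], f.natDegree = e → ∀ Bad : Finset (Pr K),
    (∀ v ∉ Bad, Good f v ∧ GoodS f v) → ∀ H : ℝ, 0 ≤ H →
    ht (f.map (algebraMap (𝓞 K) K)) ≤ c1 * (1 + H) → ∀ τ : ℝ, 0 ≤ τ → τ ≤ 2 * H →
    ∀ (z : K → K) (S : Finset K), (∀ x ∈ S, hr (aff x) ≤ H ∧ aeval x f ≠ 0 ∧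
      aeval (z x) f ≠ 0 ∧
      (2 * hr (aff (z x)) + ∑ v ∈ (YY q f Bad x).filter (fun v => ¬ cls v x = cls v (z x)),
        Real.log (Nv v) ≤ ∑ v ∈ (YY q f Bad x).filter (fun v => cls v x = cls v (z x)),
          Real.log (Nv v) + C0) ∧
      ∑ v ∈ YY q f Bad x, Real.log (Nv v) ≤ τ) →
      (S.card : ℝ) ≤ C * Real.exp ((1 + la) * H + τ / 2 * (1 - la) + δ * H) *
        Real.exp (δ * ∑ v ∈ Bad, Real.log (Nv v)) := by
  obtain ⟨κq, hκq, h1⟩ := od1q K q hq
  have hq0 : NeZero q := ⟨hq.ne_zero⟩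
  obtain ⟨la, hla⟩ : ∃ la : ℝ, la = 1 / κq := ⟨_, rfl⟩
  have hla0 : 0 < la := by rw [hla]; positivity
  have hla1 : la < 1 := by rw [hla, div_lt_one (by linarith)]; exact hκq
  refine ⟨la, hla0, hla1, ?_⟩
  intro C0 hC0 e he1 c1 hc1 δ hδ hδ1
  have he0 : (0 : ℝ) ≤ e := Nat.cast_nonneg e
  obtain ⟨k, hk⟩ : ∃ k : ℝ, k = c1 + e + 1 := ⟨_, rfl⟩
  have hk2 : (1 : ℝ) ≤ k := by rw [hk]; linarith
  obtain ⟨δ1, hδ1'⟩ : ∃ δ1 : ℝ, δ1 = δ / 8 := ⟨_, rfl⟩
  have hδ10 : 0 < δ1 := by rw [hδ1']; positivity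
  obtain ⟨δ2, hδ2⟩ : ∃ δ2 : ℝ, δ2 = δ / (16 * k) := ⟨_, rfl⟩
  have hδ20 : 0 < δ2 := by rw [hδ2]; positivity
  have hδ2k : δ2 * k = δ / 16 := by
    rw [hδ2]
    field_simp
  have hδ2δ : δ2 ≤ δ / 16 := by
    rw [← hδ2k]
    exact le_mul_of_one_le_right hδ20.le hk2
  obtain ⟨C1, hC1, h1⟩ := h1 e he1 δ2 hδ20
  obtain ⟨C2, hC2, h2⟩ := sum_height K hδ10
  obtain ⟨C3, hC3, h3⟩ := sum_nrm K hδ10
  obtain ⟨C4, hC4, h4⟩ := sum_sets K hδ10
  obtain ⟨C5, hC5, h5⟩ := card_primes K hδ20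
  obtain ⟨C6, hC6, h6⟩ := count_all K hδ
  obtain ⟨C7, hC7, h7⟩ := card_primesq K q (δ := δ / 32) (by positivity)
  obtain ⟨ℓ, hℓ⟩ : ∃ ℓ : ℝ, ℓ = lossK K := ⟨_, rfl⟩
  have hℓ0 : 0 ≤ ℓ := by rw [hℓ]; exact lossK_nonneg K
  obtain ⟨c, hc⟩ : ∃ c : ℝ, c = c1 + e * C0 / 2 + (e + 1) * ℓ := ⟨_, rfl⟩
  obtain ⟨MB, hMB⟩ : ∃ MB : ℝ, MB = C5 * Real.exp (δ2 * c) := ⟨_, rfl⟩
  have hMB0 : 0 < MB := by rw [hMB]; positivity
  obtain ⟨MC, hMC⟩ : ∃ MC : ℝ, MC = Real.exp (δ2 * c) := ⟨_, rfl⟩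
  have hMC0 : 0 < MC := by rw [hMC]; positivity
  obtain ⟨CX, hCX⟩ : ∃ CX : ℝ, CX = 2 * Real.exp (4 * (ℓ + C0)) := ⟨_, rfl⟩
  have hCX0 : 0 < CX := by rw [hCX]; positivity
  refine ⟨MB * MC * (C7 * C1 * CX) * (C2 * (C4 * C3)) + C6 * Real.exp (3 * (C0 + 1)),
    by positivity, ?_⟩
  intro f hfe Bad hBad H hH hht τ hτ0 hτ z S hS
  have hlog : ∀ v : Pr K, 0 ≤ Real.log (Nv v) := fun v => (log_Nv_pos v).le
  obtain ⟨β0, hβ0'⟩ : ∃ β0 : ℝ, β0 = ∑ v ∈ Bad, Real.log (Nv v) := ⟨_, rfl⟩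
  have hβ00 : 0 ≤ β0 := by rw [hβ0']; exact Finset.sum_nonneg fun v _ => hlog v
  obtain ⟨Bf, hBf⟩ : ∃ Bf : ℝ, Bf = Real.exp (δ * β0) := ⟨_, rfl⟩
  have hBf1 : 1 ≤ Bf := by rw [hBf]; exact Real.one_le_exp (by positivity)
  have hBf0 : 0 < Bf := by linarith
  have hSne : ∀ x ∈ S, aeval x f ≠ 0 := fun x hx => (hS x hx).2.1
  obtain ⟨E, hE⟩ : ∃ E : ℝ, E = Real.exp ((1 + la) * H + τ / 2 * (1 - la) + δ * H) := ⟨_, rfl⟩
  have hE0 : 0 < E := by rw [hE]; positivity
  rw [← hE, ← hβ0', ← hBf]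
  -- the points of small height
  let Y : K → Finset (Pr K) := fun x => YY q f Bad x
  have hYx : ∀ x ∈ S, ∀ v, v ∈ Y x → v ∉ Bad ∧ fv v x ≤ 1 ∧ fv v (aeval x f) < 1 ∧ ¬ q ∣ nu f v x := by
    intro x hx v hv
    have hv0 : v ∈ YY q f Bad x := hv
    obtain ⟨hv4, hv2⟩ := (mem_YY hBad (hSne x hx)).1 hv0
    unfold YY at hv0
    obtain ⟨hv1, -⟩ := Finset.mem_filter.1 hv0
    obtain ⟨hv3, -⟩ := Finset.mem_sdiff.1 hv1
    obtain ⟨hv5, hv6⟩ := (mem_dv (hSne x hx)).1 hv3
    exact ⟨hv4, hv5, hv6, hv2⟩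
  have hYiff : ∀ x ∈ S, ∀ v, v ∉ Bad → (v ∈ Y x ↔ ¬ q ∣ nu f v x) := by
    intro x hx v hv
    have h1 := mem_YY (q := q) hBad (hSne x hx) (v := v)
    constructor
    · intro h
      exact (h1.1 h).2
    · intro h
      exact h1.2 ⟨hv, h⟩
  have hz : ∀ x, x ∈ S →
      2 * hr (aff (z x)) + ∑ v ∈ (Y x).filter (fun v => ¬ cls v x = cls v (z x)),
      Real.log (Nv v) ≤ ∑ v ∈ (Y x).filter (fun v => cls v x = cls v (z x)),
        Real.log (Nv v) + C0 := fun x hx => (hS x hx).2.2.2.1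
  obtain ⟨Sa, hSa⟩ : ∃ Sa : Finset K, Sa = S.filter fun x => x = z x := ⟨_, rfl⟩
  obtain ⟨Sb, hSb⟩ : ∃ Sb : Finset K, Sb = S.filter fun x => ¬ x = z x := ⟨_, rfl⟩
  have hsplit : (S.card : ℝ) = Sa.card + Sb.card := by
    rw [hSa, hSb]
    exact_mod_cast (Finset.card_filter_add_card_filter_not (s := S) (fun x => x = z x)).symm
  have hzH : ∀ x ∈ S, 2 * hr (aff (z x)) ≤ τ + C0 := by
    intro x hx
    have e1 := hz x hx
    have e2 : ∑ v ∈ Y x, Real.log (Nv v) ≤ τ := (hS x hx).2.2.2.2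
    have e3 : ∑ v ∈ (Y x).filter (fun v => cls v x = cls v (z x)), Real.log (Nv v) ≤
        ∑ v ∈ Y x, Real.log (Nv v) :=
      Finset.sum_le_sum_of_subset_of_nonneg (Finset.filter_subset _ _) fun v _ _ => hlog v
    have e4 : 0 ≤ ∑ v ∈ (Y x).filter (fun v => ¬ cls v x = cls v (z x)), Real.log (Nv v) :=
      Finset.sum_nonneg fun v _ => hlog v
    linarith
  have hzne : ∀ x ∈ S, aeval (z x) f ≠ 0 := fun x hx => (hS x hx).2.2.1
  have hSac : (Sa.card : ℝ) ≤ C6 * Real.exp (3 * (C0 + 1)) * E := by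
    have e1 := h6 (τ / 2 + C0) (by positivity) Sa (by
      intro x hx
      rw [hSa] at hx
      obtain ⟨hxS, hxz⟩ := Finset.mem_filter.1 hx
      have e2 := hzH x hxS
      rw [← hxz] at e2
      linarith)
    refine e1.trans ?_
    rw [mul_assoc]
    refine mul_le_mul_of_nonneg_left ?_ hC6.le
    rw [hE, ← Real.exp_add]
    refine Real.exp_le_exp.2 ?_
    have e5 : δ * τ ≤ δ * (2 * H) := mul_le_mul_of_nonneg_left hτ hδ.le
    have e6 : δ * C0 ≤ 1 * C0 := mul_le_mul_of_nonneg_right hδ1 hC0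
    have e7 : (1 + la) * τ ≤ (1 + la) * (2 * H) := mul_le_mul_of_nonneg_left hτ (by linarith)
    nlinarith
  -- the other points
  have hn : ∀ x, ∃ n : Pr K →₀ ℕ, x ≠ z x → ∀ v, n v = if v ∈ Bad then 0 else ml v x (z x) := by
    intro x
    by_cases hx : x = z x
    · exact ⟨0, fun h => absurd hx h⟩
    · have hfin : {v : Pr K | ml v x (z x) ≠ 0}.Finite := by
        refine (lamF_support_finite (aff_ne_zero x) (aff_ne_zero (z x)) (aff_wedge hx)).subset ?_
        intro v hv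
        have hv' : ml v x (z x) ≠ 0 := hv
        intro h0
        have e1 := lam_eq_ml v hx
        have e2 : lam (Sum.inr v) (aff x) (aff (z x)) = 0 := h0
        rw [e2] at e1
        rcases mul_eq_zero.1 e1.symm with h | h
        · exact hv' (by exact_mod_cast h)
        · exact (log_Nv_pos v).ne' h
      refine ⟨Finsupp.onFinset hfin.toFinset (fun v => if v ∈ Bad then 0 else ml v x (z x)) ?_,
        fun _ v => rfl⟩
      intro v hv
      rw [Set.Finite.mem_toFinset]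
      intro h0
      apply hv
      rw [h0]
      split_ifs <;> rfl
  choose n hn using hn
  let A : K → Finset (Pr K) := fun x => (Y x).filter fun v => ¬ cls v x = cls v (z x)
  let B : K → Finset (Pr K) := fun x => (Y x).filter fun v => cls v x = cls v (z x)
  let p : K → K × (Finset (Pr K) × (Pr K →₀ ℕ)) := fun x => (z x, (A x, n x - ind (B x)))
  have hSbm : ∀ x ∈ Sb, x ∈ S ∧ x ≠ z x := by
    intro x hx
    rw [hSb] at hx
    exact Finset.mem_filter.1 hx
  have hBn : ∀ x ∈ S, x ≠ z x → (n x - ind (B x)) + ind (B x) = n x := by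
    intro x hxS hx
    refine tsub_add_cancel_of_le ?_
    intro v
    rw [ind_apply]
    split_ifs with hv
    · obtain ⟨hv1, hv2⟩ := Finset.mem_filter.1 hv
      rw [hn x hx v, if_neg (hYx x hxS v hv1).1]
      have e1 := lam_ge_of_cls v hx hv2
      rw [lam_eq_ml v hx] at e1
      have e2 := log_Nv_pos v
      by_contra hcon
      have : ml v x (z x) = 0 := by omega
      rw [this, Nat.cast_zero, zero_mul] at e1
      linarith
    · exact Nat.zero_le _
  have hAB : ∀ x, ∑ v ∈ A x, Real.log (Nv v) + ∑ v ∈ B x, Real.log (Nv v) =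
      ∑ v ∈ Y x, Real.log (Nv v) := by
    intro x
    rw [add_comm]
    exact Finset.sum_filter_add_sum_filter_not _ _ _
  have hnH : ∀ x ∈ Sb, nrm (n x) ≤ H + hr (aff (z x)) + ℓ := by
    intro x hx
    obtain ⟨hxS, hxz⟩ := hSbm x hx
    have e1 := sum_lam_le (aff_ne_zero x) (aff_ne_zero (z x)) (aff_wedge hxz)
      ((n x).support.map ⟨Sum.inr, Sum.inr_injective⟩ : Finset (Pl K))
    rw [Finset.sum_map] at e1
    have e2 : nrm (n x) ≤ ∑ v ∈ (n x).support, lam (Sum.inr v) (aff x) (aff (z x)) := by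
      rw [nrm_eq]
      refine Finset.sum_le_sum fun v _ => ?_
      rw [hn x hxz v, lam_eq_ml v hxz]
      split_ifs
      · rw [Nat.cast_zero, zero_mul]
        exact mul_nonneg (Nat.cast_nonneg _) (hlog v)
      · exact le_rfl
    have e3 := (hS x hxS).1
    have e4 : ∑ v ∈ (n x).support, lam (Sum.inr v) (aff x) (aff (z x)) ≤
      hr (aff x) + hr (aff (z x)) + lossK K := e1
    rw [hℓ]
    linarith
  obtain ⟨E1, hE1⟩ : ∃ E1 : ℝ, E1 = Real.exp ((1 + la) * H + τ / 2 * (1 - la) + δ / 2 * H) :=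
    ⟨_, rfl⟩
  have hE10 : 0 < E1 := by rw [hE1]; positivity
  have hE1E : Real.exp (3 * (δ / 16 * H)) * E1 ≤ E := by
    rw [hE1, hE, ← Real.exp_add]
    have hδH : 0 ≤ δ * H := by positivity
    refine Real.exp_le_exp.2 ?_
    linarith
  let G : K × (Finset (Pr K) × (Pr K →₀ ℕ)) → ℝ := fun q =>
    Real.exp (-((2 + δ1) * hr (aff q.1))) *
      (Real.exp (-((1 + δ1) * ∑ v ∈ q.2.1, Real.log (Nv v))) * Real.exp (-((1 + δ1) * nrm q.2.2)))
  have hG0 : ∀ q, 0 < G q := fun q => by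
    show 0 < Real.exp _ * (Real.exp _ * Real.exp _)
    positivity
  obtain ⟨P, hP⟩ : ∃ P, P = Sb.image p := ⟨_, rfl⟩
  have hDs : ∀ x ∈ S, ∑ v ∈ dv f (z x) \ Bad, Real.log (Nv v) ≤ k * H + c := by
    intro x hx
    have e0 := sum_nu_ht f Bad (fun v hv => (hBad v hv).2.2) (hzne x hx)
    rw [hfe] at e0
    have e1 : ∑ v ∈ dv f (z x) \ Bad, Real.log (Nv v) ≤
        ∑ v ∈ dv f (z x) \ Bad, (nu f v (z x) : ℝ) * Real.log (Nv v) := by
      refine Finset.sum_le_sum fun v hv => ?_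
      obtain ⟨hva, hvb⟩ := Finset.mem_sdiff.1 hv
      have h12 : (1 : ℝ) ≤ nu f v (z x) := by
        exact_mod_cast (mem_dv_iff (hzne x hx) (hBad v hvb).2.2).1 hva
      have := log_Nv_pos v
      nlinarith
    have e2 := hzH x hx
    have e3 : (e : ℝ) * hr (aff (z x)) ≤ e * (H + C0 / 2) :=
      mul_le_mul_of_nonneg_left (by linarith) he0
    rw [hk, hc, hℓ]
    linarith
  have hfib : ∀ k ∈ P, ((Sb.filter fun x => p x = k).card : ℝ) ≤
      MB * MC * (C7 * C1 * CX) * E * G k * Bf := by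
    intro k hk'
    rw [hP] at hk'
    obtain ⟨x0, hx0, rfl⟩ := Finset.mem_image.1 hk'
    obtain ⟨hx0S, hx0z⟩ := hSbm x0 hx0
    obtain ⟨D, hD⟩ : ∃ D : Finset (Pr K), D = dv f (z x0) \ Bad := ⟨_, rfl⟩
    obtain ⟨R, hR⟩ : ∃ R : Finset K, R = Sb.filter fun x => p x = p x0 := ⟨_, rfl⟩
    rw [← hR]
    have hRm : ∀ x ∈ R, x ∈ Sb ∧ z x = z x0 ∧ A x = A x0 ∧
        n x - ind (B x) = n x0 - ind (B x0) := by
      intro x hx
      rw [hR] at hx
      obtain ⟨hx1, hx2⟩ := Finset.mem_filter.1 hx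
      have hx3 : (z x, (A x, n x - ind (B x))) = (z x0, (A x0, n x0 - ind (B x0))) := hx2
      rw [Prod.mk.injEq, Prod.mk.injEq] at hx3
      exact ⟨hx1, hx3.1, hx3.2.1, hx3.2.2⟩
    have hmaps : ∀ x ∈ R, B x ∈ D.powerset := by
      intro x hx
      obtain ⟨hx1, hx2, -, -⟩ := hRm x hx
      rw [Finset.mem_powerset]
      intro v hv
      obtain ⟨hv1, hv2⟩ := Finset.mem_filter.1 hv
      obtain ⟨hv3, hv4, hv5, -⟩ := hYx x (hSbm x hx1).1 v hv1
      rw [hD, Finset.mem_sdiff]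
      refine ⟨?_, hv3⟩
      rw [mem_dv (hzne x0 hx0S), ← hx2]
      have hxv := (fv_le_one v x).1 hv4
      have hzv : v.valuation K (z x) ≤ 1 := by
        by_contra hcon
        rw [cls_of_le v hxv, cls_of_not v hcon] at hv2
        exact absurd hv2 (by simp)
      refine ⟨(fv_le_one v _).2 hzv, ?_⟩
      rw [cls_of_le v hxv, cls_of_le v hzv, Option.some_inj] at hv2
      rw [fv_lt_one, ← rd_eq_zero_iff v (rd_eval v hzv f).1, (rd_eval v hzv f).2, ← hv2,
        ← (rd_eval v hxv f).2, rd_eq_zero_iff v (rd_eval v hxv f).1, ← fv_lt_one]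
      exact hv5
    have hsum : (R.card : ℝ) = ∑ b ∈ D.powerset, ((R.filter fun x => B x = b).card : ℝ) := by
      have := Finset.card_eq_sum_card_fiberwise hmaps
      exact_mod_cast this
    have hcell : ∀ b ∈ D.powerset, ((R.filter fun x => B x = b).card : ℝ) ≤
        (C7 * Real.exp (δ / 16 * H)) *
          (C1 * (MC * Real.exp (δ / 16 * H) * Bf) * (CX * E1 * G (p x0))) := by
      intro b _
      rcases (R.filter fun x => B x = b).eq_empty_or_nonempty with he | ⟨x1, hx1⟩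
      · rw [he, Finset.card_empty, Nat.cast_zero]
        have := hG0 (p x0)
        positivity
      obtain ⟨hx1R, hx1b⟩ := Finset.mem_filter.1 hx1
      obtain ⟨hx1S, hx1z, hx1A, hx1n⟩ := hRm x1 hx1R
      obtain ⟨hx1S', hx1z'⟩ := hSbm x1 hx1S
      obtain ⟨T, hT⟩ : ∃ T : Finset K, T = R.filter fun x => B x = b := ⟨_, rfl⟩
      rw [← hT]
      have hYT : ∀ x ∈ T, Y x = Y x1 := by
        intro x hx
        rw [hT] at hx
        obtain ⟨hxR, hxb⟩ := Finset.mem_filter.1 hx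
        obtain ⟨hxS, hxz, hxA, hxn⟩ := hRm x hxR
        have e1 : ∀ t, A t ∪ B t = Y t := by
          intro t
          rw [Finset.union_comm]
          exact Finset.filter_union_filter_not_eq _ _
        rw [← e1 x, ← e1 x1, hxA, hx1A, hxb, hx1b]
      let key2 : K → ((v : Y x1) → ZMod q) := fun x v => ((nu f v.1 x : ℕ) : ZMod q)
      have hsum3 : (T.card : ℝ) = ∑ r : ((v : Y x1) → ZMod q),
          ((T.filter fun x => key2 x = r).card : ℝ) := by
        have := Finset.card_eq_sum_card_fiberwise (s := T) (t := Finset.univ) (f := key2)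
          (fun x _ => Finset.mem_coe.2 (Finset.mem_univ _))
        exact_mod_cast this
      have hcell2 : ∀ r : ((v : Y x1) → ZMod q), ((T.filter fun x => key2 x = r).card : ℝ) ≤
          C1 * (MC * Real.exp (δ / 16 * H) * Bf) * (CX * E1 * G (p x0)) := by
        intro r
        have g1 := h1 f hfe Bad hBad H hH (z x0) (hzne x0 hx0S) (n x1)
          (T.filter fun x => key2 x = r) (by
          intro x hx
          obtain ⟨hxT, hxr⟩ := Finset.mem_filter.1 hx
          rw [hT] at hxT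
          obtain ⟨hxR, hxb⟩ := Finset.mem_filter.1 hxT
          obtain ⟨hxS, hxz, hxA, hxn⟩ := hRm x hxR
          obtain ⟨hxS', hxz'⟩ := hSbm x hxS
          have hnx : n x = n x1 := by
            rw [← hBn x hxS' hxz', ← hBn x1 hx1S' hx1z', hxn, hx1n, hxb, hx1b]
          refine ⟨(hS x hxS').1, hSne x hxS', ?_, ?_, ?_⟩
          · rw [← hxz]
            exact hxz'
          · intro v hv hvB
            rw [Finsupp.mem_support_iff, hn x1 hx1z' v, if_pos hvB] at hv
            exact hv rfl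
          · intro v hv
            rw [← hnx, hn x hxz' v, if_neg hv, hxz]) (by
          intro x hx y hy v hv
          obtain ⟨hxT, hxr⟩ := Finset.mem_filter.1 hx
          obtain ⟨hyT, hyr⟩ := Finset.mem_filter.1 hy
          have hxS' : x ∈ S := by
            rw [hT] at hxT
            exact (hSbm x (hRm x (Finset.mem_filter.1 hxT).1).1).1
          have hyS' : y ∈ S := by
            rw [hT] at hyT
            exact (hSbm y (hRm y (Finset.mem_filter.1 hyT).1).1).1
          by_cases hvY : v ∈ Y x1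
          · have e1 : ((nu f v x : ℕ) : ZMod q) = ((nu f v y : ℕ) : ZMod q) :=
              congrFun (hxr.trans hyr.symm) ⟨v, hvY⟩
            have e2 : (((nu f v y : ℕ) : ℤ) : ZMod q) = (((nu f v x : ℕ) : ℤ) : ZMod q) := by
              push_cast
              exact e1.symm
            exact (ZMod.intCast_eq_intCast_iff_dvd_sub _ _ _).1 e2
          · have e1 : q ∣ nu f v x := by
              by_contra hcon
              apply hvY
              rw [← hYT x hxT]
              exact (hYiff x hxS' v hv).2 hcon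
            have e2 : q ∣ nu f v y := by
              by_contra hcon
              apply hvY
              rw [← hYT y hyT]
              exact (hYiff y hyS' v hv).2 hcon
            exact dvd_sub (by exact_mod_cast e1) (by exact_mod_cast e2))
        refine g1.trans ?_
        refine mul_le_mul (mul_le_mul_of_nonneg_left ?_ hC1.le) ?_ (by positivity) (by positivity)
        · have e1 : ∑ v ∈ Bad ∪ dv f (z x0), Real.log (Nv v) ≤ β0 + (k * H + c) := by
            have e2 : Bad ∪ dv f (z x0) = Bad ∪ (dv f (z x0) \ Bad) := by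
              rw [Finset.union_sdiff_self_eq_union]
            rw [e2, Finset.sum_union Finset.disjoint_sdiff, ← hβ0']
            linarith [hDs x0 hx0S]
          rw [hMC, hBf, ← Real.exp_add, ← Real.exp_add]
          refine Real.exp_le_exp.2 ?_
          have e2 := mul_le_mul_of_nonneg_left e1 hδ20.le
          have e3 : δ2 * (β0 + (k * H + c)) = δ2 * β0 + δ / 16 * H + δ2 * c := by
            rw [← hδ2k]
            ring
          have e4 : δ2 * β0 ≤ δ * β0 := mul_le_mul_of_nonneg_right (by linarith) hβ00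
          linarith
        obtain ⟨s, hs⟩ : ∃ s : ℝ, s = hr (aff (z x0)) := ⟨_, rfl⟩
        obtain ⟨a, ha⟩ : ∃ a : ℝ, a = ∑ v ∈ A x0, Real.log (Nv v) := ⟨_, rfl⟩
        obtain ⟨β, hβ⟩ : ∃ β : ℝ, β = ∑ v ∈ B x1, Real.log (Nv v) := ⟨_, rfl⟩
        obtain ⟨ν, hν⟩ : ∃ ν : ℝ, ν = nrm (n x0 - ind (B x0)) := ⟨_, rfl⟩
        have q1 : 2 * s + a ≤ β + C0 := by
          have := hz x1 hx1S'
          rw [hx1z] at this
          have e1 : ∑ v ∈ (Y x1).filter (fun v => ¬ cls v x1 = cls v (z x0)),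
              Real.log (Nv v) = a := by
            rw [ha, ← hx1A, ← hx1z]
          have e2 : ∑ v ∈ (Y x1).filter (fun v => cls v x1 = cls v (z x0)),
              Real.log (Nv v) = β := by
            rw [hβ, ← hx1z]
          rw [e1, e2] at this
          rw [hs]
          exact this
        have q2 : nrm (n x1) = ν + β := by
          rw [← hBn x1 hx1S' hx1z', nrm_add, hx1n, nrm_ind, hν, hβ]
        have q3 : ν + β ≤ H + s + ℓ := by
          rw [← q2, hs, ← hx1z]
          exact hnH x1 hx1S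
        have q5 : 2 * s ≤ τ + C0 := by
          rw [hs]
          exact hzH x0 hx0S
        have hs0 : 0 ≤ s := by rw [hs]; exact hr_aff_nonneg _
        have ha0 : 0 ≤ a := by rw [ha]; exact Finset.sum_nonneg fun v _ => hlog v
        have hβ0 : 0 ≤ β := by rw [hβ]; exact Finset.sum_nonneg fun v _ => hlog v
        have hν0 : 0 ≤ ν := by rw [hν]; exact nrm_nonneg _
        have hGp : G (p x0) = Real.exp (-((2 + δ1) * s) +
            (-((1 + δ1) * a) + -((1 + δ1) * ν))) := by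
          rw [Real.exp_add, Real.exp_add, hs, ha, hν]
        obtain ⟨W, hW⟩ : ∃ W : ℝ, W = -((2 + δ1) * s) + (-((1 + δ1) * a) + -((1 + δ1) * ν)) :=
          ⟨_, rfl⟩
        have e9 : CX * E1 * Real.exp W =
            Real.exp (4 * (ℓ + C0) + ((1 + la) * H + τ / 2 * (1 - la) + δ / 2 * H) + W) +
            Real.exp (4 * (ℓ + C0) + ((1 + la) * H + τ / 2 * (1 - la) + δ / 2 * H) + W) := by
          rw [hCX, hE1, Real.exp_add (4 * (ℓ + C0) + ((1 + la) * H + τ / 2 * (1 - la) +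
            δ / 2 * H)) W, Real.exp_add (4 * (ℓ + C0))]
          ring
        have hκla : ∀ t : ℝ, t / κq = t * la := fun t => by rw [hla]; ring
        rw [q2, hGp, ← hW, e9, hW, hκla]
        -- the exponents
        have r0 : 2 * s + a + ν ≤ H + s + ℓ + C0 := by linarith
        have r1 : δ1 * (s + a + ν) ≤ δ1 * (2 * H + (2 * C0 + ℓ)) :=
          mul_le_mul_of_nonneg_left (by linarith) hδ10.le
        have r2 : δ1 * (2 * C0 + ℓ) ≤ 1 * (2 * C0 + ℓ) :=
          mul_le_mul_of_nonneg_right (by rw [hδ1']; linarith) (by linarith)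
        have r3 : δ1 * (2 * H) = δ / 4 * H := by rw [hδ1']; ring
        have r4 : 0 ≤ la * (H - τ / 2) := mul_nonneg hla0.le (by linarith)
        have r5 : δ2 * H ≤ δ / 16 * H := mul_le_mul_of_nonneg_right hδ2δ hH
        have r6 : (ν + β) * (1 - la) ≤ (H + τ / 2 + (C0 / 2 + ℓ)) * (1 - la) :=
          mul_le_mul_of_nonneg_right (by linarith) (by linarith)
        have r7 : (C0 / 2 + ℓ) * (1 - la) ≤ (C0 / 2 + ℓ) * 1 :=
          mul_le_mul_of_nonneg_left (by linarith) (by linarith)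
        have r8 : 0 ≤ δ * H := by positivity
        refine add_le_add (Real.one_le_exp ?_) (Real.exp_le_exp.2 ?_)
        · nlinarith
        · nlinarith
      have hY2 : (q : ℝ) ^ (Y x1).card ≤ C7 * Real.exp (δ / 16 * H) := by
        refine (h7 (Y x1)).trans (mul_le_mul_of_nonneg_left (Real.exp_le_exp.2 ?_) hC7.le)
        have e1 : ∑ v ∈ Y x1, Real.log (Nv v) ≤ τ := (hS x1 hx1S').2.2.2.2
        have e2 : δ / 32 * ∑ v ∈ Y x1, Real.log (Nv v) ≤ δ / 32 * (2 * H) :=
          mul_le_mul_of_nonneg_left (e1.trans hτ) (by positivity)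
        linarith
      rw [hsum3]
      calc ∑ r : ((v : Y x1) → ZMod q), ((T.filter fun x => key2 x = r).card : ℝ) ≤
          ∑ _r : ((v : Y x1) → ZMod q),
            C1 * (MC * Real.exp (δ / 16 * H) * Bf) * (CX * E1 * G (p x0)) :=
            Finset.sum_le_sum fun r _ => hcell2 r
        _ = (q : ℝ) ^ (Y x1).card *
            (C1 * (MC * Real.exp (δ / 16 * H) * Bf) * (CX * E1 * G (p x0))) := by
            rw [Finset.sum_const, Finset.card_univ, Fintype.card_fun, ZMod.card,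
              Fintype.card_coe, nsmul_eq_mul]
            push_cast
            ring
        _ ≤ _ := mul_le_mul_of_nonneg_right hY2 (by
            have := hG0 (p x0)
            positivity)
    have hDc : (2 : ℝ) ^ D.card ≤ MB * Real.exp (δ / 16 * H) := by
      refine (h5 D).trans ?_
      rw [hMB, mul_assoc, ← Real.exp_add]
      refine mul_le_mul_of_nonneg_left (Real.exp_le_exp.2 ?_) hC5.le
      have e1 : ∑ v ∈ D, Real.log (Nv v) ≤ k * H + c := by
        rw [hD]
        exact hDs x0 hx0S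
      have e4 := mul_le_mul_of_nonneg_left e1 hδ20.le
      have e5 : δ2 * (k * H + c) = δ2 * c + δ / 16 * H := by
        rw [← hδ2k]
        ring
      linarith
    have hGp := hG0 (p x0)
    rw [hsum]
    have hex : Real.exp (3 * (δ / 16 * H)) = Real.exp (δ / 16 * H) * Real.exp (δ / 16 * H) *
        Real.exp (δ / 16 * H) := by
      rw [← Real.exp_add, ← Real.exp_add]
      congr 1
      ring
    calc ∑ b ∈ D.powerset, ((R.filter fun x => B x = b).card : ℝ) ≤
        ∑ _b ∈ D.powerset, (C7 * Real.exp (δ / 16 * H)) *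
          (C1 * (MC * Real.exp (δ / 16 * H) * Bf) * (CX * E1 * G (p x0))) :=
          Finset.sum_le_sum hcell
      _ = 2 ^ D.card * ((C7 * Real.exp (δ / 16 * H)) *
          (C1 * (MC * Real.exp (δ / 16 * H) * Bf) * (CX * E1 * G (p x0)))) := by
          rw [Finset.sum_const, Finset.card_powerset, nsmul_eq_mul]
          push_cast
          rfl
      _ ≤ (MB * Real.exp (δ / 16 * H)) * ((C7 * Real.exp (δ / 16 * H)) *
          (C1 * (MC * Real.exp (δ / 16 * H) * Bf) * (CX * E1 * G (p x0)))) :=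
          mul_le_mul_of_nonneg_right hDc (by positivity)
      _ = MB * MC * (C7 * C1 * CX) * (Real.exp (3 * (δ / 16 * H)) * E1) * G (p x0) * Bf := by
          rw [hex]
          ring
      _ ≤ MB * MC * (C7 * C1 * CX) * E * G (p x0) * Bf := by
          refine mul_le_mul_of_nonneg_right ?_ hBf0.le
          refine mul_le_mul_of_nonneg_right ?_ hGp.le
          exact mul_le_mul_of_nonneg_left hE1E (by positivity)
  have hPG : ∑ k ∈ P, G k ≤ C2 * (C4 * C3) := by
    have hsub : P ⊆ (P.image fun k => k.1) ×ˢ ((P.image fun k => k.2.1) ×ˢ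
        (P.image fun k => k.2.2)) := by
      intro k hk'
      rw [Finset.mem_product, Finset.mem_product]
      exact ⟨Finset.mem_image_of_mem _ hk', Finset.mem_image_of_mem _ hk',
        Finset.mem_image_of_mem _ hk'⟩
    refine (Finset.sum_le_sum_of_subset_of_nonneg hsub fun k _ _ => (hG0 k).le).trans ?_
    have e1 : ∑ k ∈ (P.image fun k => k.1) ×ˢ ((P.image fun k => k.2.1) ×ˢ
        (P.image fun k => k.2.2)), G k =
        (∑ z ∈ P.image fun k => k.1, Real.exp (-((2 + δ1) * hr (aff z)))) *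
          ((∑ A ∈ P.image fun k => k.2.1, Real.exp (-((1 + δ1) * ∑ v ∈ A, Real.log (Nv v)))) *
            ∑ m ∈ P.image fun k => k.2.2, Real.exp (-((1 + δ1) * nrm m))) := by
      rw [Finset.sum_mul_sum, Finset.sum_mul_sum, Finset.sum_product]
      refine Finset.sum_congr rfl fun z _ => ?_
      rw [Finset.sum_product]
      refine Finset.sum_congr rfl fun A _ => ?_
      rw [Finset.mul_sum]
    rw [e1]
    refine mul_le_mul (h2 _) (mul_le_mul (h4 _) (h3 _) ?_ hC4.le) ?_ hC2.le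
    · exact Finset.sum_nonneg fun _ _ => (Real.exp_pos _).le
    · exact mul_nonneg (Finset.sum_nonneg fun _ _ => (Real.exp_pos _).le)
        (Finset.sum_nonneg fun _ _ => (Real.exp_pos _).le)
  have hSbc : (Sb.card : ℝ) ≤ MB * MC * (C7 * C1 * CX) * (C2 * (C4 * C3)) * E * Bf := by
    have e1 : (Sb.card : ℝ) = ∑ k ∈ P, ((Sb.filter fun x => p x = k).card : ℝ) := by
      have := Finset.card_eq_sum_card_fiberwise (s := Sb) (t := P) (f := p) (by
        intro x hx
        rw [hP]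
        exact Finset.mem_coe.2 (Finset.mem_image_of_mem _ (Finset.mem_coe.1 hx)))
      exact_mod_cast this
    rw [e1]
    calc ∑ k ∈ P, ((Sb.filter fun x => p x = k).card : ℝ) ≤
        ∑ k ∈ P, MB * MC * (C7 * C1 * CX) * E * G k * Bf := Finset.sum_le_sum hfib
      _ = MB * MC * (C7 * C1 * CX) * E * (∑ k ∈ P, G k) * Bf := by
          rw [Finset.mul_sum, Finset.sum_mul]
      _ ≤ MB * MC * (C7 * C1 * CX) * E * (C2 * (C4 * C3)) * Bf :=
          mul_le_mul_of_nonneg_right (mul_le_mul_of_nonneg_left hPG (by positivity)) hBf0.le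
      _ = _ := by ring
  have hSac2 : (Sa.card : ℝ) ≤ C6 * Real.exp (3 * (C0 + 1)) * E * Bf :=
    hSac.trans (le_mul_of_one_le_right (by positivity) hBf1)
  rw [hsplit]
  have hfin : (MB * MC * (C7 * C1 * CX) * (C2 * (C4 * C3)) + C6 * Real.exp (3 * (C0 + 1))) * E * Bf =
      MB * MC * (C7 * C1 * CX) * (C2 * (C4 * C3)) * E * Bf + C6 * Real.exp (3 * (C0 + 1)) * E * Bf := by
    ring
  rw [hfin]
  linarith

end Pool.Agent.K9h89.AW
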