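import Mathlib
import Pool.Agent.K9h89.AW.V4
import Pool.Agent.N753.SU.NL3

/-!
# The points divisible by a power of a large prime, the rest having a small radical: arbitrary
polynomials
-/

set_option autoImplicit false
set_option linter.unusedSectionVars false

namespace Pool.Agent.K9h89.AW

open NumberField IsDedekindDomain Finset Pool.Agent.H691R3
open Pool.Agent.TH876.Loc hiding mx
open Pool.Agent.N753.LS Pool.Agent.N753.SF Pool.Agent.N753.SU Polynomial

variable {K : Type} [Field K] [NumberField K]

theorem cls_of_ml {v : Pr K} {x z : K} (hxz : x ≠ z) (hx1 : fv v x ≤ 1) (hml : ml v x z ≠ 0) :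
    cls v x = cls v z := by
  have hN := log_Nv_pos v
  have hlam := lam_fv v hxz
  rw [lam_eq_ml v hxz] at hlam
  have hmx : mx (Sum.inr v) x = 0 := by
    show Real.log (max (fv v x) 1) = 0
    rw [max_eq_right hx1, Real.log_one]
  rw [hmx, zero_add] at hlam
  have hml' : (1 : ℝ) ≤ ml v x z := by
    exact_mod_cast Nat.one_le_iff_ne_zero.2 hml
  have hpos : 0 < mx (Sum.inr v) z - Real.log (fv v (x - z)) := by
    rw [← hlam]
    positivity
  rcases le_or_gt (fv v z) 1 with hz1 | hz1
  · have hmz : mx (Sum.inr v) z = 0 := by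
      show Real.log (max (fv v z) 1) = 0
      rw [max_eq_right hz1, Real.log_one]
    rw [hmz, zero_sub, neg_pos] at hpos
    have hlt : fv v (x - z) < 1 := by
      by_contra hcon
      rw [not_lt] at hcon
      have := Real.log_nonneg hcon
      linarith
    have hxv := (fv_le_one v x).1 hx1
    have hzv := (fv_le_one v z).1 hz1
    rw [cls_of_le v hxv, cls_of_le v hzv]
    have hsub : v.valuation K (x - z) ≤ 1 :=
      (Valuation.map_sub _ _ _).trans (max_le hxv hzv)
    have h5 : rd v (x - z) = 0 := by
      rw [rd_eq_zero_iff v hsub, ← fv_lt_one]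
      exact hlt
    rw [rd_sub v hxv hzv, sub_eq_zero] at h5
    rw [h5]
  · have hmz : mx (Sum.inr v) z = Real.log (fv v z) := by
      show Real.log (max (fv v z) 1) = _
      rw [max_eq_left hz1.le]
    have h5 : fv v z ≤ fv v (x - z) := by
      have h6 : z = -(x - z) + x := by ring
      have h7 := fv_na v (-(x - z)) x
      rw [← h6, (fv v).map_neg] at h7
      rcases le_max_iff.1 h7 with h8 | h8
      · exact h8
      · linarith
    have h6 := Real.log_le_log (by linarith) h5
    rw [hmz] at hpos
    linarith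

variable (K) in
open Classical in
/-- **the points near to a root** -/
theorem count_near (e : ℕ) (he : 1 ≤ e) {κ : ℝ} (hκ0 : 0 < κ) (hκ1 : κ ≤ 1) :
    ∃ C : ℝ, 0 < C ∧ ∀ f : (𝓞 K)[X], f.natDegree = e → ∀ Bad : Finset (Pr K),
      (∀ v ∉ Bad, Good f v ∧ GoodS f v) → ∀ H : ℝ, 0 < H → ∀ S : Finset K,
      (∀ x ∈ S, hr (aff x) ≤ H ∧ aeval x f ≠ 0 ∧ ∃ (z : K) (q : ℕ), 2 ≤ q ∧ aeval z f = 0 ∧
        H + hr (aff z) + lossK K ≤ (2 - κ) * H ∧
        κ * H + ∑ v ∈ (YY q f Bad x).filter (fun v => cls v x = cls v z), Real.log (Nv v) ≤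
          nrm (nn Bad x z)) →
      (S.card : ℝ) ≤ C * Real.exp ((2 - κ / 64) * H) := by
  obtain ⟨a0, ha0⟩ : ∃ a0 : ℝ, a0 = κ / 16 := ⟨_, rfl⟩
  have ha00 : 0 < a0 := by rw [ha0]; positivity
  have ha01 : a0 ≤ κ := by rw [ha0]; linarith
  obtain ⟨C2, hC2, h2⟩ := count_powU K e (δ := a0 / 4) (by positivity) (by linarith)
  refine ⟨C2 * 2, by positivity, ?_⟩
  intro f hfe Bad hBad H hH S hS
  have hdeg : 1 ≤ f.natDegree := by omega
  obtain ⟨G, hG⟩ : ∃ G : ℝ, G = Real.exp ((2 - κ / 64) * H) := ⟨_, rfl⟩
  rw [← hG]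
  have hexp : ∀ t : ℝ, t ≤ 2 - κ / 64 → Real.exp (t * H) ≤ G := fun t ht => by
    rw [hG]
    exact Real.exp_le_exp.2 (mul_le_mul_of_nonneg_right ht hH.le)
  have h6 := h2 f hdeg (by omega) Bad hBad H hH.le (a0 * H) ((4 - κ) * H) (by positivity) S
    (by
      intro x hx
      obtain ⟨hxH, hx0, z, q, hq, hz0, hzH, hzn⟩ := hS x hx
      refine ⟨hxH, hx0, ?_⟩
      have hxz : x ≠ z := by
        rintro rfl
        exact hx0 hz0
      obtain ⟨n, hn⟩ : ∃ n, n = nn Bad x z := ⟨_, rfl⟩
      rw [← hn] at hzn
      have hnv : ∀ v, v ∉ Bad → n v = ml v x z := by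
        intro v hv
        rw [hn, nn_apply Bad hxz v, if_neg hv]
      have hnB : ∀ v ∈ n.support, v ∉ Bad := by
        intro v hv hvB
        rw [hn, Finsupp.mem_support_iff, nn_apply Bad hxz v, if_pos hvB] at hv
        exact hv rfl
      have hle : ∀ v ∈ n.support, n v ≤ nu f v x := by
        intro v hv
        rw [hnv v (hnB v hv)]
        exact ml_le_nu (hBad v (hnB v hv)).2.2 (by omega) hz0 hx0
      -- the powerful part
      let n' : Pr K →₀ ℕ := Finsupp.onFinset n.support
        (fun v => if v ∈ n.support ∧ 2 ≤ nu f v x then nu f v x else 0) (by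
          intro v hv
          by_contra hcon
          exact hv (if_neg fun h => hcon h.1))
      have hn'v : ∀ v, n' v = if v ∈ n.support ∧ 2 ≤ nu f v x then nu f v x else 0 :=
        fun v => rfl
      have hn's : ∀ v, v ∈ n'.support ↔ v ∈ n.support ∧ 2 ≤ nu f v x := by
        intro v
        rw [Finsupp.mem_support_iff, hn'v]
        constructor
        · intro h
          by_contra hcon
          exact h (if_neg hcon)
        · intro h
          rw [if_pos h]
          omega
      have hn'2 : ∀ v ∈ n'.support, 2 ≤ n' v := by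
        intro v hv
        have h9 := (hn's v).1 hv
        rw [hn'v, if_pos h9]
        exact h9.2
      have hn'n : ∀ v, n' v ≤ nu f v x := by
        intro v
        rw [hn'v]
        split_ifs
        · exact le_rfl
        · exact Nat.zero_le _
      have hnrm : κ * H ≤ nrm n' := by
        have e1 : nrm n = ∑ v ∈ n.support.filter (fun v => 2 ≤ nu f v x),
            (n v : ℝ) * Real.log (Nv v) +
            ∑ v ∈ n.support.filter (fun v => ¬ 2 ≤ nu f v x), (n v : ℝ) * Real.log (Nv v) := by
          rw [nrm_eq]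
          exact (Finset.sum_filter_add_sum_filter_not _ _ _).symm
        have e2 : ∑ v ∈ n.support.filter (fun v => 2 ≤ nu f v x),
            (n v : ℝ) * Real.log (Nv v) ≤ nrm n' := by
          rw [nrm_eq]
          have e3 : n'.support = n.support.filter (fun v => 2 ≤ nu f v x) := by
            ext v
            rw [hn's, Finset.mem_filter]
          rw [e3]
          refine Finset.sum_le_sum fun v hv => ?_
          obtain ⟨hv1, hv2⟩ := Finset.mem_filter.1 hv
          rw [hn'v, if_pos ⟨hv1, hv2⟩]
          exact mul_le_mul_of_nonneg_right (Nat.cast_le.2 (hle v hv1)) (log_Nv_pos v).le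
        have e4 : ∑ v ∈ n.support.filter (fun v => ¬ 2 ≤ nu f v x),
            (n v : ℝ) * Real.log (Nv v) ≤
            ∑ v ∈ (YY q f Bad x).filter (fun v => cls v x = cls v z), Real.log (Nv v) := by
          have e5 : ∑ v ∈ n.support.filter (fun v => ¬ 2 ≤ nu f v x),
              (n v : ℝ) * Real.log (Nv v) ≤
              ∑ v ∈ n.support.filter (fun v => ¬ 2 ≤ nu f v x), Real.log (Nv v) := by
            refine Finset.sum_le_sum fun v hv => ?_
            obtain ⟨hv1, hv2⟩ := Finset.mem_filter.1 hv
            have h7 := hle v hv1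
            have h8 : (n v : ℝ) ≤ 1 := by exact_mod_cast (by omega : n v ≤ 1)
            exact mul_le_of_le_one_left (log_Nv_pos v).le h8
          refine e5.trans (Finset.sum_le_sum_of_subset_of_nonneg ?_ fun v _ _ =>
            (log_Nv_pos v).le)
          intro v hv
          obtain ⟨hv1, hv2⟩ := Finset.mem_filter.1 hv
          have hvB := hnB v hv1
          have h7 := hle v hv1
          have h8 : n v ≠ 0 := Finsupp.mem_support_iff.1 hv1
          have h9 : nu f v x = 1 := by omega
          obtain ⟨hx1, -⟩ := le_nu (hBad v hvB).2.2 hx0 le_rfl h9.ge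
          rw [Finset.mem_filter]
          refine ⟨(mem_YY hBad hx0).2 ⟨hvB, ?_⟩, ?_⟩
          · rw [h9]
            intro h10
            have := Nat.le_of_dvd one_pos h10
            omega
          · refine cls_of_ml hxz hx1 ?_
            rw [← hnv v hvB]
            exact h8
        linarith
      obtain ⟨m, hm1, hm2, hm3, hm4⟩ := exists_sub n' hn'2 (a := a0 * H) (b := (2 - κ) * H)
        (by positivity) (le_trans (mul_le_mul_of_nonneg_right ha01 hH.le) hnrm) (by
        intro v hv
        obtain ⟨hv1, -⟩ := (hn's v).1 hv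
        have hvB := hnB v hv1
        have h7 := nrm_nn_le Bad hxz
        rw [← hn] at h7
        have h8 : Real.log (Nv v) ≤ nrm n := by
          rw [nrm_eq]
          refine le_trans ?_ (Finset.single_le_sum (f := fun v => (n v : ℝ) * Real.log (Nv v))
            (fun v _ => mul_nonneg (Nat.cast_nonneg _) (log_Nv_pos v).le) hv1)
          have h9 : (1 : ℝ) ≤ n v := by
            exact_mod_cast Nat.one_le_iff_ne_zero.2 (Finsupp.mem_support_iff.1 hv1)
          have h10 := log_Nv_pos v
          show Real.log (Nv v) ≤ (n v : ℝ) * Real.log (Nv v)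
          nlinarith
        linarith)
      refine ⟨m, fun v hv => ?_, hm3, ?_⟩
      · have h7 := hm1 v
        have h8 : v ∈ n'.support := by
          rw [Finsupp.mem_support_iff] at hv ⊢
          omega
        exact ⟨hnB v ((hn's v).1 h8).1, hm2 v hv, h7.trans (hn'n v)⟩
      · refine hm4.trans ?_
        have h7 : a0 * H ≤ κ * H := mul_le_mul_of_nonneg_right ha01 hH.le
        linarith)
    (mul_le_mul_of_nonneg_right (by linarith) hH.le)
    (mul_le_mul_of_nonneg_right (by linarith) hH.le)
  refine h6.trans ?_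
  rw [mul_assoc, two_mul]
  refine mul_le_mul_of_nonneg_left (add_le_add ?_ ?_) hC2.le
  · have e5 : (4 - κ) * H / 2 + a0 / 4 * H = (2 - κ / 2 + a0 / 4) * H := by ring
    rw [e5]
    exact hexp _ (by linarith)
  · have e5 : (2 + a0 / 4) * H - a0 * H / 2 = (2 - a0 / 4) * H := by ring
    rw [e5]
    exact hexp _ (by linarith)

end Pool.Agent.K9h89.AW
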