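import Mathlib
import Pool.Agent.K9h89.AW.V5

/-!
# The points divisible by a power of a large prime, the rest having a small radical: arbitrary
polynomials
-/

set_option autoImplicit false
set_option linter.unusedSectionVars false

namespace Pool.Agent.K9h89.AW

open NumberField IsDedekindDomain Finset Pool.Agent.H691R3
open Pool.Agent.TH876.Loc hiding mx
open Pool.Agent.N753.LS Pool.Agent.N753.SF Pool.Agent.N753.SU Polynomial

variable {K : Type} [Field K] [NumberField K]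

theorem exists_low2 (s : Finset ℕ) (g : ℕ → ℝ) (hg : ∀ k, 0 < g k) :
    ∃ m : ℝ, 0 < m ∧ ∀ k ∈ s, m ≤ g k := by
  classical
  induction s using Finset.induction_on with
  | empty => exact ⟨1, one_pos, fun k hk => absurd hk (Finset.notMem_empty k)⟩
  | insert a s _ ih =>
    obtain ⟨m, hm, h⟩ := ih
    refine ⟨min m (g a), lt_min hm (hg a), fun k hk => ?_⟩
    rcases Finset.mem_insert.1 hk with rfl | hk
    · exact min_le_right _ _
    · exact (min_le_left _ _).trans (h k hk)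

/-- linear polynomials: the multiplicity is the distance to the root -/
theorem lin_large {f : (𝓞 K)[X]} (hf : f.natDegree = 1) {v : Pr K}
    (hv : f.leadingCoeff ∉ v.asIdeal) {x z : K} (hz : aeval z f = 0) (hx : aeval x f ≠ 0)
    (hnu : 2 ≤ nu f v x) : 2 * Real.log (Nv v) ≤ hr (aff x) + hr (aff z) + lossK K := by
  obtain ⟨hx1, hx2⟩ := le_nu hv hx (n := 2) (by norm_num) hnu
  have hxz : x ≠ z := by
    rintro rfl
    exact hx hz
  have hfx : aeval x f = algebraMap (𝓞 K) K f.leadingCoeff * (x - z) := by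
    have e1 : f = C (f.coeff 1) * X + C (f.coeff 0) :=
      eq_X_add_C_of_natDegree_le_one (by omega)
    have e2 : f.leadingCoeff = f.coeff 1 := by
      unfold leadingCoeff
      rw [hf]
    rw [e2]
    have h4 : aeval x f - aeval z f = algebraMap (𝓞 K) K (f.coeff 1) * (x - z) := by
      rw [e1]
      simp
      ring
    rw [hz, sub_zero] at h4
    exact h4
  have hfv : fv v (aeval x f) = fv v (x - z) := by
    rw [hfx, map_mul, fv_one_of_notMem hv, one_mul]
  rw [hfv] at hx2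
  have h5 := sum_lam_le (aff_ne_zero x) (aff_ne_zero z) (aff_wedge hxz)
    ({Sum.inr v} : Finset (Pl K))
  rw [Finset.sum_singleton] at h5
  have h6 : ((2 : ℕ) : ℝ) * Real.log (Nv v) ≤ lam (Sum.inr v) (aff x) (aff z) := by
    show ((2 : ℕ) : ℝ) * Real.log (Nv v) ≤ lamA (fv v) (aff x) (aff z)
    rw [le_lamA_iff (fv v) (aff_ne_zero x) (aff_ne_zero z) (aff_wedge hxz)]
    have e1 : (aff x).1 * (aff z).2 - (aff x).2 * (aff z).1 = x - z := by
      simp only [aff, mul_one, one_mul]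
    rw [e1]
    refine hx2.trans ?_
    refine le_mul_of_one_le_right (Real.exp_pos _).le ?_
    have h5 : (1 : ℝ) ≤ max (fv v (aff x).1) (fv v (aff x).2) := by
      refine le_trans ?_ (le_max_right _ _)
      show 1 ≤ fv v 1
      rw [map_one]
    have h6 : (1 : ℝ) ≤ max (fv v (aff z).1) (fv v (aff z).2) := by
      refine le_trans ?_ (le_max_right _ _)
      show 1 ≤ fv v 1
      rw [map_one]
    nlinarith
  push_cast at h6
  linarith

variable (K) in
open Classical in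
/-- **the points divisible by a power of a large prime, the rest having a small radical** -/
theorem count_large2 (e : ℕ) (he : 1 ≤ e) (R : ℝ) (hR : 0 ≤ R) {κ : ℝ} (hκ0 : 0 < κ)
    (hκ1 : κ ≤ 1 / 2) : ∃ ν0 : ℝ, 0 < ν0 ∧ ν0 ≤ 1 ∧ ∀ δ : ℝ, 0 < δ → ∃ C : ℝ, 0 < C ∧
    ∀ f : (𝓞 K)[X], f.natDegree = e → ∀ Bad : Finset (Pr K),
      (∀ v ∉ Bad, Good f v ∧ GoodS f v) → ∀ H : ℝ, 0 ≤ H →
      ht (f.map (algebraMap (𝓞 K) K)) + e * H ≤ R * (1 + H) →
      ∀ S : Finset K, (∀ x ∈ S, hr (aff x) ≤ H ∧ aeval x f ≠ 0 ∧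
        ∃ v0, v0 ∉ Bad ∧ 2 ≤ nu f v0 x ∧ (2 - κ) * H ≤ Real.log (Nv v0) ∧
          ∑ v ∈ (dv f x \ Bad).erase v0, Real.log (Nv v) ≤ (2 - 3 * κ) * H) →
      (S.card : ℝ) ≤ C * Real.exp ((2 - ν0) * H + δ * ∑ v ∈ Bad, Real.log (Nv v)) := by
  obtain ⟨C0, hC0, hzex⟩ := exists_z K
  have hod : ∀ q : ℕ, ∃ la : ℝ, 0 < la ∧ la < 1 ∧ (q.Prime → ∀ δ : ℝ, 0 < δ → δ ≤ 1 →
    ∃ C : ℝ, 0 < C ∧
    ∀ f : (𝓞 K)[X], f.natDegree = e → ∀ Bad : Finset (Pr K),
    (∀ v ∉ Bad, Good f v ∧ GoodS f v) → ∀ H : ℝ, 0 ≤ H →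
    ht (f.map (algebraMap (𝓞 K) K)) ≤ R * (1 + H) → ∀ τ : ℝ, 0 ≤ τ → τ ≤ 2 * H →
    ∀ (z : K → K) (S : Finset K), (∀ x ∈ S, hr (aff x) ≤ H ∧ aeval x f ≠ 0 ∧
      aeval (z x) f ≠ 0 ∧
      (2 * hr (aff (z x)) + ∑ v ∈ (YY q f Bad x).filter (fun v => ¬ cls v x = cls v (z x)),
        Real.log (Nv v) ≤ ∑ v ∈ (YY q f Bad x).filter (fun v => cls v x = cls v (z x)),
          Real.log (Nv v) + C0) ∧
      ∑ v ∈ YY q f Bad x, Real.log (Nv v) ≤ τ) →
      (S.card : ℝ) ≤ C * Real.exp ((1 + la) * H + τ / 2 * (1 - la) + δ * H) *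
        Real.exp (δ * ∑ v ∈ Bad, Real.log (Nv v))) := by
    intro q
    by_cases hq : q.Prime
    · obtain ⟨la, hla0, hla1, h⟩ := od2qz K q hq
      exact ⟨la, hla0, hla1, fun _ => h C0 hC0 e he R hR⟩
    · exact ⟨1 / 2, by norm_num, by norm_num, fun h => absurd h hq⟩
  choose la hla0 hla1 hla using hod
  have hod2 : ∀ q : ℕ, ∃ la : ℝ, 0 < la ∧ la < 1 ∧ (q.Prime → 2 ≤ e → ∀ δ : ℝ, 0 < δ → δ ≤ 1 →
    ∃ C : ℝ, 0 < C ∧
    ∀ f : (𝓞 K)[X], f.natDegree = e → ∀ Bad : Finset (Pr K),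
    (∀ v ∉ Bad, Good f v ∧ GoodS f v) → ∀ H : ℝ, 0 ≤ H → ∀ T : ℝ, T ≤ 2 * H →
    ∀ z : K, ∀ S : Finset K, (∀ x ∈ S, hr (aff x) ≤ H ∧ aeval x f ≠ 0 ∧ x ≠ z ∧
      nrm (nn Bad x z) + ∑ v ∈ (YY q f Bad x).filter (fun v => ¬ cls v x = cls v z),
        Real.log (Nv v) ≤ T) →
      (S.card : ℝ) ≤ C * Real.exp (2 * la * H + (1 - la) * T + δ * H) *
        Real.exp (δ * ∑ v ∈ Bad, Real.log (Nv v))) := by
    intro q
    by_cases hq : q.Prime
    · obtain ⟨la, hla0, hla1, h⟩ := od2qr K q hq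
      exact ⟨la, hla0, hla1, fun _ he2 => h e he2⟩
    · exact ⟨1 / 2, by norm_num, by norm_num, fun h => absurd h hq⟩
  choose lb hlb0 hlb1 hlb using hod2
  obtain ⟨Cn, hCn, hnear⟩ := count_near K e he (κ := κ) hκ0 (by linarith)
  obtain ⟨l, hl⟩ : ∃ l : ℝ, l = (e + 1) * lossK K := ⟨_, rfl⟩
  have hlo0 := lossK_nonneg K
  have hl0 : 0 ≤ l := by
    rw [hl]
    exact mul_nonneg (by positivity) hlo0
  obtain ⟨N0, hN0⟩ : ∃ N0 : ℕ, 2 * R + l < N0 := exists_nat_gt _
  obtain ⟨ma, hma0, hma⟩ := exists_low2 (Finset.range (N0 + 1)) (fun q => 1 - la q)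
    (fun q => by linarith [hla1 q])
  obtain ⟨mb, hmb0, hmb⟩ := exists_low2 (Finset.range (N0 + 1)) (fun q => 1 - lb q)
    (fun q => by linarith [hlb1 q])
  obtain ⟨m', hm'⟩ : ∃ m' : ℝ, m' = min (min ma mb) (1 / 64) := ⟨_, rfl⟩
  have hm'0 : 0 < m' := by rw [hm']; exact lt_min (lt_min hma0 hmb0) (by norm_num)
  have hm'1 : m' ≤ 1 / 64 := by rw [hm']; exact min_le_right _ _
  have hm'a : ∀ q ∈ Finset.range (N0 + 1), m' ≤ 1 - la q := by
    intro q hq
    rw [hm']
    exact ((min_le_left _ _).trans (min_le_left _ _)).trans (hma q hq)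
  have hm'b : ∀ q ∈ Finset.range (N0 + 1), m' ≤ 1 - lb q := by
    intro q hq
    rw [hm']
    exact ((min_le_left _ _).trans (min_le_right _ _)).trans (hmb q hq)
  obtain ⟨ν0, hν0⟩ : ∃ ν0 : ℝ, ν0 = κ * m' := ⟨_, rfl⟩
  have hν00 : 0 < ν0 := by rw [hν0]; positivity
  have hν0κ : ν0 ≤ κ / 64 := by
    rw [hν0]
    have := mul_le_mul_of_nonneg_left hm'1 hκ0.le
    linarith
  have hν01 : ν0 ≤ 1 := by linarith
  refine ⟨ν0, hν00, hν01, ?_⟩
  intro δ hδ
  obtain ⟨δ', hδ'⟩ : ∃ δ' : ℝ, δ' = min δ (ν0 / 2) := ⟨_, rfl⟩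
  have hδ'0 : 0 < δ' := by rw [hδ']; exact lt_min hδ (by positivity)
  have hδ'δ : δ' ≤ δ := by rw [hδ']; exact min_le_left _ _
  have hδ'ν : δ' ≤ ν0 / 2 := by rw [hδ']; exact min_le_right _ _
  have hcon : ∀ q : ℕ, ∃ C : ℝ, 0 < C ∧ (q.Prime →
    ∀ f : (𝓞 K)[X], f.natDegree = e → ∀ Bad : Finset (Pr K),
    (∀ v ∉ Bad, Good f v ∧ GoodS f v) → ∀ H : ℝ, 0 ≤ H →
    ht (f.map (algebraMap (𝓞 K) K)) ≤ R * (1 + H) → ∀ τ : ℝ, 0 ≤ τ → τ ≤ 2 * H →
    ∀ (z : K → K) (S : Finset K), (∀ x ∈ S, hr (aff x) ≤ H ∧ aeval x f ≠ 0 ∧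
      aeval (z x) f ≠ 0 ∧
      (2 * hr (aff (z x)) + ∑ v ∈ (YY q f Bad x).filter (fun v => ¬ cls v x = cls v (z x)),
        Real.log (Nv v) ≤ ∑ v ∈ (YY q f Bad x).filter (fun v => cls v x = cls v (z x)),
          Real.log (Nv v) + C0) ∧
      ∑ v ∈ YY q f Bad x, Real.log (Nv v) ≤ τ) →
      (S.card : ℝ) ≤ C * Real.exp ((1 + la q) * H + τ / 2 * (1 - la q) + δ' * H) *
        Real.exp (δ' * ∑ v ∈ Bad, Real.log (Nv v))) := by
    intro q
    by_cases hq : q.Prime
    · obtain ⟨C, hC, h⟩ := hla q hq δ' hδ'0 (by linarith)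
      exact ⟨C, hC, fun _ => h⟩
    · exact ⟨1, one_pos, fun h => absurd h hq⟩
  choose Cq hCq hcq using hcon
  have hcon2 : ∀ q : ℕ, ∃ C : ℝ, 0 < C ∧ (q.Prime → 2 ≤ e →
    ∀ f : (𝓞 K)[X], f.natDegree = e → ∀ Bad : Finset (Pr K),
    (∀ v ∉ Bad, Good f v ∧ GoodS f v) → ∀ H : ℝ, 0 ≤ H → ∀ T : ℝ, T ≤ 2 * H →
    ∀ z : K, ∀ S : Finset K, (∀ x ∈ S, hr (aff x) ≤ H ∧ aeval x f ≠ 0 ∧ x ≠ z ∧
      nrm (nn Bad x z) + ∑ v ∈ (YY q f Bad x).filter (fun v => ¬ cls v x = cls v z),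
        Real.log (Nv v) ≤ T) →
      (S.card : ℝ) ≤ C * Real.exp (2 * lb q * H + (1 - lb q) * T + δ' * H) *
        Real.exp (δ' * ∑ v ∈ Bad, Real.log (Nv v))) := by
    intro q
    by_cases hq : q.Prime
    · by_cases he2 : 2 ≤ e
      · obtain ⟨C, hC, h⟩ := hlb q hq he2 δ' hδ'0 (by linarith)
        exact ⟨C, hC, fun _ _ => h⟩
      · exact ⟨1, one_pos, fun _ h => absurd h he2⟩
    · exact ⟨1, one_pos, fun h => absurd h hq⟩
  choose Dq hDq hdq using hcon2
  obtain ⟨C4, hC4, h4⟩ := count_all K (δ := 1) one_pos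
  -- the threshold
  obtain ⟨H1, hH1'⟩ : ∃ H1 : ℝ, H1 = max 1 ((C0 + 2 * lossK K) / κ) := ⟨_, rfl⟩
  have hH11 : 1 ≤ H1 := by rw [hH1']; exact le_max_left _ _
  have hH12 : (C0 + 2 * lossK K) / κ ≤ H1 := by rw [hH1']; exact le_max_right _ _
  refine ⟨∑ q ∈ Finset.range (N0 + 1), (Cq q + (e * Dq q + Cn)) + C4 * Real.exp (3 * H1), by
    have : 0 ≤ ∑ q ∈ Finset.range (N0 + 1), (Cq q + (e * Dq q + Cn)) :=
      Finset.sum_nonneg fun q _ => by
        have := (hCq q).le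
        have := (hDq q).le
        positivity
    positivity, ?_⟩
  intro f hfe Bad hBad H hH hht S hS
  obtain ⟨β, hβ⟩ : ∃ β : ℝ, β = ∑ v ∈ Bad, Real.log (Nv v) := ⟨_, rfl⟩
  have hβ0 : 0 ≤ β := by
    rw [hβ]
    exact Finset.sum_nonneg fun v _ => (log_Nv_pos v).le
  rw [← hβ]
  obtain ⟨G, hG⟩ : ∃ G : ℝ, G = Real.exp ((2 - ν0) * H + δ * β) := ⟨_, rfl⟩
  rw [← hG]
  have hG0 : 0 < G := by rw [hG]; exact Real.exp_pos _
  have hG1 : 1 ≤ G := by
    rw [hG]
    refine Real.one_le_exp ?_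
    have : 0 ≤ (2 - ν0) * H := mul_nonneg (by linarith) hH
    positivity
  have hsC : 0 ≤ ∑ q ∈ Finset.range (N0 + 1), (Cq q + (e * Dq q + Cn)) :=
    Finset.sum_nonneg fun q _ => by
      have := (hCq q).le
      have := (hDq q).le
      positivity
  rcases lt_or_ge H H1 with hH1 | hH1
  · have h5 := h4 H hH S fun x hx => (hS x hx).1
    have h6 : Real.exp ((2 + 1) * H) ≤ Real.exp (3 * H1) := Real.exp_le_exp.2 (by linarith)
    have h7 := mul_le_mul_of_nonneg_left h6 hC4.le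
    have h8 : 0 ≤ C4 * Real.exp (3 * H1) := by positivity
    have h9 := (h5.trans h7).trans (le_mul_of_one_le_right h8 hG1)
    rw [add_mul]
    have := mul_nonneg hsC hG0.le
    linarith
  have hHone : 1 ≤ H := hH11.trans hH1
  have hHpos : 0 < H := by linarith
  have hHκ : C0 + 2 * lossK K ≤ κ * H := by
    have := hH12.trans hH1
    rw [div_le_iff₀ hκ0] at this
    linarith
  obtain ⟨τ, hτ⟩ : ∃ τ : ℝ, τ = (2 - 3 * κ) * H := ⟨_, rfl⟩
  have hτ0 : 0 ≤ τ := by rw [hτ]; exact mul_nonneg (by linarith) hH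
  have hκH : 0 < κ * H := by positivity
  have hτ2 : τ ≤ 2 * H := by
    rw [hτ]
    linarith
  have hht1 : ht (f.map (algebraMap (𝓞 K) K)) ≤ R * (1 + H) := by
    have : 0 ≤ (e : ℝ) * H := by positivity
    linarith
  -- the prime factor of the exponent
  have hq : ∀ x ∈ S, ∃ q ∈ Finset.range (N0 + 1), q.Prime ∧
      ∑ v ∈ YY q f Bad x, Real.log (Nv v) ≤ τ := by
    intro x hx
    obtain ⟨hxH, hx0, v0, hv0, hv2, hv3, hv4⟩ := hS x hx
    obtain ⟨k, hk⟩ : ∃ k, k = nu f v0 x := ⟨_, rfl⟩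
    rw [← hk] at hv2
    have hkN : k ≤ N0 := by
      have h1 := sum_nu_ht f Bad (fun v hv => (hBad v hv).2.2) hx0
      rw [hfe, ← hl] at h1
      have h2 := mul_le_mul_of_nonneg_left hxH (show (0 : ℝ) ≤ e from Nat.cast_nonneg _)
      have hv0d : v0 ∈ dv f x \ Bad := by
        rw [Finset.mem_sdiff]
        exact ⟨(mem_dv_iff hx0 (hBad v0 hv0).2.2).2 (by omega), hv0⟩
      have h3 : (nu f v0 x : ℝ) * Real.log (Nv v0) ≤
          ∑ v ∈ dv f x \ Bad, (nu f v x : ℝ) * Real.log (Nv v) :=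
        Finset.single_le_sum (f := fun v => (nu f v x : ℝ) * Real.log (Nv v))
          (fun v _ => mul_nonneg (Nat.cast_nonneg _) (log_Nv_pos v).le) hv0d
      rw [← hk] at h3
      have h5 : (k : ℝ) * ((2 - κ) * H) ≤ k * Real.log (Nv v0) :=
        mul_le_mul_of_nonneg_left hv3 (Nat.cast_nonneg _)
      have h6 : (k : ℝ) * (1 * H) ≤ k * ((2 - κ) * H) :=
        mul_le_mul_of_nonneg_left (mul_le_mul_of_nonneg_right (by linarith) hH)
          (Nat.cast_nonneg _)
      have h7 : (k : ℝ) * H ≤ (2 * R + l) * H := by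
        have h8 : R * (1 + H) + l ≤ (2 * R + l) * H := by nlinarith
        linarith
      have h8 : (k : ℝ) ≤ 2 * R + l := le_of_mul_le_mul_right h7 (by linarith)
      have h9 : (k : ℝ) < N0 := by linarith
      exact_mod_cast h9.le
    have hk1 : k ≠ 1 := by omega
    refine ⟨k.minFac, ?_, Nat.minFac_prime hk1, ?_⟩
    · rw [Finset.mem_range]
      have := Nat.minFac_le (show 0 < k by omega)
      omega
    · rw [hτ]
      refine le_trans ?_ hv4
      refine Finset.sum_le_sum_of_subset_of_nonneg ?_ fun v _ _ => (log_Nv_pos v).le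
      intro v hv
      unfold YY at hv
      obtain ⟨hva, hvb⟩ := Finset.mem_filter.1 hv
      rw [Finset.mem_erase]
      refine ⟨?_, hva⟩
      rintro rfl
      rw [← hk] at hvb
      exact hvb (Nat.minFac_dvd k)
  obtain ⟨T, hT⟩ : ∃ T : ℕ → Finset K, T = fun q => S.filter fun x => q.Prime ∧
    ∑ v ∈ YY q f Bad x, Real.log (Nv v) ≤ τ := ⟨_, rfl⟩
  have hTm : ∀ q x, x ∈ T q ↔ x ∈ S ∧ q.Prime ∧
      ∑ v ∈ YY q f Bad x, Real.log (Nv v) ≤ τ := by
    intro q x
    rw [hT]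
    exact Finset.mem_filter
  have hcover : S ⊆ (Finset.range (N0 + 1)).biUnion T := by
    intro x hx
    obtain ⟨q, hq1, hq2, hq3⟩ := hq x hx
    exact Finset.mem_biUnion.2 ⟨q, hq1, (hTm q x).2 ⟨hx, hq2, hq3⟩⟩
  have hTc : ∀ q ∈ Finset.range (N0 + 1), ((T q).card : ℝ) ≤ (Cq q + (e * Dq q + Cn)) * G := by
    intro q hqN
    by_cases hqp : q.Prime
    swap
    · have : T q = ∅ := Finset.eq_empty_of_forall_notMem fun x hx => hqp ((hTm q x).1 hx).2.1
      rw [this, Finset.card_empty, Nat.cast_zero]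
      have := (hCq q).le
      have := (hDq q).le
      positivity
    -- the approximations
    have hzx : ∀ x : K, ∃ z : K, x ∈ S →
        2 * hr (aff z) + ∑ v ∈ (YY q f Bad x).filter (fun v => ¬ cls v x = cls v z),
        Real.log (Nv v) ≤ ∑ v ∈ (YY q f Bad x).filter (fun v => cls v x = cls v z),
          Real.log (Nv v) + C0 := by
      intro x
      by_cases hx : x ∈ S
      · obtain ⟨z, hz⟩ := hzex (YY q f Bad x) x fun v hv => by
          unfold YY at hv
          obtain ⟨hv1, -⟩ := Finset.mem_filter.1 hv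
          exact ((mem_dv (hS x hx).2.1).1 (Finset.mem_sdiff.1 hv1).1).1
        exact ⟨z, fun _ => hz⟩
      · exact ⟨x, fun h => absurd h hx⟩
    choose z hz using hzx
    have hAB : ∀ x, ∑ v ∈ (YY q f Bad x).filter (fun v => cls v x = cls v (z x)),
        Real.log (Nv v) + ∑ v ∈ (YY q f Bad x).filter (fun v => ¬ cls v x = cls v (z x)),
        Real.log (Nv v) = ∑ v ∈ YY q f Bad x, Real.log (Nv v) :=
      fun x => Finset.sum_filter_add_sum_filter_not _ _ _
    have hA0 : ∀ x, 0 ≤ ∑ v ∈ (YY q f Bad x).filter (fun v => ¬ cls v x = cls v (z x)),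
        Real.log (Nv v) := fun x => Finset.sum_nonneg fun v _ => (log_Nv_pos v).le
    have hzH : ∀ x ∈ T q, 2 * hr (aff (z x)) ≤ τ + C0 := by
      intro x hx
      obtain ⟨hxS, -, hx3⟩ := (hTm q x).1 hx
      have e1 := hz x hxS
      have e2 := hAB x
      have e3 := hA0 x
      linarith
    obtain ⟨Ta, hTa⟩ : ∃ Ta, Ta = (T q).filter fun x => aeval (z x) f ≠ 0 := ⟨_, rfl⟩
    obtain ⟨Tb, hTb⟩ : ∃ Tb, Tb = (T q).filter fun x => aeval (z x) f = 0 ∧
      nrm (nn Bad x (z x)) < κ * H +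
        ∑ v ∈ (YY q f Bad x).filter (fun v => cls v x = cls v (z x)), Real.log (Nv v) := ⟨_, rfl⟩
    obtain ⟨Tc, hTc⟩ : ∃ Tc, Tc = (T q).filter fun x => aeval (z x) f = 0 ∧
      κ * H + ∑ v ∈ (YY q f Bad x).filter (fun v => cls v x = cls v (z x)), Real.log (Nv v) ≤
        nrm (nn Bad x (z x)) := ⟨_, rfl⟩
    have hsub : T q ⊆ Ta ∪ (Tb ∪ Tc) := by
      intro x hx
      rw [Finset.mem_union, Finset.mem_union, hTa, hTb, hTc, Finset.mem_filter,
        Finset.mem_filter, Finset.mem_filter]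
      by_cases h1 : aeval (z x) f = 0
      · right
        rcases lt_or_ge (nrm (nn Bad x (z x))) (κ * H +
          ∑ v ∈ (YY q f Bad x).filter (fun v => cls v x = cls v (z x)), Real.log (Nv v)) with h | h
        · exact Or.inl ⟨hx, h1, h⟩
        · exact Or.inr ⟨hx, h1, h⟩
      · exact Or.inl ⟨hx, h1⟩
    have hsubc : ((T q).card : ℝ) ≤ Ta.card + (Tb.card + Tc.card) := by
      exact_mod_cast (Finset.card_le_card hsub).trans ((Finset.card_union_le _ _).trans
        (Nat.add_le_add_left (Finset.card_union_le _ _) _))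
    have hδβ : δ' * β ≤ δ * β := mul_le_mul_of_nonneg_right hδ'δ hβ0
    have hδH : δ' * H ≤ ν0 / 2 * H := mul_le_mul_of_nonneg_right hδ'ν hH
    have hTac : (Ta.card : ℝ) ≤ Cq q * G := by
      have h5 := hcq q hqp f hfe Bad hBad H hH hht1 τ hτ0 hτ2 z Ta (by
        intro x hx
        rw [hTa] at hx
        obtain ⟨hxT, hx1⟩ := Finset.mem_filter.1 hx
        obtain ⟨hxS, -, hx3⟩ := (hTm q x).1 hxT
        exact ⟨(hS x hxS).1, (hS x hxS).2.1, hx1, hz x hxS, hx3⟩)
      refine h5.trans ?_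
      rw [← hβ, mul_assoc, ← Real.exp_add]
      refine mul_le_mul_of_nonneg_left ?_ (hCq q).le
      rw [hG]
      refine Real.exp_le_exp.2 ?_
      have e3 : (1 + la q) * H + τ / 2 * (1 - la q) = 2 * H - 3 / 2 * (κ * (1 - la q)) * H := by
        rw [hτ]
        ring
      have e4 : ν0 * H ≤ κ * (1 - la q) * H := by
        rw [hν0]
        exact mul_le_mul_of_nonneg_right (mul_le_mul_of_nonneg_left (hm'a q hqN) hκ0.le) hH
      rw [e3]
      linarith
    have hTcc : (Tc.card : ℝ) ≤ Cn * G := by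
      have h5 := hnear f hfe Bad hBad H hHpos Tc (by
        intro x hx
        rw [hTc] at hx
        obtain ⟨hxT, hx1, hx2⟩ := Finset.mem_filter.1 hx
        obtain ⟨hxS, -, hx3⟩ := (hTm q x).1 hxT
        refine ⟨(hS x hxS).1, (hS x hxS).2.1, z x, q, hqp.two_le, hx1, ?_, hx2⟩
        have e1 := hzH x hxT
        have e2 : (2 - κ) * H = 2 * H - κ * H := by ring
        have e3 : τ = 2 * H - 3 * (κ * H) := by rw [hτ]; ring
        linarith)
      refine h5.trans (mul_le_mul_of_nonneg_left ?_ hCn.le)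
      rw [hG]
      refine Real.exp_le_exp.2 ?_
      have e1 : (2 - κ / 64) * H ≤ (2 - ν0) * H := mul_le_mul_of_nonneg_right (by linarith) hH
      have e2 : 0 ≤ δ * β := by positivity
      linarith
    have hTbc : (Tb.card : ℝ) ≤ e * Dq q * G := by
      by_cases he1 : e = 1
      · -- degree one
        have hTbe : Tb = ∅ := by
          refine Finset.eq_empty_of_forall_notMem fun x hx => ?_
          rw [hTb] at hx
          obtain ⟨hxT, hx1, -⟩ := Finset.mem_filter.1 hx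
          obtain ⟨hxS, -, hx3⟩ := (hTm q x).1 hxT
          obtain ⟨hxH, hx0, v0, hv0, hv2, hv3, -⟩ := hS x hxS
          have e1 := lin_large (by rw [hfe, he1]) (hBad v0 hv0).2.2 hx1 hx0 hv2
          have e2 := hzH x hxT
          have e3 : τ = 2 * H - 3 * (κ * H) := by rw [hτ]; ring
          have e4 : (2 - κ) * H = 2 * H - κ * H := by ring
          have e5 : κ * H ≤ 1 / 2 * H := mul_le_mul_of_nonneg_right hκ1 hH
          linarith
        rw [hTbe, Finset.card_empty, Nat.cast_zero]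
        have := (hDq q).le
        positivity
      have he2 : 2 ≤ e := by omega
      obtain ⟨g, hg⟩ : ∃ g : K[X], g = f.map (algebraMap (𝓞 K) K) := ⟨_, rfl⟩
      have hg0 : g ≠ 0 := by
        rw [hg, Ne, Polynomial.map_eq_zero_iff (FaithfulSMul.algebraMap_injective (𝓞 K) K)]
        rintro rfl
        rw [natDegree_zero] at hfe
        omega
      have hgd : g.natDegree ≤ e := by
        rw [hg, ← hfe]
        exact natDegree_map_le
      have hmaps : ∀ x ∈ Tb, z x ∈ g.roots.toFinset := by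
        intro x hx
        rw [hTb] at hx
        obtain ⟨hxT, hx1, -⟩ := Finset.mem_filter.1 hx
        rw [Multiset.mem_toFinset, mem_roots hg0, IsRoot.def, hg, eval_map_algebraMap]
        exact hx1
      have hrc : (g.roots.toFinset.card : ℝ) ≤ e := by
        exact_mod_cast (Multiset.toFinset_card_le _).trans ((card_roots' g).trans hgd)
      have hsum : (Tb.card : ℝ) = ∑ b ∈ g.roots.toFinset,
          ((Tb.filter fun x => z x = b).card : ℝ) := by
        have := Finset.card_eq_sum_card_fiberwise hmaps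
        exact_mod_cast this
      have hfib : ∀ b ∈ g.roots.toFinset, ((Tb.filter fun x => z x = b).card : ℝ) ≤
          Dq q * G := by
        intro b _
        have h5 := hdq q hqp he2 f hfe Bad hBad H hH (τ + κ * H) (by
          have e3 : τ = 2 * H - 3 * (κ * H) := by rw [hτ]; ring
          linarith) b (Tb.filter fun x => z x = b) (by
          intro x hx
          obtain ⟨hxb, hxz⟩ := Finset.mem_filter.1 hx
          rw [hTb] at hxb
          obtain ⟨hxT, hx1, hx2⟩ := Finset.mem_filter.1 hxb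
          obtain ⟨hxS, -, hx3⟩ := (hTm q x).1 hxT
          have e1 := hAB x
          rw [hxz] at hx1 hx2 e1
          refine ⟨(hS x hxS).1, (hS x hxS).2.1, ?_, by linarith⟩
          rintro rfl
          exact (hS x hxS).2.1 hx1)
        refine h5.trans ?_
        rw [← hβ, mul_assoc, ← Real.exp_add]
        refine mul_le_mul_of_nonneg_left ?_ (hDq q).le
        rw [hG]
        refine Real.exp_le_exp.2 ?_
        have e3 : 2 * lb q * H + (1 - lb q) * (τ + κ * H) =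
            2 * H - 2 * (κ * (1 - lb q) * H) := by
          rw [hτ]
          ring
        have e4 : ν0 * H ≤ κ * (1 - lb q) * H := by
          rw [hν0]
          exact mul_le_mul_of_nonneg_right (mul_le_mul_of_nonneg_left (hm'b q hqN) hκ0.le) hH
        rw [e3]
        have e5 : 0 ≤ ν0 * H := by positivity
        linarith
      rw [hsum]
      refine (Finset.sum_le_sum hfib).trans ?_
      rw [Finset.sum_const, nsmul_eq_mul, mul_assoc]
      have := (hDq q).le
      exact mul_le_mul_of_nonneg_right hrc (by positivity)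
    have e1 : (Cq q + (e * Dq q + Cn)) * G = Cq q * G + (e * Dq q * G + Cn * G) := by ring
    rw [e1]
    linarith
  have h5 : (S.card : ℝ) ≤ ∑ q ∈ Finset.range (N0 + 1), ((T q).card : ℝ) := by
    exact_mod_cast (Finset.card_le_card hcover).trans Finset.card_biUnion_le
  have h6 := Finset.sum_le_sum hTc
  rw [← Finset.sum_mul] at h6
  rw [add_mul]
  have : 0 ≤ C4 * Real.exp (3 * H1) * G := by positivity
  linarith

end Pool.Agent.K9h89.AW
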