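import Mathlib
import Pool.Agent.K9h89.AW.V6

/-!
# The number of the points of a fibre with radical less than four times the height: arbitrary
polynomials
-/

set_option autoImplicit false
set_option linter.unusedSectionVars false

namespace Pool.Agent.K9h89.AW

open NumberField IsDedekindDomain Finset Pool.Agent.H691R3
open Pool.Agent.TH876.Loc hiding mx
open Pool.Agent.N753.LS Pool.Agent.N753.SF Pool.Agent.N753.SU Polynomial

variable {K : Type} [Field K] [NumberField K]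

variable (K) in
open Classical in
/-- **the points of a fibre with radical less than four times the height** -/
theorem fibre_bound4r (e : ℕ) (he : 1 ≤ e) (R : ℝ)
    (hR : 0 ≤ R) {κ : ℝ} (hκ0 : 0 < κ) (hκ1 : κ ≤ 1) :
    ∃ ν0 : ℝ, 0 < ν0 ∧ ν0 ≤ 1 ∧ ∀ δ : ℝ, 0 < δ →
    ∃ C : ℝ, 0 < C ∧ ∀ f : (𝓞 K)[X], f.natDegree = e → ∀ Bad : Finset (Pr K),
      (∀ v ∉ Bad, Good f v ∧ GoodS f v) → ∀ H : ℝ, 0 ≤ H → ∀ L : ℝ,
      L = ht (f.map (algebraMap (𝓞 K) K)) →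
      L + e * H ≤ R * (1 + H) →
      ∀ S : Finset K, (∀ x ∈ S, hr (aff x) ≤ H ∧ aeval x f ≠ 0 ∧
        ∑ v ∈ dv f x \ Bad, Real.log (Nv v) < L + e * hr (aff x) - κ * H ∧
        ∑ v ∈ dv f x \ Bad, Real.log (Nv v) < (4 - κ) * H) →
      (S.card : ℝ) ≤ C * Real.exp ((2 - ν0) * H + δ * ∑ v ∈ Bad, Real.log (Nv v)) := by
  have he0 : (0 : ℝ) < e := by exact_mod_cast he
  have he1 : (1 : ℝ) ≤ e := by exact_mod_cast he
  obtain ⟨l, hl⟩ : ∃ l : ℝ, l = (e + 1) * lossK K := ⟨_, rfl⟩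
  have hl0 : 0 ≤ l := by
    rw [hl]
    exact mul_nonneg (by positivity) (lossK_nonneg K)
  obtain ⟨ν3, hν30, hν31, h3⟩ := count_large2 K e he R hR (κ := κ / 4) (by positivity)
    (by linarith)
  obtain ⟨ν0, hν0'⟩ : ∃ ν0 : ℝ, ν0 = min ν3 (κ / (256 * e)) := ⟨_, rfl⟩
  have hν00 : 0 < ν0 := by rw [hν0']; exact lt_min hν30 (by positivity)
  have hν03 : ν0 ≤ ν3 := by rw [hν0']; exact min_le_left _ _
  have hν04 : ν0 ≤ κ / (256 * e) := by rw [hν0']; exact min_le_right _ _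
  refine ⟨ν0, hν00, hν03.trans hν31, ?_⟩
  intro δ hδ
  obtain ⟨δ1, hδ1'⟩ : ∃ δ1 : ℝ, δ1 = min δ (κ / (4 * e)) := ⟨_, rfl⟩
  have hδ10 : 0 < δ1 := by rw [hδ1']; exact lt_min hδ (by positivity)
  have hδ11 : δ1 ≤ δ := by rw [hδ1']; exact min_le_left _ _
  have hδ12 : δ1 ≤ κ / (4 * e) := by rw [hδ1']; exact min_le_right _ _
  obtain ⟨C1, hC1, h1⟩ := count_bad K e he (κ := κ / 2) (by positivity) (by linarith)
    (R := R) hR hδ10
  obtain ⟨C2, hC2, h2⟩ := count_WU6 K e he (κ := κ / 4) (by positivity) (by linarith) hδ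
  obtain ⟨C3, hC3, h3⟩ := h3 δ hδ
  refine ⟨C1 + C2 + C3, by positivity, ?_⟩
  intro f hfe Bad hBad H hH L hL hLE S hS
  have hdeg : 1 ≤ f.natDegree := by omega
  have hf0 : f ≠ 0 := by
    rintro rfl
    simp at hdeg
  obtain ⟨g, hg⟩ : ∃ g : K[X], g = f.map (algebraMap (𝓞 K) K) := ⟨_, rfl⟩
  have hg0 : g ≠ 0 := by
    rw [hg, Ne, Polynomial.map_eq_zero_iff (FaithfulSMul.algebraMap_injective (𝓞 K) K)]
    exact hf0
  have hgd : g.natDegree ≤ e := by
    rw [hg, ← hfe]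
    exact natDegree_map_le
  have hge : ∀ x, g.eval x = aeval x f := fun x => by
    rw [hg, eval_map_algebraMap]
  have hLht : ht (f.map (algebraMap (𝓞 K) K)) + e * H ≤ R * (1 + H) := by rw [← hL]; exact hLE
  have hL2 := ht_good f Bad (fun v hv => (hBad v hv).2.2)
  rw [hL2] at hL
  rw [← hg] at hL
  obtain ⟨β, hβ⟩ : ∃ β : ℝ, β = ∑ v ∈ Bad, Real.log (Nv v) := ⟨_, rfl⟩
  have hβ0 : 0 ≤ β := by
    rw [hβ]
    exact Finset.sum_nonneg fun v _ => (log_Nv_pos v).le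
  rw [← hβ]
  have hν1 : ν0 ≤ κ / (4 * e) := by
    refine hν04.trans (div_le_div_of_nonneg_left hκ0.le (by positivity) ?_)
    linarith
  have hν2 : ν0 ≤ κ / 4 / 64 := by
    refine hν04.trans ?_
    rw [div_div]
    refine div_le_div_of_nonneg_left hκ0.le (by positivity) ?_
    linarith
  obtain ⟨G, hG⟩ : ∃ G : ℝ, G = Real.exp ((2 - ν0) * H + δ * β) := ⟨_, rfl⟩
  rw [← hG]
  -- the identity
  have hid : ∀ x ∈ S, ∑ w : InfinitePlace K, mv (Sum.inl w) e g x +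
      ∑ v ∈ Bad, mv (Sum.inr v) e g x + ∑ v ∈ dv f x \ Bad, (nu f v x : ℝ) * Real.log (Nv v) =
        L + e * hr (aff x) := by
    intro x hx
    have h3 := height_eq f Bad (fun v hv => (hBad v hv).2.2) (hS x hx).2.1
    rw [hfe] at h3
    have h4 : ∀ p : Pl K, mv p e g x = gn p g + mu p f x := fun p => by
      rw [← hfe, hg]
      exact mv_mu p f x
    simp only [h4]
    rw [Finset.sum_add_distrib, Finset.sum_add_distrib, hL]
    linarith
  have hlow : ∀ x ∈ S, -l ≤ ∑ w : InfinitePlace K, mv (Sum.inl w) e g x := by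
    intro x hx
    have hlsum : ∑ w : InfinitePlace K, ((e : ℝ) + 1) * loss (Sum.inl w : Pl K) = l := by
      rw [hl, ← Finset.mul_sum]
      rfl
    rw [← hlsum, ← Finset.sum_neg_distrib]
    refine Finset.sum_le_sum fun w _ => ?_
    have := mv_ge (Sum.inl w) hgd (x := x) (by rw [hge]; exact (hS x hx).2.1)
    linarith
  have hlow2 : ∀ x ∈ S, 0 ≤ ∑ v ∈ Bad, mv (Sum.inr v) e g x := fun x hx =>
    Finset.sum_nonneg fun v _ => mv_nonneg v hgd (by rw [hge]; exact (hS x hx).2.1)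
  have hlow3 : ∀ x, 0 ≤ ∑ v ∈ dv f x \ Bad, (nu f v x : ℝ) * Real.log (Nv v) := fun x =>
    Finset.sum_nonneg fun v _ => mul_nonneg (Nat.cast_nonneg _) (log_Nv_pos v).le
  have hup : ∀ x ∈ S, L + e * hr (aff x) ≤ R * (1 + H) := by
    intro x hx
    have := mul_le_mul_of_nonneg_left (hS x hx).1 he0.le
    linarith
  obtain ⟨S1, hS1⟩ : ∃ S1 : Finset K, S1 = S.filter fun x => κ / 2 * H ≤
    ∑ w : InfinitePlace K, mv (Sum.inl w) e g x + ∑ v ∈ Bad, mv (Sum.inr v) e g x := ⟨_, rfl⟩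
  obtain ⟨S0, hS0⟩ : ∃ S0 : Finset K, S0 = S.filter fun x => ¬ κ / 2 * H ≤
    ∑ w : InfinitePlace K, mv (Sum.inl w) e g x + ∑ v ∈ Bad, mv (Sum.inr v) e g x := ⟨_, rfl⟩
  obtain ⟨S2, hS2⟩ : ∃ S2 : Finset K, S2 = S0.filter fun x => ∀ v, v ∉ Bad → 2 ≤ nu f v x →
    Real.log (Nv v) < (2 - κ / 4) * H := ⟨_, rfl⟩
  obtain ⟨S3, hS3⟩ : ∃ S3 : Finset K, S3 = S0.filter fun x => ¬ ∀ v, v ∉ Bad → 2 ≤ nu f v x →
    Real.log (Nv v) < (2 - κ / 4) * H := ⟨_, rfl⟩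
  have hκH : 0 ≤ κ * H := mul_nonneg hκ0.le hH
  have hc1 : (S1.card : ℝ) ≤ C1 * G := by
    have h5 := h1 g hg0 hgd Bad H hH S1 (by
      intro x hx
      rw [hS1] at hx
      obtain ⟨hxS, hx1⟩ := Finset.mem_filter.1 hx
      refine ⟨(hS x hxS).1, by rw [hge]; exact (hS x hxS).2.1, hx1, ?_⟩
      have e1 := hid x hxS
      have e2 := hlow3 x
      have e3 := hup x hxS
      linarith)
    rw [← hβ] at h5
    refine h5.trans (mul_le_mul_of_nonneg_left ?_ hC1.le)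
    rw [hG]
    refine Real.exp_le_exp.2 (add_le_add (mul_le_mul_of_nonneg_right ?_ hH)
      (mul_le_mul_of_nonneg_right hδ11 hβ0))
    have e1 : κ / 2 / e = κ / (4 * e) + κ / (4 * e) := by
      field_simp
      ring
    rw [e1]
    linarith
  have hS0m : ∀ x ∈ S0, x ∈ S ∧ ∑ v ∈ dv f x \ Bad, Real.log (Nv v) + κ / 4 * H ≤
      ∑ v ∈ dv f x \ Bad, (nu f v x : ℝ) * Real.log (Nv v) := by
    intro x hx
    rw [hS0] at hx
    obtain ⟨hxS, hx1⟩ := Finset.mem_filter.1 hx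
    rw [not_le] at hx1
    have e1 := hid x hxS
    obtain ⟨e4, e6, e5, e7⟩ := hS x hxS
    exact ⟨hxS, by linarith⟩
  have hc2 : (S2.card : ℝ) ≤ C2 * G := by
    have h5 := h2 f hfe Bad hBad H hH S2 (by
      intro x hx
      rw [hS2] at hx
      obtain ⟨hx0, hx1⟩ := Finset.mem_filter.1 hx
      obtain ⟨hxS, hx2⟩ := hS0m x hx0
      exact ⟨(hS x hxS).1, (hS x hxS).2.1, hx2, hx1⟩)
    rw [← hβ] at h5
    refine h5.trans (mul_le_mul_of_nonneg_left ?_ hC2.le)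
    rw [hG]
    refine Real.exp_le_exp.2 (add_le_add (mul_le_mul_of_nonneg_right ?_ hH) le_rfl)
    linarith
  have hc3 : (S3.card : ℝ) ≤ C3 * G := by
    have h5 := h3 f hfe Bad hBad H hH hLht S3 (by
      intro x hx
      rw [hS3] at hx
      obtain ⟨hx0, hx1⟩ := Finset.mem_filter.1 hx
      obtain ⟨hxS, hx2⟩ := hS0m x hx0
      push Not at hx1
      obtain ⟨v0, hv0, hv2, hv3⟩ := hx1
      refine ⟨(hS x hxS).1, (hS x hxS).2.1, v0, hv0, hv2, hv3, ?_⟩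
      have hv0d : v0 ∈ dv f x \ Bad := by
        rw [Finset.mem_sdiff]
        exact ⟨(mem_dv_iff (hS x hxS).2.1 (hBad v0 hv0).2.2).2 (by omega), hv0⟩
      have e1 := (hS x hxS).2.2.2
      rw [← Finset.add_sum_erase _ _ hv0d] at e1
      linarith)
    rw [← hβ] at h5
    refine h5.trans (mul_le_mul_of_nonneg_left ?_ hC3.le)
    rw [hG]
    exact Real.exp_le_exp.2 (add_le_add (mul_le_mul_of_nonneg_right (by linarith) hH) le_rfl)
  have h9 : (S.card : ℝ) = S1.card + S0.card := by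
    rw [hS1, hS0]
    exact_mod_cast (Finset.card_filter_add_card_filter_not (s := S) (p := fun x => κ / 2 * H ≤
      ∑ w : InfinitePlace K, mv (Sum.inl w) e g x + ∑ v ∈ Bad, mv (Sum.inr v) e g x)).symm
  have h10 : (S0.card : ℝ) = S2.card + S3.card := by
    rw [hS2, hS3]
    exact_mod_cast (Finset.card_filter_add_card_filter_not (s := S0) (p := fun x =>
      ∀ v, v ∉ Bad → 2 ≤ nu f v x → Real.log (Nv v) < (2 - κ / 4) * H)).symm
  rw [h9, h10, add_mul, add_mul]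
  linarith

end Pool.Agent.K9h89.AW
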