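import Mathlib
import Pool.Agent.K9h89.AW.V7
import Pool.Agent.N445.UB.B8

/-!
# The components which depend on the coordinate of the longer side
-/

set_option autoImplicit false
set_option linter.unusedSectionVars false

namespace Pool.Agent.K9h89.AW

open NumberField IsDedekindDomain Finset Pool.Agent.H691R3
open Pool.Agent.TH876.Loc hiding mx mx_nonneg
open Pool.Agent.N753.LS Pool.Agent.N753.SF Pool.Agent.N753.SU Pool.Agent.N445.UB Polynomial

variable {K : Type} [Field K] [NumberField K]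

open Classical in
/-- **a component which depends on `x_0`** -/
theorem comp_fib4 (hRM : StmRM) (hUM : StmUM) (F : MvPolynomial (Fin 2) K)
    (hF : Irreducible F) (he : 1 ≤ F.degreeOf 0)
    {κ : ℝ} (hκ0 : 0 < κ) (hκ1 : κ ≤ 1) :
    T2 K (fun H x => MvPolynomial.eval x F ≠ 0 ∧ ∑ v ∈ ddm F x, Real.log (Nv v) <
      F.degreeOf 0 * hr (aff (x 0)) + F.degreeOf 1 * hr (aff (x 1)) - κ * H ∧
      ∑ v ∈ ddm F x, Real.log (Nv v) < (4 - κ) * H) := by
  obtain ⟨n, CF, hn, hCF, hRF⟩ := hRM K 1 F hF he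
  obtain ⟨c, hc0, hcf, hc⟩ := fib_up hUM F
  obtain ⟨c1, hc10, hlow⟩ := ht_fibm hF he
  obtain ⟨Z, hZ⟩ := zeros1 n hn
  obtain ⟨E, hE⟩ : ∃ E : ℕ, E = ∑ i, F.degreeOf i := ⟨_, rfl⟩
  obtain ⟨e, he'⟩ : ∃ e : ℕ, e = F.degreeOf 0 := ⟨_, rfl⟩
  rw [← he'] at he hRF
  have he0 : (0 : ℝ) < e := by exact_mod_cast he
  have he1 : (1 : ℝ) ≤ e := by exact_mod_cast he
  obtain ⟨ct, hct⟩ : ∃ ct : ℝ, ct = ∑ p ∈ hcf.toFinset, c p := ⟨_, rfl⟩
  have hct0 : 0 ≤ ct := by
    rw [hct]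
    exact Finset.sum_nonneg fun p _ => hc0 p
  obtain ⟨d, hd⟩ : ∃ d : Fin 1 → ℝ, d = fun i => (F.degreeOf (Fin.succ i) : ℝ) := ⟨_, rfl⟩
  have hd0 : ∀ i, 0 ≤ d i := fun i => by rw [hd]; exact Nat.cast_nonneg _
  have hdi : ∀ i, (F.degreeOf (Fin.succ i) : ℝ) = d i := fun i => by rw [hd]
  have hd1 : (F.degreeOf 1 : ℝ) = d 0 := by rw [hd]; rfl
  simp only [hdi] at hc
  have hE' : d 0 + e ≤ E := by
    rw [← hd1, hE, Fin.sum_univ_two, ← he']
    push_cast
    linarith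
  obtain ⟨ν0, hν00, hν01, h2⟩ := fibre_bound4r K e he (E + ct) (by positivity)
    (κ := κ / 2) (by positivity) (by linarith)
  obtain ⟨CM, hCM⟩ : ∃ CM : ℝ, CM = CF := ⟨_, rfl⟩
  have hCM0 : 0 ≤ CM := by rw [hCM]; exact hCF
  obtain ⟨δ, hδ⟩ : ∃ δ : ℝ, δ = min (1 / 64) (ν0 / (2 * (CM + 1))) := ⟨_, rfl⟩
  have hδ0 : 0 < δ := by rw [hδ]; exact lt_min (by norm_num) (by positivity)
  have hδ1 : δ ≤ 1 / 64 := by rw [hδ]; exact min_le_left _ _
  have hδ2 : δ * CM ≤ ν0 / 2 := by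
    have h1 : δ ≤ ν0 / (2 * (CM + 1)) := by rw [hδ]; exact min_le_right _ _
    have h2 := mul_le_mul_of_nonneg_right h1 (show 0 ≤ CM + 1 by linarith)
    have h3 : ν0 / (2 * (CM + 1)) * (CM + 1) = ν0 / 2 := by field_simp
    nlinarith
  obtain ⟨C2, hC2, h2⟩ := h2 δ hδ0
  have hmain : T2 K (fun H x => 2 * c1 / κ < H ∧ MvPolynomial.eval x F ≠ 0 ∧
      ∑ v ∈ ddm F x, Real.log (Nv v) <
      F.degreeOf 0 * hr (aff (x 0)) + F.degreeOf 1 * hr (aff (x 1)) - κ * H ∧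
      ∑ v ∈ ddm F x, Real.log (Nv v) < (4 - κ) * H) := by
    refine T2.fib Z (ν := ν0 / 2) (C := C2 * Real.exp (ν0 / 2)) (by positivity) (by linarith)
      (by positivity) ?_
    intro H hH y hyZ hyH S' hS'
    obtain ⟨hg0, hlow1⟩ := hlow y
    obtain ⟨f, u, Bad, hu, hfg, hfe, hBad, hβ⟩ := hRF (fun _ => y) (hZ y hyZ)
    obtain ⟨L, hL⟩ : ∃ L : ℝ, L = ht (f.map (algebraMap (𝓞 K) K)) := ⟨_, rfl⟩
    have hL' : L = ht (fibm F fun _ => y) := by
      rw [hL, hfg]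
      exact ht_C_mul hu hg0
    have hL2 : L ≤ d 0 * hr (aff y) + ct := by
      rw [hL', hct]
      have := ht_le2 hd0 hc0 hcf hg0 (hc (fun _ => y) hg0)
      rwa [Fin.sum_univ_one] at this
    have hdH : d 0 * hr (aff y) ≤ d 0 * H := mul_le_mul_of_nonneg_left hyH (hd0 0)
    have hfx : ∀ z, aeval z f = u * MvPolynomial.eval (![z, y] : Fin 2 → K) F := by
      intro z
      rw [← eval_map_algebraMap, hfg, eval_mul, eval_C, eval_fibm, cons_vec]
    have h4 := h2 f hfe Bad (fun v hv => ⟨(hBad v hv).1, (hBad v hv).2.1⟩) H hH L hL (by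
      have h7 := mul_le_mul_of_nonneg_right hE' hH
      have h8 : 0 ≤ ct * H := mul_nonneg hct0 hH
      have h9 : (0 : ℝ) ≤ E := Nat.cast_nonneg _
      linarith) S' (by
      intro z hz
      obtain ⟨hzH, hHc, hx0, hxs, hxw⟩ := hS' z hz
      have hfx0 : aeval z f ≠ 0 := by
        rw [hfx]
        exact mul_ne_zero hu hx0
      refine ⟨hzH, hfx0, ?_⟩
      have e1 : ∑ v ∈ dv f z \ Bad, Real.log (Nv v) ≤
          ∑ v ∈ ddm F (![z, y] : Fin 2 → K), Real.log (Nv v) := by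
        refine Finset.sum_le_sum_of_subset_of_nonneg ?_ fun v _ _ => (log_Nv_pos v).le
        intro v hv
        obtain ⟨hva, hvb⟩ := Finset.mem_sdiff.1 hv
        rw [mem_dv hfx0] at hva
        rw [mem_ddm hx0]
        refine ⟨?_, ?_⟩
        · intro i
          fin_cases i
          · exact hva.1
          · exact (hBad v hvb).2.2.1 0
        · have e2 := hva.2
          rw [hfx, (fv v).map_mul, (hBad v hvb).2.2.2, one_mul] at e2
          exact e2
      have e3 : c1 ≤ κ / 2 * H := by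
        rw [div_lt_iff₀ hκ0] at hHc
        linarith
      have e4 : (![z, y] : Fin 2 → K) 0 = z := rfl
      have e5 : (![z, y] : Fin 2 → K) 1 = y := rfl
      rw [e4, e5, ← he'] at hxs
      have e6 : 0 ≤ κ * H := by positivity
      exact ⟨by linarith, by linarith⟩)
    refine h4.trans ?_
    have hβ' : δ * ∑ v ∈ Bad, Real.log (Nv v) ≤ ν0 / 2 + ν0 / 2 * H := by
      have e1 : ∑ v ∈ Bad, Real.log (Nv v) ≤ CM * (1 + H) := by
        refine hβ.trans ?_
        rw [hCM, Fin.sum_univ_one]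
        exact mul_le_mul_of_nonneg_left (by linarith) hCF
      have e2 := mul_le_mul_of_nonneg_left e1 hδ0.le
      have e3 := mul_le_mul_of_nonneg_right hδ2 (show 0 ≤ 1 + H by linarith)
      linarith
    rw [mul_assoc, ← Real.exp_add]
    refine mul_le_mul_of_nonneg_left (Real.exp_le_exp.2 ?_) hC2.le
    linarith
  refine (hmain.or (t2_bdd (2 * c1 / κ))).mono ∅ ?_
  rintro H x - - - - hx
  by_cases h : H ≤ 2 * c1 / κ
  · exact Or.inr h
  · exact Or.inl ⟨not_le.1 h, hx⟩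

end Pool.Agent.K9h89.AW
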