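import Mathlib
import Pool.Agent.K9h89.AW.V9

/-!
# One divisor
-/

set_option autoImplicit false
set_option linter.unusedSectionVars false

namespace Pool.Agent.K9h89.AW

open NumberField IsDedekindDomain Finset Pool.Agent.H691R3
open Pool.Agent.TH876.Loc hiding mx mx_nonneg
open Pool.Agent.N753.LS Pool.Agent.N753.SF Pool.Agent.N753.SU Pool.Agent.N445.UB Polynomial

variable {K : Type} [Field K] [NumberField K]

theorem zero_le_four : (0 : ℝ) ≤ 4 := by norm_num

open Classical in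
/-- **a component which depends on `x_1` only** -/
theorem comp_base4 (hRM : StmRM) (hUM : StmUM) (hZM : StmZM) (hLM : StmLM)
    (hB4 : StmB4) (F : MvPolynomial (Fin 2) K) (hF : Irreducible F) (h0 : F.degreeOf 0 = 0)
    {w : ℝ} (hw0 : 0 < w) (hwE : w ≤ F.degreeOf 1) (hw : w ≤ 4)
    {κ : ℝ} (hκ0 : 0 < κ) (hκ1 : κ ≤ 1) :
    T2 K (fun H x => MvPolynomial.eval x F ≠ 0 ∧ ∑ v ∈ ddm F x, Real.log (Nv v) <
      w * hr (aff (x 1)) - κ * H) := by
  have hPi := irreducible_pb h0 hF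
  obtain ⟨P, hP⟩ : ∃ P, P = pb F := ⟨_, rfl⟩
  rw [← hP] at hPi
  have hev : ∀ x : Fin 2 → K, MvPolynomial.eval x F = MvPolynomial.eval (fun _ => x 1) P :=
    fun x => by rw [hP, eval_pb h0]
  have hdeg : ∑ i, P.degreeOf i = F.degreeOf 1 := by
    rw [Fin.sum_univ_one, hP]
    exact degreeOf_pb Pool.Agent.N199.SU.stmB3 h0 hF.ne_zero
  obtain ⟨C0, hC0, hup⟩ := sum_ddm_le hUM P hPi.ne_zero
  -- the primes at which `x_0` is not integral
  have h1 := ovl_pd (K := K) (κ := κ / 2) (by positivity) (by linarith) hC0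
    (fun y => if MvPolynomial.eval (fun _ => y) P ≠ 0 then ddm P (fun _ => y) else ∅)
  -- the condition on `x_1`
  have h2 := thin_comp4m hRM hUM hZM hLM hB4 P hPi (w := w) (by rw [hdeg]; exact hwE)
    hw (κ := κ / 2) (by positivity) (by linarith)
  obtain ⟨c, hc⟩ : ∃ c : ℝ, c = min 1 (κ / (2 * w)) := ⟨_, rfl⟩
  have hc0 : 0 < c := by rw [hc]; exact lt_min one_pos (by positivity)
  have hc1 : c ≤ 1 := by rw [hc]; exact min_le_left _ _
  have hc2 : c * (2 * w) ≤ κ := by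
    have : c ≤ κ / (2 * w) := by rw [hc]; exact min_le_right _ _
    rwa [le_div_iff₀ (by positivity)] at this
  have h3 := T2.base_thin h2 hc0 hc1 (B := fun H y => MvPolynomial.eval (fun _ => y) P ≠ 0 ∧
    ∑ v ∈ ddm P (fun _ => y), Real.log (Nv v) < w * hr (aff y) - κ / 2 * H) (by
    rintro H1 H y hH1 hH hy ⟨hy0, hy1⟩
    have e1 : 0 ≤ ∑ v ∈ ddm P (fun _ => y), Real.log (Nv v) :=
      Finset.sum_nonneg fun v _ => (log_Nv_pos v).le
    have e2 : w * hr (aff y) ≤ w * H1 := mul_le_mul_of_nonneg_left hy hw0.le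
    have e3 : κ / 2 * H1 ≤ κ / 2 * H := mul_le_mul_of_nonneg_left hH (by positivity)
    refine ⟨?_, hy0, ?_⟩
    · have e4 : κ / 2 * H < w * H1 := by linarith
      have e5 : c * (2 * w) * H ≤ κ * H := mul_le_mul_of_nonneg_right hc2 (hH1.trans hH)
      have e6 : 0 < 2 * w := by positivity
      by_contra hcon
      push Not at hcon
      have e7 := mul_lt_mul_of_pos_right hcon e6
      linarith
    · rw [sub_mul]
      linarith)
  refine (h1.or h3).mono ∅ ?_
  rintro H x hH - hx1 hx0' ⟨hx0, hx⟩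
  have hP0 : MvPolynomial.eval (fun _ => x 1) P ≠ 0 := by rw [← hev]; exact hx0
  by_cases hcase : κ / 2 * H ≤ ∑ v ∈ ddm P (fun _ => x 1) ∩ pd (x 0), Real.log (Nv v)
  · left
    rw [if_pos hP0]
    refine ⟨?_, hcase⟩
    have := hup (x 1) hP0
    exact this.trans (mul_le_mul_of_nonneg_left (by linarith) hC0)
  · right
    refine ⟨hP0, ?_⟩
    push Not at hcase
    have e1 : ddm P (fun _ => x 1) ⊆ ddm F x ∪ (ddm P (fun _ => x 1) ∩ pd (x 0)) := by
      intro v hv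
      rw [Finset.mem_union, Finset.mem_inter, mem_pd]
      by_cases h : 1 < fv v (x 0)
      · exact Or.inr ⟨hv, h⟩
      · left
        rw [mem_ddm hP0] at hv
        rw [mem_ddm hx0, hev]
        refine ⟨fun i => ?_, hv.2⟩
        fin_cases i
        · exact not_lt.1 h
        · exact hv.1 0
    have e2 : ∑ v ∈ ddm P (fun _ => x 1), Real.log (Nv v) ≤ ∑ v ∈ ddm F x, Real.log (Nv v) +
        ∑ v ∈ ddm P (fun _ => x 1) ∩ pd (x 0), Real.log (Nv v) := by
      refine (Finset.sum_le_sum_of_subset_of_nonneg e1 fun v _ _ => (log_Nv_pos v).le).trans ?_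
      have e3 : ∑ v ∈ ddm F x ∪ (ddm P (fun _ => x 1) ∩ pd (x 0)), Real.log (Nv v) +
          ∑ v ∈ ddm F x ∩ (ddm P (fun _ => x 1) ∩ pd (x 0)), Real.log (Nv v) =
          ∑ v ∈ ddm F x, Real.log (Nv v) +
            ∑ v ∈ ddm P (fun _ => x 1) ∩ pd (x 0), Real.log (Nv v) := Finset.sum_union_inter
      have e4 : 0 ≤ ∑ v ∈ ddm F x ∩ (ddm P (fun _ => x 1) ∩ pd (x 0)), Real.log (Nv v) :=
        Finset.sum_nonneg fun v _ => (log_Nv_pos v).le
      linarith
    linarith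

/-- the lower bound for the truncated counting function of a component of bidegree `(a, b)` at a
point the coordinates of which have the heights `s` and `t` -/
noncomputable def tc4 (a b : ℕ) (s t : ℝ) : ℝ :=
  if a + b ≤ 5 then a * s + b * t
  else min (a * s + b * t) (4 * max (if a = 0 then 0 else s) (if b = 0 then 0 else t))

theorem tc4_le (a b : ℕ) (s t : ℝ) : tc4 a b s t ≤ a * s + b * t := by
  unfold tc4
  split_ifs
  · exact le_rfl
  all_goals exact min_le_left _ _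

theorem tc4_le_four {a b : ℕ} (h : ¬ a + b ≤ 5) {s t H : ℝ} (hH : 0 ≤ H) (hs : s ≤ H) (ht : t ≤ H) :
    tc4 a b s t ≤ 4 * H := by
  unfold tc4
  rw [if_neg h]
  refine (min_le_right _ _).trans (mul_le_mul_of_nonneg_left (max_le ?_ ?_) zero_le_four)
  · split_ifs
    · exact hH
    · exact hs
  · split_ifs
    · exact hH
    · exact ht

theorem tc4_comm (a b : ℕ) (s t : ℝ) : tc4 b a t s = tc4 a b s t := by
  unfold tc4
  rw [add_comm b a, add_comm (b * t) (a * s), max_comm]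

open Classical in
/-- **one component** -/
theorem comp_t24 (hT : Tools) (F : MvPolynomial (Fin 2) K) (hF : Irreducible F)
    {κ : ℝ} (hκ0 : 0 < κ) (hκ1 : κ ≤ 1) :
    T2 K (fun H x => MvPolynomial.eval x F ≠ 0 ∧ ∑ v ∈ ddm F x, Real.log (Nv v) <
      tc4 (F.degreeOf 0) (F.degreeOf 1) (hr (aff (x 0))) (hr (aff (x 1))) - κ * H) := by
  have hsum : ∑ i, F.degreeOf i = F.degreeOf 0 + F.degreeOf 1 := Fin.sum_univ_two _
  rcases Nat.eq_zero_or_pos (F.degreeOf 0) with h0 | h0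
  · -- it does not depend on `x_0`
    have h1 : 1 ≤ F.degreeOf 1 := by
      obtain ⟨i, hi⟩ := exists_deg hF
      fin_cases i
      · simp only [Fin.zero_eta] at hi
        omega
      · exact hi
    have h1' : (1 : ℝ) ≤ F.degreeOf 1 := by exact_mod_cast h1
    by_cases h5 : F.degreeOf 1 ≤ 5
    · refine (comp_base hT.rm hT.um hT.zm hT.lm hT.od hT.b4 F hF h0 (w := F.degreeOf 1)
        (by linarith) le_rfl (Or.inl h5) hκ0 hκ1).mono ∅ ?_
      rintro H x hH - - - ⟨hx0, hx⟩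
      refine ⟨hx0, hx.trans_le ?_⟩
      have := tc4_le (F.degreeOf 0) (F.degreeOf 1) (hr (aff (x 0))) (hr (aff (x 1)))
      rw [h0] at this ⊢
      push_cast at this
      linarith
    · refine (comp_base4 hT.rm hT.um hT.zm hT.lm hT.b4 F hF h0 (w := 4)
        (by norm_num) (by exact_mod_cast (by omega : 4 ≤ F.degreeOf 1)) le_rfl
        hκ0 hκ1).mono ∅ ?_
      rintro H x hH - - - ⟨hx0, hx⟩
      refine ⟨hx0, hx.trans_le ?_⟩
      rw [h0]
      unfold tc4
      rw [if_neg (by omega), if_pos rfl, if_neg (by omega), max_eq_right (hr_aff_nonneg _)]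
      have := min_le_right (((0 : ℕ) : ℝ) * hr (aff (x 0)) + F.degreeOf 1 * hr (aff (x 1)))
        (4 * hr (aff (x 1)))
      linarith
  · by_cases h5 : F.degreeOf 0 + F.degreeOf 1 ≤ 5
    · refine (comp_fib hT.rm hT.um hT.od F hF h0 ((F.degreeOf 0 : ℝ) + F.degreeOf 1)
        (Or.inl (by rw [hsum]; exact h5)) hκ0 hκ1).mono ∅ ?_
      rintro H x hH - hx1 hx0' ⟨hx0, hx⟩
      have h2 := tc4_le (F.degreeOf 0) (F.degreeOf 1) (hr (aff (x 0))) (hr (aff (x 1)))
      refine ⟨hx0, by linarith, ?_⟩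
      have h3 : (F.degreeOf 0 : ℝ) * hr (aff (x 0)) ≤ F.degreeOf 0 * H :=
        mul_le_mul_of_nonneg_left hx0' (Nat.cast_nonneg _)
      have h4 : (F.degreeOf 1 : ℝ) * hr (aff (x 1)) ≤ F.degreeOf 1 * H :=
        mul_le_mul_of_nonneg_left hx1 (Nat.cast_nonneg _)
      rw [sub_mul, add_mul]
      linarith
    · refine (comp_fib4 hT.rm hT.um F hF h0 hκ0 hκ1).mono ∅ ?_
      rintro H x hH - hx1 hx0' ⟨hx0, hx⟩
      have h2 := tc4_le (F.degreeOf 0) (F.degreeOf 1) (hr (aff (x 0))) (hr (aff (x 1)))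
      have h3 := tc4_le_four h5 hH hx0' hx1
      refine ⟨hx0, by linarith, ?_⟩
      rw [sub_mul]
      linarith

/-- the lower bounds for the components -/
noncomputable def tg4 {r : ℕ} (F : Fin r → MvPolynomial (Fin 2) K) (x : Fin 2 → K) :
    Fin r ⊕ Fin 2 → ℝ :=
  Sum.elim (fun j => tc4 ((F j).degreeOf 0) ((F j).degreeOf 1) (hr (aff (x 0))) (hr (aff (x 1))))
    (fun i => hr (aff (x i)))

/-- the lower bound for the divisor -/
noncomputable def TT4 {r : ℕ} (F : Fin r → MvPolynomial (Fin 2) K) (I : Finset (Fin 2))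
    (x : Fin 2 → K) : ℝ := ∑ k ∈ Finset.univ.disjSum I, tg4 F x k

open Classical in
/-- **one divisor** -/
theorem one_div4 (hT : Tools) {r : ℕ} (F : Fin r → MvPolynomial (Fin 2) K) (I : Finset (Fin 2))
    (hF : ∀ j, Irreducible (F j)) (hFF : ∀ j k, j ≠ k → ¬ Associated (F j) (F k))
    {κ : ℝ} (hκ0 : 0 < κ) (hκ1 : κ ≤ 1) :
    T2 K (fun H x => (∀ j, MvPolynomial.eval x (F j) ≠ 0) ∧
      ∑ v ∈ UU F I x, Real.log (Nv v) < TT4 F I x - κ * H) := by
  obtain ⟨s, hs⟩ : ∃ s : Finset (Fin r ⊕ Fin 2), s = Finset.univ.disjSum I := ⟨_, rfl⟩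
  obtain ⟨n, hn⟩ : ∃ n : ℝ, n = s.card := ⟨_, rfl⟩
  have hn0 : 0 ≤ n := by rw [hn]; exact Nat.cast_nonneg _
  obtain ⟨κ', hκ'⟩ : ∃ κ' : ℝ, κ' = κ / (n + 1) ^ 2 := ⟨_, rfl⟩
  have hκ'0 : 0 < κ' := by rw [hκ']; positivity
  have hκ'n : κ' * (n + 1) ^ 2 = κ := by rw [hκ']; field_simp
  have hκ'1 : κ' ≤ 1 := by
    have h1 : 1 ≤ (n + 1) ^ 2 := by nlinarith
    nlinarith
  have h1 : T2 K (fun H x => ∃ k ∈ s, (∀ j, MvPolynomial.eval x (F j) ≠ 0) ∧
      ∑ v ∈ cp F x k, Real.log (Nv v) < tg4 F x k - κ' * H) := by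
    refine T2.ex s ?_
    rintro (j | i) -
    · refine (comp_t24 hT (F j) (hF j) hκ'0 hκ'1).mono ∅ ?_
      rintro H x - - - - ⟨hx0, hx⟩
      exact ⟨hx0 j, hx⟩
    · fin_cases i
      · refine (comp_inf0 hT.rm hT.um hT.zm hT.lm hT.od hT.b4 hκ'0 hκ'1).mono ∅ ?_
        rintro H x - - - - ⟨hx0, hx⟩
        exact hx
      · refine (comp_inf1 hT.rm hT.um hT.zm hT.lm hT.od hT.b4 hκ'0 hκ'1).mono ∅ ?_
        rintro H x - - - - ⟨hx0, hx⟩
        exact hx
  have h2 : T2 K (fun H x => ∃ k ∈ s, ∃ l ∈ s.erase k, (∀ j, MvPolynomial.eval x (F j) ≠ 0) ∧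
      0 < H ∧ κ' * H ≤ ∑ v ∈ cp F x k ∩ cp F x l, Real.log (Nv v)) := by
    refine T2.ex s fun k hk => T2.ex (s.erase k) fun l hl => ?_
    have hkl : k ≠ l := (Finset.ne_of_mem_erase hl).symm
    rcases k with j | i
    · rcases l with k | i
      · refine (ovl_comp hT.um hT.om (F j) (F k) (hF j) (hF k)
          (hFF j k fun h => hkl (by rw [h])) hκ'0 hκ'1).mono ∅ ?_
        rintro H x - - - - ⟨hx0, -, hx⟩
        exact ⟨hx0 j, hx0 k, hx⟩
      · refine t2_false ?_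
        rintro H x hH ⟨hx0, hH0, hx⟩
        have h3 : ∑ v ∈ cp F x (Sum.inl j) ∩ cp F x (Sum.inr i), Real.log (Nv v) = 0 := by
          show ∑ v ∈ ddm (F j) x ∩ pd (x i), Real.log (Nv v) = 0
          rw [ddm_pd_disj (hx0 j), Finset.sum_empty]
        rw [h3] at hx
        have := mul_pos hκ'0 hH0
        linarith
    · rcases l with k | i'
      · refine t2_false ?_
        rintro H x hH ⟨hx0, hH0, hx⟩
        have h3 : ∑ v ∈ cp F x (Sum.inr i) ∩ cp F x (Sum.inl k), Real.log (Nv v) = 0 := by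
          show ∑ v ∈ pd (x i) ∩ ddm (F k) x, Real.log (Nv v) = 0
          rw [Finset.inter_comm, ddm_pd_disj (hx0 k), Finset.sum_empty]
        rw [h3] at hx
        have := mul_pos hκ'0 hH0
        linarith
      · refine (ovl_inf (K := K) hκ'0 hκ'1).mono ∅ ?_
        rintro H x - - - - ⟨hx0, -, hx⟩
        refine hx.trans (le_of_eq ?_)
        have hii : i ≠ i' := fun h => hkl (by rw [h])
        have hcase : (i = 0 ∧ i' = 1) ∨ (i = 1 ∧ i' = 0) := by
          fin_cases i <;> fin_cases i' <;> simp_all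
        rcases hcase with ⟨rfl, rfl⟩ | ⟨rfl, rfl⟩
        · show ∑ v ∈ pd (x 0) ∩ pd (x 1), Real.log (Nv v) = _
          rw [Finset.inter_comm]
        · rfl
  refine ((h1.or h2).or (t2_bdd 0)).mono ∅ ?_
  rintro H x hH - hx1 hx0' ⟨hx0, hx⟩
  rcases hH.eq_or_lt with hH0 | hH0
  · exact Or.inr hH0.ge
  left
  by_contra hcon
  rw [not_or] at hcon
  obtain ⟨hc1, hc2⟩ := hcon
  push Not at hc1 hc2
  have hb := bonf s (cp F x) (fun v => Real.log (Nv v)) (fun v => (log_Nv_pos v).le)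
  have e1 : ∑ k ∈ s, (tg4 F x k - κ' * H) ≤ ∑ k ∈ s, ∑ v ∈ cp F x k, Real.log (Nv v) :=
    Finset.sum_le_sum fun k hk => hc1 k hk hx0
  have e2 : ∑ k ∈ s, ∑ l ∈ s, (if k = l then (0 : ℝ) else
      ∑ v ∈ cp F x k ∩ cp F x l, Real.log (Nv v)) ≤ ∑ k ∈ s, ∑ l ∈ s, κ' * H := by
    refine Finset.sum_le_sum fun k hk => Finset.sum_le_sum fun l hl => ?_
    split_ifs with h
    · positivity
    · exact (hc2 k hk l (Finset.mem_erase.2 ⟨fun h' => h h'.symm, hl⟩) hx0 hH0).le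
  rw [Finset.sum_sub_distrib, Finset.sum_const, nsmul_eq_mul, ← hn] at e1
  simp only [Finset.sum_const, nsmul_eq_mul, ← hn] at e2
  have e3 : UU F I x = s.biUnion (cp F x) := by rw [hs]; rfl
  have e4 : TT4 F I x = ∑ k ∈ s, tg4 F x k := by rw [hs]; rfl
  rw [e3, e4] at hx
  have e5 : κ * H = κ' * H + 2 * (n * (κ' * H)) + n * (n * (κ' * H)) := by
    rw [← hκ'n]; ring
  have e6 : 0 ≤ n * (κ' * H) := by positivity
  have e7 : 0 < κ' * H := by positivity
  linarith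

end Pool.Agent.K9h89.AW
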