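import Mathlib
import Pool.Agent.K9h89.AW.V10

/-!
# One divisor, all boxes
-/

set_option autoImplicit false
set_option linter.unusedSectionVars false

namespace Pool.Agent.K9h89.AW

open NumberField IsDedekindDomain Finset Pool.Agent.H691R3
open Pool.Agent.TH876.Loc hiding mx mx_nonneg
open Pool.Agent.N753.LS Pool.Agent.N753.SF Pool.Agent.N753.SU Pool.Agent.N445.UB Polynomial

variable {K : Type} [Field K] [NumberField K]

/-- the exceptional points of a divisor -/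
def Ex4 {r : ℕ} (F : Fin r → MvPolynomial (Fin 2) K) (I : Finset (Fin 2)) (κ : ℝ) :
    Set (Fin 2 → K) :=
  {x | (∀ j, MvPolynomial.eval x (F j) ≠ 0) ∧
    ∑ v ∈ UU F I x, Real.log (Nv v) < TT4 F I x - κ * htm x}

theorem half_exc4 (hT : Tools) {r : ℕ} (F : Fin r → MvPolynomial (Fin 2) K) (I : Finset (Fin 2))
    (hF : ∀ j, Irreducible (F j)) (hFF : ∀ j k, j ≠ k → ¬ Associated (F j) (F k))
    {κ : ℝ} (hκ0 : 0 < κ) (hκ1 : κ ≤ 1) :
    ∃ Z : Finset K, Box {x : Fin 2 → K | x 1 ∉ Z ∧ hr (aff (x 1)) ≤ hr (aff (x 0)) ∧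
      x ∈ Ex4 F I κ} := by
  obtain ⟨Z, hZ⟩ := half_box ((one_div4 hT F I hF hFF (κ := κ / 2) (by positivity)
    (by linarith)).or (t2_bdd 1))
  refine ⟨Z, hZ.mono ?_⟩
  rintro x ⟨h1, h2, h3, h4⟩
  refine ⟨h1, h2, ?_⟩
  obtain ⟨i, hi⟩ : ∃ i : ℕ, i = ⌊hr (aff (x 0))⌋₊ := ⟨_, rfl⟩
  rw [← hi]
  rcases Nat.eq_zero_or_pos i with h0 | h0
  · right
    rw [h0]
    norm_num
  · left
    refine ⟨h3, h4.trans_le ?_⟩
    have h5 : (i : ℝ) ≤ hr (aff (x 0)) := by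
      rw [hi]
      exact Nat.floor_le (hr_aff_nonneg _)
    have h6 : (1 : ℝ) ≤ i := by exact_mod_cast h0
    have h7 : hr (aff (x 0)) ≤ htm x := by
      rw [hr_aff]
      exact le_htm x 0
    have h8 := mul_le_mul_of_nonneg_left (show ((i : ℝ) + 1) / 2 ≤ htm x by linarith) hκ0.le
    linarith

theorem TT4_eq {r : ℕ} (F : Fin r → MvPolynomial (Fin 2) K) (I : Finset (Fin 2))
    (x : Fin 2 → K) : TT4 F I x = ∑ j, tc4 ((F j).degreeOf 0) ((F j).degreeOf 1) (hr (aff (x 0)))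
      (hr (aff (x 1))) + ∑ i ∈ I, hr (aff (x i)) := by
  unfold TT4 tg4
  rw [Finset.sum_disjSum]
  rfl

theorem TT4_sw (hB4 : StmB4) {r : ℕ} (F : Fin r → MvPolynomial (Fin 2) K) (I : Finset (Fin 2))
    (x : Fin 2 → K) : TT4 (fun j => MvPolynomial.rename (Equiv.swap 0 1) (F j))
      (I.map (Equiv.swap 0 1).toEmbedding) (sw x) = TT4 F I x := by
  rw [TT4_eq, TT4_eq, sw_zero, sw_one]
  congr 1
  · refine Finset.sum_congr rfl fun j _ => ?_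
    rw [deg_sw0 hB4, deg_sw1 hB4, tc4_comm]
  · rw [Finset.sum_map]
    refine Finset.sum_congr rfl fun i _ => ?_
    simp [sw]

theorem mem_Ex4_sw (hB4 : StmB4) {r : ℕ} (F : Fin r → MvPolynomial (Fin 2) K)
    (I : Finset (Fin 2)) {κ : ℝ} {x : Fin 2 → K} (hx : x ∈ Ex4 F I κ) :
    sw x ∈ Ex4 (fun j => MvPolynomial.rename (Equiv.swap 0 1) (F j))
      (I.map (Equiv.swap 0 1).toEmbedding) κ := by
  obtain ⟨h1, h2⟩ := hx
  refine ⟨fun j => ?_, ?_⟩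
  · rw [eval_sw hB4]
    exact h1 j
  · rw [UU_sw hB4 F I h1, TT4_sw hB4, htm_sw]
    exact h2

/-- **one divisor, all boxes** -/
theorem box_exc4 (hT : Tools) {r : ℕ} (F : Fin r → MvPolynomial (Fin 2) K) (I : Finset (Fin 2))
    (hF : ∀ j, Irreducible (F j)) (hFF : ∀ j k, j ≠ k → ¬ Associated (F j) (F k))
    {κ : ℝ} (hκ0 : 0 < κ) (hκ1 : κ ≤ 1) :
    ∃ Z : Finset K, Box {x : Fin 2 → K | x 0 ∉ Z ∧ x 1 ∉ Z ∧ x ∈ Ex4 F I κ} := by
  classical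
  obtain ⟨Z1, h1⟩ := half_exc4 hT F I hF hFF hκ0 hκ1
  obtain ⟨Z2, h2⟩ := half_exc4 hT (fun j => MvPolynomial.rename (Equiv.swap 0 1) (F j))
    (I.map (Equiv.swap 0 1).toEmbedding) (fun j => (hT.b4 K 1 (F j) _).1 (hF j))
    (fun j k hjk => (hT.b4 K 1 (F j) _).2.1 (F k) (hFF j k hjk)) hκ0 hκ1
  refine ⟨Z1 ∪ Z2, (h1.union h2.swap).mono ?_⟩
  rintro x ⟨e0, e1, e2⟩
  rw [Finset.mem_union, not_or] at e0 e1
  rcases le_total (hr (aff (x 1))) (hr (aff (x 0))) with h | h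
  · exact Or.inl ⟨e1.1, h, e2⟩
  · refine Or.inr ?_
    refine ⟨?_, ?_, mem_Ex4_sw hT.b4 F I e2⟩
    · rw [sw_one]
      exact e0.2
    · rw [sw_one, sw_zero]
      exact h

end Pool.Agent.K9h89.AW
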