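import Mathlib
import Pool.Agent.K9h89.AW.V11

/-!
# One exceptional set for all divisors
-/

set_option autoImplicit false
set_option linter.unusedSectionVars false

namespace Pool.Agent.K9h89.AW

open NumberField IsDedekindDomain Finset Pool.Agent.H691R3
open Pool.Agent.TH876.Loc hiding mx mx_nonneg
open Pool.Agent.N753.LS Pool.Agent.N753.SF Pool.Agent.N753.SU Pool.Agent.N445.UB Polynomial

variable {K : Type} [Field K] [NumberField K]

variable (K) in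
open Classical in
/-- **one exceptional set for all divisors** -/
theorem all_box4 (hT : Tools) :
    ∃ E : Set (Fin 2 → K), (∀ H0 H1 : ℝ, 0 ≤ H0 → 0 ≤ H1 → ((E ∩ bx2 K H0 H1).ncard : ℝ) ≤
        2 * Real.exp (2 * H0 + 2 * H1 - √(max H0 H1))) ∧
      ∀ (r : ℕ) (F : Fin r → MvPolynomial (Fin 2) K) (I : Finset (Fin 2)),
        (∀ j, Irreducible (F j)) → (∀ j k, j ≠ k → ¬ Associated (F j) (F k)) → ∀ κ : ℝ, 0 < κ →
        ∃ (Z : Finset K) (h0 : ℝ), ∀ x : Fin 2 → K, x ∉ E → x 0 ∉ Z → x 1 ∉ Z → h0 ≤ htm x →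
          (∀ j, MvPolynomial.eval x (F j) ≠ 0) →
            TT4 F I x - κ * htm x ≤ ∑ v ∈ UU F I x, Real.log (Nv v) := by
  have hc := countable_mv K 2
  obtain ⟨e, he⟩ := exists_surjective_nat
    ((Σ r : ℕ, Fin r → MvPolynomial (Fin 2) K) × Finset (Fin 2) × ℕ)
  have hex : ∀ d : (Σ r : ℕ, Fin r → MvPolynomial (Fin 2) K) × Finset (Fin 2) × ℕ,
      ∃ Z : Finset K, ((∀ j, Irreducible (d.1.2 j)) ∧
        (∀ j k, j ≠ k → ¬ Associated (d.1.2 j) (d.1.2 k))) →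
          Box {x : Fin 2 → K | x 0 ∉ Z ∧ x 1 ∉ Z ∧ x ∈ Ex4 d.1.2 d.2.1 (1 / (d.2.2 + 1 : ℝ))} := by
    intro d
    by_cases hd : (∀ j, Irreducible (d.1.2 j)) ∧
        (∀ j k, j ≠ k → ¬ Associated (d.1.2 j) (d.1.2 k))
    · obtain ⟨Z, hZ⟩ := box_exc4 hT d.1.2 d.2.1 hd.1 hd.2 (κ := 1 / (d.2.2 + 1 : ℝ))
        (by positivity) (by
          rw [div_le_one (by positivity)]
          linarith [(Nat.cast_nonneg d.2.2 : (0 : ℝ) ≤ (d.2.2 : ℝ))])
      exact ⟨Z, fun _ => hZ⟩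
    · exact ⟨∅, fun h => absurd h hd⟩
  choose Z hZ using hex
  obtain ⟨T, h, hT1, hT2⟩ := diag_box (K := K)
    (fun n => if (∀ j, Irreducible ((e n).1.2 j)) ∧
      (∀ j k, j ≠ k → ¬ Associated ((e n).1.2 j) ((e n).1.2 k)) then
        {x : Fin 2 → K | x 0 ∉ Z (e n) ∧ x 1 ∉ Z (e n) ∧
          x ∈ Ex4 (e n).1.2 (e n).2.1 (1 / ((e n).2.2 + 1 : ℝ))} else ∅) (by
      intro n
      beta_reduce
      split_ifs with hn
      · exact hZ (e n) hn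
      · exact box_empty)
  refine ⟨T, hT2, ?_⟩
  intro r F I hF hFF κ hκ
  obtain ⟨k, hk⟩ := exists_nat_gt (1 / κ)
  have hk2 : 1 / (k + 1 : ℝ) ≤ κ := by
    rw [div_lt_iff₀ hκ] at hk
    rw [div_le_iff₀ (by positivity)]
    nlinarith
  obtain ⟨n, hn⟩ := he (⟨r, F⟩, I, k)
  refine ⟨Z (⟨r, F⟩, I, k), h n, fun x hxT hx0' hx1' hxh hx0 => ?_⟩
  have h1 : x ∉ Ex4 F I (1 / (k + 1 : ℝ)) := by
    intro hx
    have h2 := hT1 n x (by
      rw [hn, if_pos ⟨hF, hFF⟩]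
      exact ⟨hx0', hx1', hx⟩) hxT
    linarith
  have h0 : 0 ≤ htm x := by
    have h2 := le_htm x 0
    rw [← hr_aff] at h2
    exact (hr_aff_nonneg _).trans h2
  have h3 : ¬ ∑ v ∈ UU F I x, Real.log (Nv v) < TT4 F I x - 1 / (k + 1 : ℝ) * htm x :=
    fun h => h1 ⟨hx0, h⟩
  have h4 := mul_le_mul_of_nonneg_right hk2 h0
  have h5 := not_lt.1 h3
  linarith

end Pool.Agent.K9h89.AW
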