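import Pool.Agent.Results.MP_542436_nt.AnticanonicalWeight

/-!
# The inequalities with the degrees follow from the inequality with the weights
-/

set_option autoImplicit false

namespace Pool.Agent.K9h89.AW

open NumberField IsDedekindDomain Height
open Pool.Agent.Results.MP_542436_nt.AnticanonicalWeight

variable {K : Type} [Field K] [NumberField K]

theorem weight_small {F : MvPolynomial (Fin 2) K} (hF : F.degreeOf 0 + F.degreeOf 1 ≤ 5)
    (x : Fin 2 → K) : weight F x =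
      F.degreeOf 0 * logHeight₁ (x 0) + F.degreeOf 1 * logHeight₁ (x 1) := by
  unfold weight
  rw [if_pos hF]

theorem conj_of_weights {r : ℕ} (F : Fin r → MvPolynomial (Fin 2) K) (I : Finset (Fin 2))
    (x : Fin 2 → K) {N ε : ℝ}
    (h : ∑ j, weight (F j) x + ∑ i ∈ I, logHeight₁ (x i) -
      ε * (logHeight₁ (x 0) + logHeight₁ (x 1)) ≤ N) :
    ((∀ j, (F j).degreeOf 0 + (F j).degreeOf 1 ≤ 5) →
      ∑ i, ((degree F I i : ℝ) - ε) * logHeight₁ (x i) ≤ N) ∧
    (∑ j, loss₀ (F j) ≤ 2 → ∑ j, loss₁ (F j) ≤ 2 → ∑ j, loss₂ (F j) ≤ 4 →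
      ∑ i, ((degree F I i : ℝ) - 2 - ε) * logHeight₁ (x i) ≤ N) := by
  have hs : 0 ≤ logHeight₁ (x 0) := zero_le_logHeight₁ _
  have ht : 0 ≤ logHeight₁ (x 1) := zero_le_logHeight₁ _
  have hsum := sum_degree F I x
  refine ⟨fun hsm => ?_, fun hl0 hl1 hl2 => ?_⟩
  · have h3 : ∑ j, weight (F j) x = ∑ j, ((F j).degreeOf 0 * logHeight₁ (x 0) +
      (F j).degreeOf 1 * logHeight₁ (x 1)) :=
      Finset.sum_congr rfl fun j _ => weight_small (hsm j) x
    have h4 : ∑ i, ((degree F I i : ℝ) - ε) * logHeight₁ (x i) =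
        ∑ i, (degree F I i : ℝ) * logHeight₁ (x i) -
          ε * (logHeight₁ (x 0) + logHeight₁ (x 1)) := by
      rw [Fin.sum_univ_two, Fin.sum_univ_two]
      ring
    rw [h4]
    linarith
  · obtain ⟨s, hs'⟩ : ∃ s : ℝ, s = logHeight₁ (x 0) := ⟨_, rfl⟩
    obtain ⟨t, ht'⟩ : ∃ t : ℝ, t = logHeight₁ (x 1) := ⟨_, rfl⟩
    obtain ⟨m, hm'⟩ : ∃ m : ℝ, m = min s t := ⟨_, rfl⟩
    have hm0 : 0 ≤ m := by rw [hm', hs', ht']; exact le_min hs ht
    have hms : 0 ≤ s - m := by rw [hm']; exact sub_nonneg.2 (min_le_left _ _)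
    have hmt : 0 ≤ t - m := by rw [hm']; exact sub_nonneg.2 (min_le_right _ _)
    have h3 : ∑ j, ((F j).degreeOf 0 * logHeight₁ (x 0) +
        (F j).degreeOf 1 * logHeight₁ (x 1)) ≤ ∑ j, weight (F j) x +
          ((∑ j, (loss₀ (F j) : ℝ)) * (s - m) + (∑ j, (loss₁ (F j) : ℝ)) * (t - m) +
            (∑ j, (loss₂ (F j) : ℝ)) * m) := by
      rw [Finset.sum_mul, Finset.sum_mul, Finset.sum_mul, ← Finset.sum_add_distrib,
        ← Finset.sum_add_distrib, ← Finset.sum_add_distrib, ← hs', ← ht']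
      exact Finset.sum_le_sum fun j _ => le_weight (F j) x hs' ht' hm'
    have h40 : (∑ j, (loss₀ (F j) : ℝ)) ≤ 2 := by exact_mod_cast hl0
    have h41 : (∑ j, (loss₁ (F j) : ℝ)) ≤ 2 := by exact_mod_cast hl1
    have h42 : (∑ j, (loss₂ (F j) : ℝ)) ≤ 4 := by exact_mod_cast hl2
    have h50 := mul_le_mul_of_nonneg_right h40 hms
    have h51 := mul_le_mul_of_nonneg_right h41 hmt
    have h52 := mul_le_mul_of_nonneg_right h42 hm0
    have h6 : ∑ i, ((degree F I i : ℝ) - 2 - ε) * logHeight₁ (x i) =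
        ∑ i, (degree F I i : ℝ) * logHeight₁ (x i) -
          2 * (logHeight₁ (x 0) + logHeight₁ (x 1)) -
          ε * (logHeight₁ (x 0) + logHeight₁ (x 1)) := by
      rw [Fin.sum_univ_two, Fin.sum_univ_two]
      ring
    rw [h6]
    linarith

end Pool.Agent.K9h89.AW
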