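import Pool.Agent.K9h89.AW.V13
import Pool.Agent.K9h83.VN.One

/-!
# One divisor: power saving, with the weights `4 max`
-/

set_option autoImplicit false

namespace Pool.Agent.K9h89.AW

open NumberField IsDedekindDomain Height
open Pool.Agent.Results.MP_542436_nt.AnticanonicalWeight
open Pool.Agent.N753.SU Pool.Agent.N753.LS Pool.Agent.H691R3 Pool.Agent.N445.UB
open Pool.Agent.K9h83.VN (PS box_fin)

/-- the three inequalities at the point `x` -/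
def Ineq4 {K : Type} [Field K] [NumberField K] {r : ℕ} (S : Set (HeightOneSpectrum (𝓞 K)))
    (F : Fin r → MvPolynomial (Fin 2) K) (I : Finset (Fin 2)) (ε C : ℝ) (x : Fin 2 → K) : Prop :=
  ∑ j, weight (F j) x + ∑ i ∈ I, logHeight₁ (x i) -
      ε * (logHeight₁ (x 0) + logHeight₁ (x 1)) ≤ counting S F I x + C ∧
    ((∀ j, (F j).degreeOf 0 + (F j).degreeOf 1 ≤ 5) →
      ∑ i, ((degree F I i : ℝ) - ε) * logHeight₁ (x i) ≤ counting S F I x + C) ∧
    (∑ j, loss₀ (F j) ≤ 2 → ∑ j, loss₁ (F j) ≤ 2 → ∑ j, loss₂ (F j) ≤ 4 →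
      ∑ i, ((degree F I i : ℝ) - 2 - ε) * logHeight₁ (x i) ≤ counting S F I x + C)

theorem ineq_one4 (K : Type) [Field K] [NumberField K] (r : ℕ)
    (F : Fin r → MvPolynomial (Fin 2) K)
    (I : Finset (Fin 2)) (hF : ∀ j, Irreducible (F j))
    (hFF : ∀ j k, j ≠ k → ¬ Associated (F j) (F k)) (ε : ℝ) (hε : 0 < ε) :
    ∃ (Z : Finset K) (E : Set (Fin 2 → K)) (ν C₀ : ℝ), 0 < ν ∧ ν ≤ 1 ∧ 0 < C₀ ∧ PS E ν C₀ ∧
      ∀ S : Set (HeightOneSpectrum (𝓞 K)), S.Finite → ∃ C : ℝ, ∀ x : Fin 2 → K, x ∉ E →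
        x 0 ∉ Z → x 1 ∉ Z → (∀ j, MvPolynomial.eval x (F j) ≠ 0) → Ineq4 S F I ε C x := by
  classical
  set κ := min ε 1 with hκ
  have hκ0 : 0 < κ := lt_min hε one_pos
  have hκε : κ ≤ ε := min_le_left _ _
  have hh : ∀ z : K, hr (aff z) = logHeight₁ z := fun z => hr_aff z
  obtain ⟨Z, ν, C₀, hν, hν1, hC₀, hbox⟩ := box_exc4 tools F I hF hFF hκ0 (min_le_right _ _)
  refine ⟨Z, {x : Fin 2 → K | x 0 ∉ Z ∧ x 1 ∉ Z ∧ x ∈ Ex4 F I κ}, ν, C₀, hν, hν1, hC₀, ?_, ?_⟩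
  · intro H₀ H₁ h0 h1
    set T := {x : Fin 2 → K | x ∈ {x : Fin 2 → K | x 0 ∉ Z ∧ x 1 ∉ Z ∧ x ∈ Ex4 F I κ} ∧
      logHeight₁ (x 0) ≤ H₀ ∧ logHeight₁ (x 1) ≤ H₁} with hT
    have hfin : T.Finite := (box_fin K H₀ H₁).subset fun x hx => hx.2
    rw [Set.ncard_eq_toFinset_card T hfin]
    refine hbox H₀ H₁ h0 h1 _ fun x hx => ?_
    rw [Set.Finite.mem_toFinset] at hx
    rw [hh, hh]
    exact hx
  · intro S hS
    have hF0 : ∀ j, F j ≠ 0 := fun j => (hF j).ne_zero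
    have hcount : ∀ x, counting S F I x = cnt1 S F I x := fun x => rfl
    obtain ⟨C1, hC1, h1⟩ := cnt1_ge hS F hF0 I
    refine ⟨C1, ?_⟩
    intro x hxE hx0 hx1 hx
    have hs : 0 ≤ logHeight₁ (x 0) := zero_le_logHeight₁ _
    have ht : 0 ≤ logHeight₁ (x 1) := zero_le_logHeight₁ _
    have hm : htm x ≤ logHeight₁ (x 0) + logHeight₁ (x 1) := by
      refine htm_le two_pos fun i => ?_
      fin_cases i
      · exact le_add_of_nonneg_right ht
      · exact le_add_of_nonneg_left hs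
    have hεm := mul_le_mul_of_nonneg_left hm hκ0.le
    have hεm' := mul_le_mul_of_nonneg_right hκε
      (show 0 ≤ logHeight₁ (x 0) + logHeight₁ (x 1) by linarith)
    have hTT := TT_weight F I x
    have hmainx : ∑ j, weight (F j) x + ∑ i ∈ I, logHeight₁ (x i) -
        ε * (logHeight₁ (x 0) + logHeight₁ (x 1)) ≤ counting S F I x + C1 := by
      rw [hcount]
      have h3 : ¬ ∑ v ∈ UU F I x, Real.log (Nv v) < TT4 F I x - κ * htm x :=
        fun h => hxE ⟨hx0, hx1, hx, h⟩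
      have h4 := h1 x hx
      rw [hTT] at h3
      linarith [not_lt.1 h3]
    exact ⟨hmainx, conj_of_weights F I x hmainx⟩

end Pool.Agent.K9h89.AW
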