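import Mathlib
import Pool.Agent.K9h89.AW.W5
import Pool.Agent.N753.SU.NL3

/-!
# The number of the points of a fibre with radical less than four times the height
-/

set_option autoImplicit false
set_option linter.unusedSectionVars false

namespace Pool.Agent.K9h89.AW

open NumberField IsDedekindDomain Finset Pool.Agent.H691R3
open Pool.Agent.TH876.Loc hiding mx
open Pool.Agent.N753.LS Pool.Agent.N753.SF Pool.Agent.N753.SU Polynomial

theorem exists_low (s : Finset ℕ) (g : ℕ → ℝ) (hg : ∀ k, 0 < g k) :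
    ∃ m : ℝ, 0 < m ∧ ∀ k ∈ s, m ≤ g k := by
  classical
  induction s using Finset.induction_on with
  | empty => exact ⟨1, one_pos, fun k hk => absurd hk (Finset.notMem_empty k)⟩
  | insert a s _ ih =>
    obtain ⟨m, hm, h⟩ := ih
    refine ⟨min m (g a), lt_min hm (hg a), fun k hk => ?_⟩
    rcases Finset.mem_insert.1 hk with rfl | hk
    · exact min_le_right _ _
    · exact (min_le_left _ _).trans (h k hk)

variable {K : Type} [Field K] [NumberField K]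

variable (K) in
open Classical in
/-- **the points divisible by a power of a large prime, the rest having a small radical** -/
theorem count_large (e : ℕ) (he : 1 ≤ e) (R : ℝ) (hR : 0 ≤ R) {κ : ℝ} (hκ0 : 0 < κ)
    (hκ1 : κ ≤ 1) : ∃ C0 ν0 : ℝ, 0 ≤ C0 ∧ 0 < ν0 ∧ ν0 ≤ 1 ∧ ∀ δ : ℝ, 0 < δ → ∃ C : ℝ, 0 < C ∧
    ∀ f : (𝓞 K)[X], f.natDegree = e → ∀ Bad : Finset (Pr K),
      (∀ v ∉ Bad, Good f v ∧ GoodS f v) → ∀ H : ℝ, 0 ≤ H →
      ht (f.map (algebraMap (𝓞 K) K)) + e * H ≤ R * (1 + H) →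
      (∀ z : K, 2 * hr (aff z) ≤ (2 - 3 * κ) * H + C0 → aeval z f ≠ 0) →
      ∀ S : Finset K, (∀ x ∈ S, hr (aff x) ≤ H ∧ aeval x f ≠ 0 ∧
        ∃ v0, v0 ∉ Bad ∧ 2 ≤ nu f v0 x ∧ (2 - κ) * H ≤ Real.log (Nv v0) ∧
          ∑ v ∈ (dv f x \ Bad).erase v0, Real.log (Nv v) ≤ (2 - 3 * κ) * H) → κ ≤ 1 / 2 →
      (S.card : ℝ) ≤ C * Real.exp ((2 - ν0) * H + δ * ∑ v ∈ Bad, Real.log (Nv v)) := by
  obtain ⟨C0, hC0, hz⟩ := exists_z K
  have hod : ∀ q : ℕ, ∃ la : ℝ, 0 < la ∧ la < 1 ∧ (q.Prime → ∀ δ : ℝ, 0 < δ → δ ≤ 1 →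
    ∃ C : ℝ, 0 < C ∧
    ∀ f : (𝓞 K)[X], f.natDegree = e → ∀ Bad : Finset (Pr K),
    (∀ v ∉ Bad, Good f v ∧ GoodS f v) → ∀ H : ℝ, 0 ≤ H →
    ht (f.map (algebraMap (𝓞 K) K)) ≤ R * (1 + H) → ∀ τ : ℝ, 0 ≤ τ → τ ≤ 2 * H →
    ∀ S : Finset K, (∀ x ∈ S, hr (aff x) ≤ H ∧ aeval x f ≠ 0 ∧
      (∀ z : K, 2 * hr (aff z) ≤ τ + C0 → aeval z f ≠ 0) ∧
      ∑ v ∈ (dv f x \ Bad).filter (fun v => ¬ q ∣ nu f v x), Real.log (Nv v) ≤ τ) →
      (S.card : ℝ) ≤ C * Real.exp ((1 + la) * H + τ / 2 * (1 - la) + δ * H) *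
        Real.exp (δ * ∑ v ∈ Bad, Real.log (Nv v))) := by
    intro q
    by_cases hq : q.Prime
    · obtain ⟨la, hla0, hla1, h⟩ := od2q K q hq
      exact ⟨la, hla0, hla1, fun _ => h C0 hC0 hz e he R hR⟩
    · exact ⟨1 / 2, by norm_num, by norm_num, fun h => absurd h hq⟩
  choose la hla0 hla1 hla using hod
  obtain ⟨l, hl⟩ : ∃ l : ℝ, l = (e + 1) * lossK K := ⟨_, rfl⟩
  have hl0 : 0 ≤ l := by
    rw [hl]
    exact mul_nonneg (by positivity) (lossK_nonneg K)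
  obtain ⟨N0, hN0⟩ : ∃ N0 : ℕ, 2 * R + l < N0 := exists_nat_gt _
  obtain ⟨m, hm0, hm⟩ := exists_low (Finset.range (N0 + 1)) (fun q => 1 - la q)
    (fun q => by linarith [hla1 q])
  obtain ⟨m', hm'⟩ : ∃ m' : ℝ, m' = min m 1 := ⟨_, rfl⟩
  have hm'0 : 0 < m' := by rw [hm']; exact lt_min hm0 one_pos
  have hm'1 : m' ≤ 1 := by rw [hm']; exact min_le_right _ _
  have hm'm : ∀ q ∈ Finset.range (N0 + 1), m' ≤ 1 - la q := by
    intro q hq
    rw [hm']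
    exact (min_le_left _ _).trans (hm q hq)
  obtain ⟨ν0, hν0⟩ : ∃ ν0 : ℝ, ν0 = κ * m' := ⟨_, rfl⟩
  have hν00 : 0 < ν0 := by rw [hν0]; positivity
  have hν01 : ν0 ≤ 1 := by
    rw [hν0]
    nlinarith
  refine ⟨C0, ν0, hC0, hν00, hν01, ?_⟩
  intro δ hδ
  obtain ⟨δ', hδ'⟩ : ∃ δ' : ℝ, δ' = min δ (ν0 / 2) := ⟨_, rfl⟩
  have hδ'0 : 0 < δ' := by rw [hδ']; exact lt_min hδ (by positivity)
  have hδ'δ : δ' ≤ δ := by rw [hδ']; exact min_le_left _ _
  have hδ'ν : δ' ≤ ν0 / 2 := by rw [hδ']; exact min_le_right _ _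
  have hcon : ∀ q : ℕ, ∃ C : ℝ, 0 < C ∧ (q.Prime →
    ∀ f : (𝓞 K)[X], f.natDegree = e → ∀ Bad : Finset (Pr K),
    (∀ v ∉ Bad, Good f v ∧ GoodS f v) → ∀ H : ℝ, 0 ≤ H →
    ht (f.map (algebraMap (𝓞 K) K)) ≤ R * (1 + H) → ∀ τ : ℝ, 0 ≤ τ → τ ≤ 2 * H →
    ∀ S : Finset K, (∀ x ∈ S, hr (aff x) ≤ H ∧ aeval x f ≠ 0 ∧
      (∀ z : K, 2 * hr (aff z) ≤ τ + C0 → aeval z f ≠ 0) ∧
      ∑ v ∈ (dv f x \ Bad).filter (fun v => ¬ q ∣ nu f v x), Real.log (Nv v) ≤ τ) →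
      (S.card : ℝ) ≤ C * Real.exp ((1 + la q) * H + τ / 2 * (1 - la q) + δ' * H) *
        Real.exp (δ' * ∑ v ∈ Bad, Real.log (Nv v))) := by
    intro q
    by_cases hq : q.Prime
    · obtain ⟨C, hC, h⟩ := hla q hq δ' hδ'0 (by linarith)
      exact ⟨C, hC, fun _ => h⟩
    · exact ⟨1, one_pos, fun h => absurd h hq⟩
  choose Cq hCq hcq using hcon
  obtain ⟨C4, hC4, h4⟩ := count_all K (δ := 1) one_pos
  refine ⟨∑ q ∈ Finset.range (N0 + 1), Cq q + C4 * Real.exp 3, by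
    have : 0 ≤ ∑ q ∈ Finset.range (N0 + 1), Cq q := Finset.sum_nonneg fun q _ => (hCq q).le
    positivity, ?_⟩
  intro f hfe Bad hBad H hH hht hroot S hS hκ2
  obtain ⟨β, hβ⟩ : ∃ β : ℝ, β = ∑ v ∈ Bad, Real.log (Nv v) := ⟨_, rfl⟩
  have hβ0 : 0 ≤ β := by
    rw [hβ]
    exact Finset.sum_nonneg fun v _ => (log_Nv_pos v).le
  rw [← hβ]
  obtain ⟨G, hG⟩ : ∃ G : ℝ, G = Real.exp ((2 - ν0) * H + δ * β) := ⟨_, rfl⟩
  rw [← hG]
  have hG0 : 0 < G := by rw [hG]; exact Real.exp_pos _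
  have hG1 : 1 ≤ G := by
    rw [hG]
    refine Real.one_le_exp ?_
    have : 0 ≤ (2 - ν0) * H := mul_nonneg (by linarith) hH
    positivity
  have hsC : 0 ≤ ∑ q ∈ Finset.range (N0 + 1), Cq q := Finset.sum_nonneg fun q _ => (hCq q).le
  rcases lt_or_ge H 1 with hH1 | hH1
  · have h5 := h4 H hH S fun x hx => (hS x hx).1
    have h6 : Real.exp ((2 + 1) * H) ≤ Real.exp 3 := Real.exp_le_exp.2 (by linarith)
    have h7 := mul_le_mul_of_nonneg_left h6 hC4.le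
    have h8 : 0 ≤ C4 * Real.exp 3 := by positivity
    have h9 := (h5.trans h7).trans (le_mul_of_one_le_right h8 hG1)
    rw [add_mul]
    have : 0 ≤ (∑ q ∈ Finset.range (N0 + 1), Cq q) * G := mul_nonneg hsC hG0.le
    linarith
  obtain ⟨τ, hτ⟩ : ∃ τ : ℝ, τ = (2 - 3 * κ) * H := ⟨_, rfl⟩
  have hτ0 : 0 ≤ τ := by rw [hτ]; exact mul_nonneg (by linarith) hH
  have hτ2 : τ ≤ 2 * H := by
    rw [hτ]
    have : 0 ≤ κ * H := by positivity
    linarith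
  have hht1 : ht (f.map (algebraMap (𝓞 K) K)) ≤ R * (1 + H) := by
    have : 0 ≤ (e : ℝ) * H := by positivity
    linarith
  -- the prime factor of the exponent
  have hq : ∀ x ∈ S, ∃ q ∈ Finset.range (N0 + 1), q.Prime ∧
      ∑ v ∈ (dv f x \ Bad).filter (fun v => ¬ q ∣ nu f v x), Real.log (Nv v) ≤ τ := by
    intro x hx
    obtain ⟨hxH, hx0, v0, hv0, hv2, hv3, hv4⟩ := hS x hx
    obtain ⟨k, hk⟩ : ∃ k, k = nu f v0 x := ⟨_, rfl⟩
    rw [← hk] at hv2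
    have hkN : k ≤ N0 := by
      have h1 := sum_nu_ht f Bad (fun v hv => (hBad v hv).2.2) hx0
      rw [hfe, ← hl] at h1
      have h2 := mul_le_mul_of_nonneg_left hxH (show (0 : ℝ) ≤ e from Nat.cast_nonneg _)
      have hv0d : v0 ∈ dv f x \ Bad := by
        rw [Finset.mem_sdiff]
        exact ⟨(mem_dv_iff hx0 (hBad v0 hv0).2.2).2 (by omega), hv0⟩
      have h3 : (nu f v0 x : ℝ) * Real.log (Nv v0) ≤
          ∑ v ∈ dv f x \ Bad, (nu f v x : ℝ) * Real.log (Nv v) :=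
        Finset.single_le_sum (f := fun v => (nu f v x : ℝ) * Real.log (Nv v))
          (fun v _ => mul_nonneg (Nat.cast_nonneg _) (log_Nv_pos v).le) hv0d
      rw [← hk] at h3
      have h5 : (k : ℝ) * ((2 - κ) * H) ≤ k * Real.log (Nv v0) :=
        mul_le_mul_of_nonneg_left hv3 (Nat.cast_nonneg _)
      have h6 : (k : ℝ) * (1 * H) ≤ k * ((2 - κ) * H) :=
        mul_le_mul_of_nonneg_left (mul_le_mul_of_nonneg_right (by linarith) hH)
          (Nat.cast_nonneg _)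
      have h7 : (k : ℝ) * H ≤ (2 * R + l) * H := by
        have h8 : R * (1 + H) + l ≤ (2 * R + l) * H := by nlinarith
        linarith
      have h8 : (k : ℝ) ≤ 2 * R + l := le_of_mul_le_mul_right h7 (by linarith)
      have h9 : (k : ℝ) < N0 := by linarith
      exact_mod_cast h9.le
    have hk1 : k ≠ 1 := by omega
    refine ⟨k.minFac, ?_, Nat.minFac_prime hk1, ?_⟩
    · rw [Finset.mem_range]
      have := Nat.minFac_le (show 0 < k by omega)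
      omega
    · rw [hτ]
      refine le_trans ?_ hv4
      refine Finset.sum_le_sum_of_subset_of_nonneg ?_ fun v _ _ => (log_Nv_pos v).le
      intro v hv
      obtain ⟨hva, hvb⟩ := Finset.mem_filter.1 hv
      rw [Finset.mem_erase]
      refine ⟨?_, hva⟩
      rintro rfl
      rw [← hk] at hvb
      exact hvb (Nat.minFac_dvd k)
  obtain ⟨T, hT⟩ : ∃ T : ℕ → Finset K, T = fun q => S.filter fun x => q.Prime ∧
    ∑ v ∈ (dv f x \ Bad).filter (fun v => ¬ q ∣ nu f v x), Real.log (Nv v) ≤ τ := ⟨_, rfl⟩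
  have hTm : ∀ q x, x ∈ T q ↔ x ∈ S ∧ q.Prime ∧
      ∑ v ∈ (dv f x \ Bad).filter (fun v => ¬ q ∣ nu f v x), Real.log (Nv v) ≤ τ := by
    intro q x
    rw [hT]
    exact Finset.mem_filter
  have hcover : S ⊆ (Finset.range (N0 + 1)).biUnion T := by
    intro x hx
    obtain ⟨q, hq1, hq2, hq3⟩ := hq x hx
    exact Finset.mem_biUnion.2 ⟨q, hq1, (hTm q x).2 ⟨hx, hq2, hq3⟩⟩
  have hTc : ∀ q ∈ Finset.range (N0 + 1), ((T q).card : ℝ) ≤ Cq q * G := by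
    intro q hqN
    by_cases hqp : q.Prime
    swap
    · have : T q = ∅ := Finset.eq_empty_of_forall_notMem fun x hx => hqp ((hTm q x).1 hx).2.1
      rw [this, Finset.card_empty, Nat.cast_zero]
      exact mul_nonneg (hCq q).le hG0.le
    have h5 := hcq q hqp f hfe Bad hBad H hH hht1 τ hτ0 hτ2 (T q) (by
      intro x hx
      obtain ⟨hxS, -, hx3⟩ := (hTm q x).1 hx
      refine ⟨(hS x hxS).1, (hS x hxS).2.1, ?_, hx3⟩
      intro z hz1
      rw [hτ] at hz1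
      exact hroot z hz1)
    refine h5.trans ?_
    rw [← hβ, mul_assoc, ← Real.exp_add]
    refine mul_le_mul_of_nonneg_left ?_ (hCq q).le
    rw [hG]
    refine Real.exp_le_exp.2 ?_
    have e1 : δ' * β ≤ δ * β := mul_le_mul_of_nonneg_right hδ'δ hβ0
    have e2 : δ' * H ≤ ν0 / 2 * H := mul_le_mul_of_nonneg_right hδ'ν hH
    have e3 : (1 + la q) * H + τ / 2 * (1 - la q) = 2 * H - 3 / 2 * (κ * (1 - la q)) * H := by
      rw [hτ]
      ring
    have e4 : ν0 * H ≤ κ * (1 - la q) * H := by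
      rw [hν0]
      exact mul_le_mul_of_nonneg_right (mul_le_mul_of_nonneg_left (hm'm q hqN) hκ0.le) hH
    rw [e3]
    linarith
  have h5 : (S.card : ℝ) ≤ ∑ q ∈ Finset.range (N0 + 1), ((T q).card : ℝ) := by
    exact_mod_cast (Finset.card_le_card hcover).trans Finset.card_biUnion_le
  have h6 := Finset.sum_le_sum hTc
  rw [← Finset.sum_mul] at h6
  rw [add_mul]
  have : 0 ≤ C4 * Real.exp 3 * G := by positivity
  linarith

variable (K) in
open Classical in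
/-- **the points of a fibre with radical less than four times the height** -/
theorem fibre_bound4 (e : ℕ) (he : 1 ≤ e) (R : ℝ)
    (hR : 0 ≤ R) {κ : ℝ} (hκ0 : 0 < κ) (hκ1 : κ ≤ 1) :
    ∃ C0 ν0 : ℝ, 0 ≤ C0 ∧ 0 < ν0 ∧ ν0 ≤ 1 ∧ ∀ δ : ℝ, 0 < δ →
    ∃ C : ℝ, 0 < C ∧ ∀ f : (𝓞 K)[X], f.natDegree = e → ∀ Bad : Finset (Pr K),
      (∀ v ∉ Bad, Good f v ∧ GoodS f v) → ∀ H : ℝ, 0 ≤ H → ∀ L : ℝ,
      L = ht (f.map (algebraMap (𝓞 K) K)) →
      L + e * H ≤ R * (1 + H) →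
      (∀ z : K, 2 * hr (aff z) ≤ (2 - 3 * (κ / 4)) * H + C0 → aeval z f ≠ 0) →
      ∀ S : Finset K, (∀ x ∈ S, hr (aff x) ≤ H ∧ aeval x f ≠ 0 ∧
        ∑ v ∈ dv f x \ Bad, Real.log (Nv v) < L + e * hr (aff x) - κ * H ∧
        ∑ v ∈ dv f x \ Bad, Real.log (Nv v) < (4 - κ) * H) →
      (S.card : ℝ) ≤ C * Real.exp ((2 - ν0) * H + δ * ∑ v ∈ Bad, Real.log (Nv v)) := by
  have he0 : (0 : ℝ) < e := by exact_mod_cast he
  have he1 : (1 : ℝ) ≤ e := by exact_mod_cast he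
  obtain ⟨l, hl⟩ : ∃ l : ℝ, l = (e + 1) * lossK K := ⟨_, rfl⟩
  have hl0 : 0 ≤ l := by
    rw [hl]
    exact mul_nonneg (by positivity) (lossK_nonneg K)
  obtain ⟨C0, ν3, hC0, hν30, hν31, h3⟩ := count_large K e he R hR (κ := κ / 4) (by positivity)
    (by linarith)
  obtain ⟨ν0, hν0'⟩ : ∃ ν0 : ℝ, ν0 = min ν3 (κ / (256 * e)) := ⟨_, rfl⟩
  have hν00 : 0 < ν0 := by rw [hν0']; exact lt_min hν30 (by positivity)
  have hν03 : ν0 ≤ ν3 := by rw [hν0']; exact min_le_left _ _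
  have hν04 : ν0 ≤ κ / (256 * e) := by rw [hν0']; exact min_le_right _ _
  refine ⟨C0, ν0, hC0, hν00, hν03.trans hν31, ?_⟩
  intro δ hδ
  obtain ⟨δ1, hδ1'⟩ : ∃ δ1 : ℝ, δ1 = min δ (κ / (4 * e)) := ⟨_, rfl⟩
  have hδ10 : 0 < δ1 := by rw [hδ1']; exact lt_min hδ (by positivity)
  have hδ11 : δ1 ≤ δ := by rw [hδ1']; exact min_le_left _ _
  have hδ12 : δ1 ≤ κ / (4 * e) := by rw [hδ1']; exact min_le_right _ _
  obtain ⟨C1, hC1, h1⟩ := count_bad K e he (κ := κ / 2) (by positivity) (by linarith)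
    (R := R) hR hδ10
  obtain ⟨C2, hC2, h2⟩ := count_WU6 K e he (κ := κ / 4) (by positivity) (by linarith) hδ
  obtain ⟨C3, hC3, h3⟩ := h3 δ hδ
  refine ⟨C1 + C2 + C3, by positivity, ?_⟩
  intro f hfe Bad hBad H hH L hL hLE hroot S hS
  have hdeg : 1 ≤ f.natDegree := by omega
  have hf0 : f ≠ 0 := by
    rintro rfl
    simp at hdeg
  obtain ⟨g, hg⟩ : ∃ g : K[X], g = f.map (algebraMap (𝓞 K) K) := ⟨_, rfl⟩
  have hg0 : g ≠ 0 := by
    rw [hg, Ne, Polynomial.map_eq_zero_iff (FaithfulSMul.algebraMap_injective (𝓞 K) K)]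
    exact hf0
  have hgd : g.natDegree ≤ e := by
    rw [hg, ← hfe]
    exact natDegree_map_le
  have hge : ∀ x, g.eval x = aeval x f := fun x => by
    rw [hg, eval_map_algebraMap]
  have hLht : ht (f.map (algebraMap (𝓞 K) K)) + e * H ≤ R * (1 + H) := by rw [← hL]; exact hLE
  have hL2 := ht_good f Bad (fun v hv => (hBad v hv).2.2)
  rw [hL2] at hL
  rw [← hg] at hL
  obtain ⟨β, hβ⟩ : ∃ β : ℝ, β = ∑ v ∈ Bad, Real.log (Nv v) := ⟨_, rfl⟩
  have hβ0 : 0 ≤ β := by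
    rw [hβ]
    exact Finset.sum_nonneg fun v _ => (log_Nv_pos v).le
  rw [← hβ]
  have hν1 : ν0 ≤ κ / (4 * e) := by
    refine hν04.trans (div_le_div_of_nonneg_left hκ0.le (by positivity) ?_)
    linarith
  have hν2 : ν0 ≤ κ / 4 / 64 := by
    refine hν04.trans ?_
    rw [div_div]
    refine div_le_div_of_nonneg_left hκ0.le (by positivity) ?_
    linarith
  obtain ⟨G, hG⟩ : ∃ G : ℝ, G = Real.exp ((2 - ν0) * H + δ * β) := ⟨_, rfl⟩
  rw [← hG]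
  -- the identity
  have hid : ∀ x ∈ S, ∑ w : InfinitePlace K, mv (Sum.inl w) e g x +
      ∑ v ∈ Bad, mv (Sum.inr v) e g x + ∑ v ∈ dv f x \ Bad, (nu f v x : ℝ) * Real.log (Nv v) =
        L + e * hr (aff x) := by
    intro x hx
    have h3 := height_eq f Bad (fun v hv => (hBad v hv).2.2) (hS x hx).2.1
    rw [hfe] at h3
    have h4 : ∀ p : Pl K, mv p e g x = gn p g + mu p f x := fun p => by
      rw [← hfe, hg]
      exact mv_mu p f x
    simp only [h4]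
    rw [Finset.sum_add_distrib, Finset.sum_add_distrib, hL]
    linarith
  have hlow : ∀ x ∈ S, -l ≤ ∑ w : InfinitePlace K, mv (Sum.inl w) e g x := by
    intro x hx
    have hlsum : ∑ w : InfinitePlace K, ((e : ℝ) + 1) * loss (Sum.inl w : Pl K) = l := by
      rw [hl, ← Finset.mul_sum]
      rfl
    rw [← hlsum, ← Finset.sum_neg_distrib]
    refine Finset.sum_le_sum fun w _ => ?_
    have := mv_ge (Sum.inl w) hgd (x := x) (by rw [hge]; exact (hS x hx).2.1)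
    linarith
  have hlow2 : ∀ x ∈ S, 0 ≤ ∑ v ∈ Bad, mv (Sum.inr v) e g x := fun x hx =>
    Finset.sum_nonneg fun v _ => mv_nonneg v hgd (by rw [hge]; exact (hS x hx).2.1)
  have hlow3 : ∀ x, 0 ≤ ∑ v ∈ dv f x \ Bad, (nu f v x : ℝ) * Real.log (Nv v) := fun x =>
    Finset.sum_nonneg fun v _ => mul_nonneg (Nat.cast_nonneg _) (log_Nv_pos v).le
  have hup : ∀ x ∈ S, L + e * hr (aff x) ≤ R * (1 + H) := by
    intro x hx
    have := mul_le_mul_of_nonneg_left (hS x hx).1 he0.le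
    linarith
  obtain ⟨S1, hS1⟩ : ∃ S1 : Finset K, S1 = S.filter fun x => κ / 2 * H ≤
    ∑ w : InfinitePlace K, mv (Sum.inl w) e g x + ∑ v ∈ Bad, mv (Sum.inr v) e g x := ⟨_, rfl⟩
  obtain ⟨S0, hS0⟩ : ∃ S0 : Finset K, S0 = S.filter fun x => ¬ κ / 2 * H ≤
    ∑ w : InfinitePlace K, mv (Sum.inl w) e g x + ∑ v ∈ Bad, mv (Sum.inr v) e g x := ⟨_, rfl⟩
  obtain ⟨S2, hS2⟩ : ∃ S2 : Finset K, S2 = S0.filter fun x => ∀ v, v ∉ Bad → 2 ≤ nu f v x →
    Real.log (Nv v) < (2 - κ / 4) * H := ⟨_, rfl⟩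
  obtain ⟨S3, hS3⟩ : ∃ S3 : Finset K, S3 = S0.filter fun x => ¬ ∀ v, v ∉ Bad → 2 ≤ nu f v x →
    Real.log (Nv v) < (2 - κ / 4) * H := ⟨_, rfl⟩
  have hκH : 0 ≤ κ * H := mul_nonneg hκ0.le hH
  have hc1 : (S1.card : ℝ) ≤ C1 * G := by
    have h5 := h1 g hg0 hgd Bad H hH S1 (by
      intro x hx
      rw [hS1] at hx
      obtain ⟨hxS, hx1⟩ := Finset.mem_filter.1 hx
      refine ⟨(hS x hxS).1, by rw [hge]; exact (hS x hxS).2.1, hx1, ?_⟩
      have e1 := hid x hxS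
      have e2 := hlow3 x
      have e3 := hup x hxS
      linarith)
    rw [← hβ] at h5
    refine h5.trans (mul_le_mul_of_nonneg_left ?_ hC1.le)
    rw [hG]
    refine Real.exp_le_exp.2 (add_le_add (mul_le_mul_of_nonneg_right ?_ hH)
      (mul_le_mul_of_nonneg_right hδ11 hβ0))
    have e1 : κ / 2 / e = κ / (4 * e) + κ / (4 * e) := by
      field_simp
      ring
    rw [e1]
    linarith
  have hS0m : ∀ x ∈ S0, x ∈ S ∧ ∑ v ∈ dv f x \ Bad, Real.log (Nv v) + κ / 4 * H ≤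
      ∑ v ∈ dv f x \ Bad, (nu f v x : ℝ) * Real.log (Nv v) := by
    intro x hx
    rw [hS0] at hx
    obtain ⟨hxS, hx1⟩ := Finset.mem_filter.1 hx
    rw [not_le] at hx1
    have e1 := hid x hxS
    obtain ⟨e4, e6, e5, e7⟩ := hS x hxS
    exact ⟨hxS, by linarith⟩
  have hc2 : (S2.card : ℝ) ≤ C2 * G := by
    have h5 := h2 f hfe Bad hBad H hH S2 (by
      intro x hx
      rw [hS2] at hx
      obtain ⟨hx0, hx1⟩ := Finset.mem_filter.1 hx
      obtain ⟨hxS, hx2⟩ := hS0m x hx0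
      exact ⟨(hS x hxS).1, (hS x hxS).2.1, hx2, hx1⟩)
    rw [← hβ] at h5
    refine h5.trans (mul_le_mul_of_nonneg_left ?_ hC2.le)
    rw [hG]
    refine Real.exp_le_exp.2 (add_le_add (mul_le_mul_of_nonneg_right ?_ hH) le_rfl)
    linarith
  have hc3 : (S3.card : ℝ) ≤ C3 * G := by
    have h5 := h3 f hfe Bad hBad H hH hLht hroot S3 (by
      intro x hx
      rw [hS3] at hx
      obtain ⟨hx0, hx1⟩ := Finset.mem_filter.1 hx
      obtain ⟨hxS, hx2⟩ := hS0m x hx0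
      push Not at hx1
      obtain ⟨v0, hv0, hv2, hv3⟩ := hx1
      refine ⟨(hS x hxS).1, (hS x hxS).2.1, v0, hv0, hv2, hv3, ?_⟩
      have hv0d : v0 ∈ dv f x \ Bad := by
        rw [Finset.mem_sdiff]
        exact ⟨(mem_dv_iff (hS x hxS).2.1 (hBad v0 hv0).2.2).2 (by omega), hv0⟩
      have e1 := (hS x hxS).2.2.2
      rw [← Finset.add_sum_erase _ _ hv0d] at e1
      linarith) (by linarith)
    rw [← hβ] at h5
    refine h5.trans (mul_le_mul_of_nonneg_left ?_ hC3.le)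
    rw [hG]
    exact Real.exp_le_exp.2 (add_le_add (mul_le_mul_of_nonneg_right (by linarith) hH) le_rfl)
  have h9 : (S.card : ℝ) = S1.card + S0.card := by
    rw [hS1, hS0]
    exact_mod_cast (Finset.card_filter_add_card_filter_not (s := S) (p := fun x => κ / 2 * H ≤
      ∑ w : InfinitePlace K, mv (Sum.inl w) e g x + ∑ v ∈ Bad, mv (Sum.inr v) e g x)).symm
  have h10 : (S0.card : ℝ) = S2.card + S3.card := by
    rw [hS2, hS3]
    exact_mod_cast (Finset.card_filter_add_card_filter_not (s := S0) (p := fun x =>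
      ∀ v, v ∉ Bad → 2 ≤ nu f v x → Real.log (Nv v) < (2 - κ / 4) * H)).symm
  rw [h9, h10, add_mul, add_mul]
  linarith

end Pool.Agent.K9h89.AW
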