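import Mathlib
import Pool.Agent.K9h89.AW.W6
import Pool.Agent.N753.SU.PropW
import Pool.Agent.N445.UB.B2

/-!
# Curves in the product of two lines: the number of the points with radical less than four times
the height
-/

set_option autoImplicit false
set_option linter.unusedSectionVars false

namespace Pool.Agent.K9h89.AW

open NumberField IsDedekindDomain Finset Pool.Agent.H691R3
open Pool.Agent.TH876.Loc hiding mx
open Pool.Agent.N753.LS Pool.Agent.N753.SF Pool.Agent.N753.SU Pool.Agent.N445.UB Polynomial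

variable {K : Type} [Field K] [NumberField K]

/-- the restriction to a line `x_0 = z` does not vanish -/
theorem bv_eval_ne {F : MvPolynomial (Fin 2) K} (hF : Irreducible F) (he : 2 ≤ F.degreeOf 0)
    (z : K) : (bv F).eval (C z) ≠ 0 := by
  intro h
  have h1 : X - C (C z) ∣ bv F := Polynomial.dvd_iff_isRoot.2 h
  have h2 := irreducible_bv hF
  have h3 : Irreducible (X - C (C z) : K[X][X]) := (prime_X_sub_C _).irreducible
  have h4 := h3.associated_of_dvd h2 h1
  have h5 := Polynomial.natDegree_eq_of_degree_eq (Polynomial.degree_eq_degree_of_associated h4)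
  rw [natDegree_X_sub_C, natDegree_bv] at h5
  omega

theorem natDegree_eval_le (P : K[X][X]) (z : K) : (P.eval (C z)).natDegree ≤ dgi P := by
  rw [Polynomial.eval_eq_sum, Polynomial.sum_def]
  refine Polynomial.natDegree_sum_le_of_forall_le _ _ fun j hj => ?_
  rw [← C_pow]
  refine (natDegree_mul_le).trans ?_
  rw [natDegree_C, add_zero]
  exact Finset.le_sup (f := fun j => (P.coeff j).natDegree) hj

theorem eval_cons_bv (F : MvPolynomial (Fin 2) K) (z : K) (y : Fin 1 → K) :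
    MvPolynomial.eval (Fin.cons z y : Fin 2 → K) F = ((bv F).eval (C z)).eval (y 0) := by
  have h1 := eval_fibm F y z
  have h2 := fib_bv F (y 0)
  have h3 : (fun _ => y 0) = y := by
    funext i
    rw [Subsingleton.elim i 0]
  rw [h3] at h2
  rw [← h1, ← h2, eval_fib]

open Classical in
/-- the lines `x_1 = y` which meet the curve in a point of small height -/
theorem count_roots (F : MvPolynomial (Fin 2) K) (hF : Irreducible F) (he : 2 ≤ F.degreeOf 0)
    {c C0 : ℝ} (hc0 : 0 < c) (hc1 : c ≤ 1) (hC0 : 0 ≤ C0) : ∃ C : ℝ, 0 < C ∧ ∀ H : ℝ, 0 ≤ H →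
    ∀ T : Finset (Fin 1 → K), (∀ y ∈ T, ∃ z : K, 2 * hr (aff z) ≤ (2 - c) * H + C0 ∧
      MvPolynomial.eval (Fin.cons z y : Fin 2 → K) F = 0) →
      (T.card : ℝ) ≤ C * Real.exp ((2 - c / 2) * H) := by
  obtain ⟨C4, hC4, h4⟩ := count_all K (δ := c / 4) (by positivity)
  obtain ⟨B, hB⟩ : ∃ B : ℕ, B = dgi (bv F) := ⟨_, rfl⟩
  refine ⟨(B + 1) * (C4 * Real.exp (2 * C0)), by positivity, ?_⟩
  intro H hH T hT
  have hz : ∀ y : Fin 1 → K, ∃ z : K, y ∈ T → 2 * hr (aff z) ≤ (2 - c) * H + C0 ∧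
      MvPolynomial.eval (Fin.cons z y : Fin 2 → K) F = 0 := by
    intro y
    by_cases hy : y ∈ T
    · obtain ⟨z, hz⟩ := hT y hy
      exact ⟨z, fun _ => hz⟩
    · exact ⟨0, fun h => absurd h hy⟩
  choose z hz using hz
  have h1 : (T.card : ℝ) = ∑ b ∈ T.image z, ((T.filter fun y => z y = b).card : ℝ) := by
    have := Finset.card_eq_sum_card_image z T
    exact_mod_cast this
  have h2 : ∀ b ∈ T.image z, ((T.filter fun y => z y = b).card : ℝ) ≤ (B : ℝ) + 1 := by
    intro b _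
    have h3 : (T.filter fun y => z y = b).card ≤ B := by
      have h5 : (T.filter fun y => z y = b).card ≤
          (((bv F).eval (C b)).roots.toFinset).card := by
        refine Finset.card_le_card_of_injOn (fun y => y 0) ?_ ?_
        · intro y hy
          rw [Finset.mem_coe, Finset.mem_filter] at hy
          rw [Finset.mem_coe, Multiset.mem_toFinset, mem_roots (bv_eval_ne hF he b)]
          have h6 := (hz y hy.1).2
          rw [hy.2, eval_cons_bv] at h6
          exact h6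
        · intro y _ y' _ hyy
          funext i
          rw [Subsingleton.elim i 0]
          exact hyy
      refine h5.trans ((Multiset.toFinset_card_le _).trans ((card_roots' _).trans ?_))
      rw [hB]
      exact natDegree_eval_le _ _
    have : ((T.filter fun y => z y = b).card : ℝ) ≤ B := by exact_mod_cast h3
    linarith
  have h3 : ((T.image z).card : ℝ) ≤ C4 * (Real.exp (2 * C0) * Real.exp ((2 - c / 2) * H)) := by
    have h5 := h4 (((2 - c) * H + C0) / 2) (by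
      have : 0 ≤ (2 - c) * H := mul_nonneg (by linarith) hH
      positivity) (T.image z) (by
      intro b hb
      obtain ⟨y, hy, rfl⟩ := Finset.mem_image.1 hb
      have := (hz y hy).1
      linarith)
    refine h5.trans (mul_le_mul_of_nonneg_left ?_ hC4.le)
    rw [← Real.exp_add]
    refine Real.exp_le_exp.2 ?_
    have e1 : 0 ≤ c * H := mul_nonneg hc0.le hH
    have e2 : 0 ≤ c * (c * H) := mul_nonneg hc0.le e1
    have e3 : c * C0 ≤ 1 * C0 := mul_le_mul_of_nonneg_right hc1 hC0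
    nlinarith
  rw [h1]
  calc ∑ b ∈ T.image z, ((T.filter fun y => z y = b).card : ℝ) ≤
      ∑ _b ∈ T.image z, ((B : ℝ) + 1) := Finset.sum_le_sum h2
    _ = (T.image z).card * ((B : ℝ) + 1) := by rw [Finset.sum_const, nsmul_eq_mul]
    _ ≤ (C4 * (Real.exp (2 * C0) * Real.exp ((2 - c / 2) * H))) * ((B : ℝ) + 1) :=
        mul_le_mul_of_nonneg_right h3 (by positivity)
    _ = _ := by ring

open Classical in
/-- **Proposition A** -/
theorem propA4 (hRM : StmRM) (hUM : StmUM) (hZM : StmZM) (hLM : StmLM)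
    (F : MvPolynomial (Fin (1 + 1)) K) (hF : Irreducible F) (he2 : 2 ≤ F.degreeOf 0)
    {κ : ℝ} (hκ0 : 0 < κ) (hκ1 : κ ≤ 1) :
    ∃ ν C : ℝ, 0 < ν ∧ ν ≤ 1 ∧ 0 < C ∧ ∀ H : ℝ, 0 ≤ H → ∀ S : Finset (Fin (1 + 1) → K),
      (∀ x ∈ S, (∀ i, hr (aff (x i)) ≤ H) ∧ MvPolynomial.eval x F ≠ 0 ∧
        ∑ v ∈ ddm F x, Real.log (Nv v) <
          ∑ i, (F.degreeOf i : ℝ) * hr (aff (x i)) - κ * H ∧
        ∑ v ∈ ddm F x, Real.log (Nv v) < (4 - κ) * H) →
      (S.card : ℝ) ≤ C * Real.exp ((2 * (1 + 1 : ℕ) - ν) * H) := by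
  have he : 1 ≤ F.degreeOf 0 := by omega
  obtain ⟨m, hm⟩ : ∃ m : ℕ, m = 1 := ⟨_, rfl⟩
  obtain ⟨E, hE⟩ : ∃ E : ℕ, ∑ i, F.degreeOf i ≤ E := ⟨_, le_rfl⟩
  obtain ⟨n, CF, hn, hCF, hRF⟩ := hRM K 1 F hF he
  obtain ⟨c, hc0, hcf, hc⟩ := fib_up hUM F
  obtain ⟨ν1', C1', hν1', hC1', h1⟩ := hLM K 1 F hF he (κ / 4) (by positivity) (by linarith)
  obtain ⟨C3, hC3, h3⟩ := hZM K 1 n hn
  obtain ⟨e, he'⟩ : ∃ e : ℕ, e = F.degreeOf 0 := ⟨_, rfl⟩
  rw [← he'] at he hRF
  have he0 : (0 : ℝ) < e := by exact_mod_cast he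
  have he1 : (1 : ℝ) ≤ e := by exact_mod_cast he
  obtain ⟨ct, hct⟩ : ∃ ct : ℝ, ct = ∑ p ∈ hcf.toFinset, c p := ⟨_, rfl⟩
  have hct0 : 0 ≤ ct := by
    rw [hct]
    exact Finset.sum_nonneg fun p _ => hc0 p
  obtain ⟨d, hd⟩ : ∃ d : Fin 1 → ℝ, d = fun i => (F.degreeOf (Fin.succ i) : ℝ) := ⟨_, rfl⟩
  have hd0 : ∀ i, 0 ≤ d i := fun i => by rw [hd]; exact Nat.cast_nonneg _
  have hdi : ∀ i, (F.degreeOf (Fin.succ i) : ℝ) = d i := fun i => by rw [hd]
  simp only [hdi] at hc h1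
  have hE' : ∑ i, d i + e ≤ E := by
    rw [Fin.sum_univ_succ, ← he'] at hE
    have h2 : ((∑ i : Fin 1, F.degreeOf i.succ : ℕ) : ℝ) = ∑ i, d i := by
      rw [hd]
      push_cast
      rfl
    rw [← h2]
    exact_mod_cast (by omega : ∑ i : Fin 1, F.degreeOf i.succ + e ≤ E)
  obtain ⟨C0, ν0, hC0, hν00, hν01, h2⟩ := fibre_bound4 K e he (E + ct) (by positivity)
    (κ := κ / 2) (by positivity) (by linarith)
  obtain ⟨C5, hC5, h5r⟩ := count_roots F hF he2 (c := 3 * (κ / 2 / 4)) (C0 := C0)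
    (by positivity) (by linarith) hC0
  obtain ⟨CM, hCM⟩ : ∃ CM : ℝ, CM = CF * (1 + 1) := ⟨_, rfl⟩
  have hCM0 : 0 ≤ CM := by rw [hCM]; positivity
  obtain ⟨δ, hδ⟩ : ∃ δ : ℝ, δ = min (1 / 64) (ν0 / (2 * (CM + 1))) := ⟨_, rfl⟩
  have hδ0 : 0 < δ := by rw [hδ]; exact lt_min (by norm_num) (by positivity)
  have hδ1 : δ ≤ 1 / 64 := by rw [hδ]; exact min_le_left _ _
  have hδ2 : δ * CM ≤ ν0 / 2 := by
    have h1 : δ ≤ ν0 / (2 * (CM + 1)) := by rw [hδ]; exact min_le_right _ _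
    have h2 := mul_le_mul_of_nonneg_right h1 (show 0 ≤ CM + 1 by linarith)
    have h3 : ν0 / (2 * (CM + 1)) * (CM + 1) = ν0 / 2 := by field_simp
    nlinarith
  obtain ⟨C2, hC2, h2⟩ := h2 δ hδ0
  obtain ⟨ν1, hν1⟩ : ∃ ν1 : ℝ, ν1 = min (min ν1' 1) (3 * (κ / 2 / 4) / 2) := ⟨_, rfl⟩
  have hν10 : 0 < ν1 := by rw [hν1]; exact lt_min (lt_min hν1' one_pos) (by positivity)
  have hν11 : ν1 ≤ 1 := by rw [hν1]; exact (min_le_left _ _).trans (min_le_right _ _)
  have hν12 : ν1 ≤ ν1' := by rw [hν1]; exact (min_le_left _ _).trans (min_le_left _ _)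
  have hν13 : ν1 ≤ 3 * (κ / 2 / 4) / 2 := by rw [hν1]; exact min_le_right _ _
  obtain ⟨ν, C, hν, hνle, hC, hfin⟩ := fibM K 1 hν10 hν11 (ν2 := ν0 / 2) (by positivity)
    (by linarith) (C1 := C3 + C1' + C5) (C2 := C2 * Real.exp (ν0 / 2)) (by positivity)
    (by positivity)
  refine ⟨ν, C, hν, hνle, hC, ?_⟩
  intro H hH S hS
  refine hfin H hH (fun y => (MvPolynomial.eval y n = 0 ∨ (fibm F y ≠ 0 ∧
    ht (fibm F y) < ∑ i, d i * hr (aff (y i)) - κ / 4 * H)) ∨
      ∃ z : K, 2 * hr (aff z) ≤ (2 - 3 * (κ / 2 / 4)) * H + C0 ∧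
        MvPolynomial.eval (Fin.cons z y : Fin (1 + 1) → K) F = 0) ?_ S
      (fun x hx => (hS x hx).1) ?_
  · -- the exceptional points of the base
    intro T hTT
    obtain ⟨Ta, hTa⟩ : ∃ Ta, Ta = T.filter fun y => MvPolynomial.eval y n = 0 := ⟨_, rfl⟩
    obtain ⟨Tb, hTb⟩ : ∃ Tb, Tb = T.filter fun y => (fibm F y ≠ 0 ∧
      ht (fibm F y) < ∑ i, d i * hr (aff (y i)) - κ / 4 * H) := ⟨_, rfl⟩
    obtain ⟨Tc, hTc⟩ : ∃ Tc, Tc = T.filter fun y => ∃ z : K,
      2 * hr (aff z) ≤ (2 - 3 * (κ / 2 / 4)) * H + C0 ∧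
        MvPolynomial.eval (Fin.cons z y : Fin (1 + 1) → K) F = 0 := ⟨_, rfl⟩
    have g1c := h5r H hH Tc fun y hy => by
      rw [hTc] at hy
      exact (Finset.mem_filter.1 hy).2
    have g1 := h3 H hH Ta fun y hy => by
      rw [hTa] at hy
      exact ⟨(hTT y (Finset.mem_filter.1 hy).1).1, (Finset.mem_filter.1 hy).2⟩
    have g3 := h1 H hH Tb fun y hy => by
      rw [hTb] at hy
      obtain ⟨e1, e2⟩ := Finset.mem_filter.1 hy
      exact ⟨(hTT y e1).1, e2⟩
    have hsub : T ⊆ Ta ∪ Tb ∪ Tc := by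
      intro y hy
      rw [Finset.mem_union, Finset.mem_union, hTa, hTb, hTc, Finset.mem_filter,
        Finset.mem_filter, Finset.mem_filter]
      rcases (hTT y hy).2 with (h | h) | h
      · exact Or.inl (Or.inl ⟨hy, h⟩)
      · exact Or.inl (Or.inr ⟨hy, h⟩)
      · exact Or.inr ⟨hy, h⟩
    have g4 : (T.card : ℝ) ≤ Ta.card + Tb.card + Tc.card := by
      exact_mod_cast (Finset.card_le_card hsub).trans ((Finset.card_union_le _ _).trans
        (Nat.add_le_add_right (Finset.card_union_le _ _) _))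
    have g5 : Real.exp ((2 * (1 : ℕ) - 1) * H) ≤ Real.exp ((2 * (1 : ℕ) - ν1) * H) :=
      Real.exp_le_exp.2 (mul_le_mul_of_nonneg_right (by linarith) hH)
    have g5' : Real.exp ((2 * (1 : ℕ) - ν1') * H) ≤ Real.exp ((2 * (1 : ℕ) - ν1) * H) :=
      Real.exp_le_exp.2 (mul_le_mul_of_nonneg_right (by linarith) hH)
    have g5'' : Real.exp ((2 - 3 * (κ / 2 / 4) / 2) * H) ≤
        Real.exp ((2 * (1 : ℕ) - ν1) * H) := by
      refine Real.exp_le_exp.2 (mul_le_mul_of_nonneg_right ?_ hH)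
      push_cast
      linarith
    have g6 := mul_le_mul_of_nonneg_left g5 hC3.le
    have g7 := mul_le_mul_of_nonneg_left g5' hC1'.le
    have g8 := mul_le_mul_of_nonneg_left g5'' hC5.le
    rw [add_mul, add_mul]
    exact g4.trans (add_le_add (add_le_add (g1.trans g6) (g3.trans g7)) (g1c.trans g8))
  · -- the other points
    intro y hyH hyP S' hS'
    push Not at hyP
    obtain ⟨⟨hyn, hyG⟩, hyR⟩ := hyP
    rcases S'.eq_empty_or_nonempty with h0 | ⟨z0, hz0⟩
    · rw [h0, Finset.card_empty, Nat.cast_zero]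
      positivity
    have hg0 : fibm F y ≠ 0 := by
      intro h
      have h4 := (hS _ (hS' z0 hz0)).2.1
      rw [← eval_fibm, h, eval_zero] at h4
      exact h4 rfl
    have hyG' := hyG hg0
    obtain ⟨f, u, Bad, hu, hfg, hfe, hBad, hβ⟩ := hRF y hyn
    obtain ⟨L, hL⟩ : ∃ L : ℝ, L = ht (f.map (algebraMap (𝓞 K) K)) := ⟨_, rfl⟩
    have hL' : L = ht (fibm F y) := by
      rw [hL, hfg]
      exact ht_C_mul hu hg0
    have hL2 : L ≤ ∑ i, d i * hr (aff (y i)) + ct := by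
      rw [hL', hct]
      exact ht_le2 hd0 hc0 hcf hg0 (hc y hg0)
    have hdH : ∑ i, d i * hr (aff (y i)) ≤ (∑ i, d i) * H := by
      rw [Finset.sum_mul]
      exact Finset.sum_le_sum fun i _ => mul_le_mul_of_nonneg_left (hyH i) (hd0 i)
    have hfx : ∀ z, aeval z f = u * MvPolynomial.eval (Fin.cons z y : Fin (1 + 1) → K) F := by
      intro z
      rw [← eval_map_algebraMap, hfg, eval_mul, eval_C, eval_fibm]
    have h4 := h2 f hfe Bad (fun v hv => ⟨(hBad v hv).1, (hBad v hv).2.1⟩) H hH L hL (by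
      have h7 := mul_le_mul_of_nonneg_right hE' hH
      have h8 : 0 ≤ ct * H := mul_nonneg hct0 hH
      have h9 : (0 : ℝ) ≤ E := Nat.cast_nonneg _
      linarith) (by
      intro z hz
      rw [hfx]
      exact mul_ne_zero hu (hyR z hz)) S' (by
      intro z hz
      obtain ⟨hxH, hx0, hxs, hxw⟩ := hS _ (hS' z hz)
      have hfx0 : aeval z f ≠ 0 := by
        rw [hfx]
        exact mul_ne_zero hu hx0
      have hzH := hxH 0
      rw [Fin.cons_zero] at hzH
      refine ⟨hzH, hfx0, ?_⟩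
      have e1 : ∑ v ∈ dv f z \ Bad, Real.log (Nv v) ≤
          ∑ v ∈ ddm F (Fin.cons z y : Fin (1 + 1) → K), Real.log (Nv v) := by
        refine Finset.sum_le_sum_of_subset_of_nonneg ?_ fun v _ _ => (log_Nv_pos v).le
        intro v hv
        obtain ⟨hva, hvb⟩ := Finset.mem_sdiff.1 hv
        rw [mem_dv hfx0] at hva
        rw [mem_ddm hx0]
        refine ⟨?_, ?_⟩
        · intro i
          refine Fin.cases ?_ (fun j => ?_) i
          · rw [Fin.cons_zero]
            exact hva.1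
          · rw [Fin.cons_succ]
            exact (hBad v hvb).2.2.1 j
        · have e2 := hva.2
          rw [hfx, (fv v).map_mul, (hBad v hvb).2.2.2, one_mul] at e2
          exact e2
      rw [Fin.sum_univ_succ] at hxs
      simp only [Fin.cons_zero, Fin.cons_succ, hdi] at hxs
      rw [← he'] at hxs
      have e2 : 0 ≤ κ * H := by positivity
      exact ⟨by linarith, by linarith⟩)
    refine h4.trans ?_
    have hβ' : δ * ∑ v ∈ Bad, Real.log (Nv v) ≤ ν0 / 2 + ν0 / 2 * H := by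
      have e1 : ∑ v ∈ Bad, Real.log (Nv v) ≤ CM * (1 + H) := by
        refine hβ.trans ?_
        rw [hCM, mul_assoc]
        refine mul_le_mul_of_nonneg_left ?_ hCF
        have := sumh_le hyH
        rw [Nat.cast_one, one_mul] at this
        linarith
      have e2 := mul_le_mul_of_nonneg_left e1 hδ0.le
      have e3 := mul_le_mul_of_nonneg_right hδ2 (show 0 ≤ 1 + H by linarith)
      linarith
    rw [mul_assoc, ← Real.exp_add]
    refine mul_le_mul_of_nonneg_left (Real.exp_le_exp.2 ?_) hC2.le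
    linarith

end Pool.Agent.K9h89.AW
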