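import Mathlib
import Pool.Agent.K9h89.AW.W7
import Pool.Agent.N753.SU.All
import Pool.Agent.N753.SU.Comp

/-!
# The components of a divisor, with the anticanonical weight
-/

set_option autoImplicit false
set_option linter.unusedSectionVars false

namespace Pool.Agent.K9h89.AW

open NumberField IsDedekindDomain Finset Pool.Agent.H691R3
open Pool.Agent.TH876.Loc hiding mx
open Pool.Agent.N753.LS Pool.Agent.N753.SF Pool.Agent.N753.SU Polynomial

variable {K : Type} [Field K] [NumberField K]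

/-- the weight of a component of total degree `E`: the total degree if it is at most five, and
otherwise four -/
def wt4 (E : ℕ) : ℕ := if E ≤ 5 then E else 4

/-- **one component**: -/
theorem thin_comp4 (hRM : StmRM) (hUM : StmUM) (hZM : StmZM) (hLM : StmLM) (hOD : StmOD)
    (hB4 : StmB4) (F : MvPolynomial (Fin (1 + 1)) K) (hF : Irreducible F)
    {κ : ℝ} (hκ0 : 0 < κ) (hκ1 : κ ≤ 1) :
    Thin K (1 + 1) (fun H x => MvPolynomial.eval x F ≠ 0 ∧
      ∑ v ∈ ddm F x, Real.log (Nv v) < ((wt4 (∑ i, F.degreeOf i) : ℝ) - κ) * H) := by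
  obtain ⟨E, hE⟩ : ∃ E : ℕ, E = ∑ i, F.degreeOf i := ⟨_, rfl⟩
  by_cases hE5 : E ≤ 5
  · have h0 : (wt4 (∑ i, F.degreeOf i) : ℝ) ≤ (∑ i, F.degreeOf i : ℕ) := by
      unfold wt4
      rw [← hE, if_pos hE5]
    exact thin_comp hRM hUM hZM hLM hOD hB4 F hF h0 (Or.inl (by rw [← hE]; exact hE5)) hκ0 hκ1
  have hw4 : (wt4 (∑ i, F.degreeOf i) : ℝ) = 4 := by
    unfold wt4
    rw [← hE, if_neg hE5]
    norm_num
  rw [hw4]
  have hwE : (4 : ℝ) ≤ E := by exact_mod_cast (by omega : 4 ≤ E)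
  obtain ⟨i, hi⟩ : ∃ i, 2 ≤ F.degreeOf i := by
    by_contra hcon
    push Not at hcon
    rw [Fin.sum_univ_two] at hE
    have h0 := hcon 0
    have h1 := hcon 1
    omega
  have hE0 : (0 : ℝ) ≤ E := Nat.cast_nonneg _
  obtain ⟨κ', hκ'⟩ : ∃ κ' : ℝ, κ' = κ / (E + 1) := ⟨_, rfl⟩
  have hκ'0 : 0 < κ' := by rw [hκ']; positivity
  have hκ'E : κ' * (E + 1) = κ := by rw [hκ']; field_simp
  have hκ'1 : κ' ≤ κ := by nlinarith
  obtain ⟨G, hG⟩ : ∃ G, G = MvPolynomial.rename (Equiv.swap 0 i) F := ⟨_, rfl⟩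
  have hGi : Irreducible G := by
    rw [hG]
    exact (hB4 K 1 F (Equiv.swap 0 i)).1 hF
  have hGd : 2 ≤ G.degreeOf 0 := by
    rw [hG, degreeOf_swap hB4]
    exact hi
  have h1 : Thin K (1 + 1) (fun H x => MvPolynomial.eval x G ≠ 0 ∧
      ∑ v ∈ ddm G x, Real.log (Nv v) <
        ∑ i, (G.degreeOf i : ℝ) * hr (aff (x i)) - κ' * H ∧
      ∑ v ∈ ddm G x, Real.log (Nv v) < (4 - κ') * H) := by
    obtain ⟨ν, C, hν, hν1, hC, h⟩ := propA4 hRM hUM hZM hLM G hGi hGd hκ'0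
      (hκ'1.trans hκ1)
    exact ⟨ν, C, hν, hν1, hC, h⟩
  have h2 := h1.perm (Equiv.swap 0 i)
  have h3 : Thin K (1 + 1) (fun H x => ∃ j ∈ (univ : Finset (Fin (1 + 1))),
      hr (aff (x j)) < (1 - κ') * H) :=
    Thin.ex _ fun j _ => thin_ht j hκ'0 (hκ'1.trans hκ1)
  refine (h2.or h3).mono ?_
  rintro H x hH hxH ⟨hx0, hx1⟩
  by_cases hx2 : ∃ j ∈ (univ : Finset (Fin (1 + 1))), hr (aff (x j)) < (1 - κ') * H
  · exact Or.inr hx2
  left
  push Not at hx2
  rw [hG]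
  refine ⟨by rw [eval_swap hB4]; exact hx0, ?_, ?_⟩
  · rw [ddm_swap hB4 i hx0, sumh_swap hB4]
    have h4 : (E : ℝ) * ((1 - κ') * H) ≤ ∑ j, (F.degreeOf j : ℝ) * hr (aff (x j)) := by
      rw [hE]
      push_cast
      rw [Finset.sum_mul]
      exact Finset.sum_le_sum fun j hj => mul_le_mul_of_nonneg_left (hx2 j hj)
        (Nat.cast_nonneg _)
    have h5 := mul_le_mul_of_nonneg_right hwE hH
    have h6 : κ' * (E + 1) * H = κ * H := by rw [hκ'E]
    linarith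
  · rw [ddm_swap hB4 i hx0]
    have h5 := mul_le_mul_of_nonneg_right hκ'1 hH
    linarith

/-- the weight of a divisor -/
noncomputable def wtt4 {r : ℕ} (F : Fin r → MvPolynomial (Fin (1 + 1)) K)
    (I : Finset (Fin (1 + 1))) : ℝ :=
  ∑ j, (wt4 (∑ i, (F j).degreeOf i) : ℝ) + I.card

/-- the exceptional points -/
def Exc4 {r : ℕ} (F : Fin r → MvPolynomial (Fin (1 + 1)) K) (I : Finset (Fin (1 + 1))) (κ : ℝ) :
    Set (Fin (1 + 1) → K) :=
  {x | ((∀ j, MvPolynomial.eval x (F j) ≠ 0) ∧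
    ∑ v ∈ UU F I x, Real.log (Nv v) < (wtt4 F I - κ) * htm x) ∨
      ∃ i, hr (aff (x i)) < (1 - κ) * htm x}

/-- **one divisor** -/
theorem thin_Exc4 (hRM : StmRM) (hUM : StmUM) (hZM : StmZM) (hLM : StmLM) (hOD : StmOD)
    (hOM : StmOM) (hB4 : StmB4) {r : ℕ} (F : Fin r → MvPolynomial (Fin (1 + 1)) K)
    (I : Finset (Fin (1 + 1))) (hF : ∀ j, Irreducible (F j))
    (hFF : ∀ j k, j ≠ k → ¬ Associated (F j) (F k))
    {κ : ℝ} (hκ0 : 0 < κ) (hκ1 : κ ≤ 1) :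
    Thin K (1 + 1) (fun H x => ((∀ j, MvPolynomial.eval x (F j) ≠ 0) ∧
      ∑ v ∈ UU F I x, Real.log (Nv v) < (wtt4 F I - κ) * H) ∨
        ∃ i ∈ (univ : Finset (Fin (1 + 1))), hr (aff (x i)) < (1 - κ) * H) := by
  classical
  refine Thin.or ?_ (Thin.ex _ fun i _ => thin_ht i hκ0 hκ1)
  have h1 := thin_total F (Finset.univ.disjSum I)
    (Sum.elim (fun j => (wt4 (∑ i, (F j).degreeOf i) : ℝ)) (fun _ => 1))
    (fun x => ∀ j, MvPolynomial.eval x (F j) ≠ 0) (by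
      rintro (j | i) hk κ' hκ'0 hκ'1
      · refine (thin_comp4 hRM hUM hZM hLM hOD hB4 (F j) (hF j) hκ'0 hκ'1).mono ?_
        rintro H x _ _ ⟨hx1, hx2⟩
        exact ⟨hx1 j, hx2⟩
      · refine (thin_inf hRM hUM hZM hLM hOD hB4 i hκ'0 hκ'1).mono ?_
        rintro H x _ _ ⟨hx1, hx2⟩
        exact hx2) (by
      rintro (j | i) hk (k | l) hl hkl κ' hκ'0 hκ'1
      · refine (thin_ovl hOM hUM hZM hLM hB4 (F j) (F k) (hF j) (hF k)
          (hFF j k fun h => hkl (by rw [h])) hκ'0 hκ'1).mono ?_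
        rintro H x _ _ ⟨hx1, hx2⟩
        exact ⟨hx1 j, hx1 k, hx2⟩
      · refine (thin_bdd (1 + 1) 0).mono ?_
        rintro H x hH _ ⟨hx1, hx2⟩
        have h3 : ∑ v ∈ cp F x (Sum.inl j) ∩ cp F x (Sum.inr l), Real.log (Nv v) = 0 := by
          show ∑ v ∈ ddm (F j) x ∩ pd (x l), Real.log (Nv v) = 0
          rw [ddm_pd_disj (hx1 j), Finset.sum_empty]
        rw [h3] at hx2
        by_contra hcon
        rw [not_le] at hcon
        have := mul_pos hκ'0 hcon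
        linarith
      · refine (thin_bdd (1 + 1) 0).mono ?_
        rintro H x hH _ ⟨hx1, hx2⟩
        have h3 : ∑ v ∈ cp F x (Sum.inr i) ∩ cp F x (Sum.inl k), Real.log (Nv v) = 0 := by
          show ∑ v ∈ pd (x i) ∩ ddm (F k) x, Real.log (Nv v) = 0
          rw [Finset.inter_comm, ddm_pd_disj (hx1 k), Finset.sum_empty]
        rw [h3] at hx2
        by_contra hcon
        rw [not_le] at hcon
        have := mul_pos hκ'0 hcon
        linarith
      · refine (thin_inf2 (fun h => hkl (by rw [h])) hκ'0 hκ'1 (i := i) (j := l)).mono ?_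
        rintro H x _ _ ⟨hx1, hx2⟩
        exact hx2) ∅ hκ0 hκ1
  refine h1.mono ?_
  rintro H x _ _ ⟨hx1, hx2⟩
  refine ⟨hx1, ?_⟩
  rw [Finset.sdiff_empty, Finset.sum_disjSum]
  simp only [Sum.elim_inl, Sum.elim_inr, Finset.sum_const, nsmul_eq_mul, mul_one]
  exact hx2

variable (K) in
open Classical in
/-- **one exceptional set for all divisors** -/
theorem all_div4 (hRM : StmRM) (hUM : StmUM) (hZM : StmZM) (hLM : StmLM) (hOD : StmOD)
    (hOM : StmOM) (hB4 : StmB4) :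
    ∃ E : Set (Fin (1 + 1) → K), (∀ H : ℝ, 0 ≤ H → ((E ∩ {x | htm x ≤ H}).ncard : ℝ) ≤
      2 * Real.exp (4 * H - √H)) ∧
      ∀ (r : ℕ) (F : Fin r → MvPolynomial (Fin (1 + 1)) K) (I : Finset (Fin (1 + 1))),
        (∀ j, Irreducible (F j)) → (∀ j k, j ≠ k → ¬ Associated (F j) (F k)) → ∀ κ : ℝ, 0 < κ →
        ∃ h0 : ℝ, ∀ x : Fin (1 + 1) → K, x ∉ E → h0 ≤ htm x →
          (∀ j, MvPolynomial.eval x (F j) ≠ 0) →
            (wtt4 F I - κ) * htm x ≤ ∑ v ∈ UU F I x, Real.log (Nv v) ∧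
              ∀ i, (1 - κ) * htm x ≤ hr (aff (x i)) := by
  have hc := countable_mv K (1 + 1)
  obtain ⟨e, he⟩ := exists_surjective_nat
    ((Σ r : ℕ, Fin r → MvPolynomial (Fin (1 + 1)) K) × Finset (Fin (1 + 1)) × ℕ)
  obtain ⟨T, h, hT1, hT2⟩ := diag2 (X := Fin (1 + 1) → K) htm (fun H => box_fin H)
    (fun n => if (∀ j, Irreducible ((e n).1.2 j)) ∧
      (∀ j k, j ≠ k → ¬ Associated ((e n).1.2 j) ((e n).1.2 k)) then
        Exc4 (e n).1.2 (e n).2.1 (1 / ((e n).2.2 + 1 : ℝ)) else ∅) (α := 4) (by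
      intro n
      by_cases hn : (∀ j, Irreducible ((e n).1.2 j)) ∧
        (∀ j k, j ≠ k → ¬ Associated ((e n).1.2 j) ((e n).1.2 k))
      · rw [if_pos hn]
        obtain ⟨κ, hκ⟩ : ∃ κ : ℝ, κ = 1 / ((e n).2.2 + 1 : ℝ) := ⟨_, rfl⟩
        rw [← hκ]
        have hκ0 : 0 < κ := by rw [hκ]; positivity
        have hκ1 : κ ≤ 1 := by
          rw [hκ, div_le_one (by positivity)]
          linarith [(Nat.cast_nonneg (e n).2.2 : (0 : ℝ) ≤ ((e n).2.2 : ℝ))]
        obtain ⟨ν, C, hν, hν1, hC, hmain⟩ := thin_Exc4 hRM hUM hZM hLM hOD hOM hB4 (e n).1.2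
          (e n).2.1 hn.1 hn.2 hκ0 hκ1
        refine ⟨ν, C, hν, fun H hH => ?_⟩
        have hfin : (Exc4 (e n).1.2 (e n).2.1 κ ∩ {x | htm x ≤ H}).Finite :=
          (box_fin H).subset Set.inter_subset_right
        rw [Set.ncard_eq_toFinset_card _ hfin]
        have hcast : (2 * ((1 + 1 : ℕ) : ℝ) - ν) = 4 - ν := by norm_num
        rw [← hcast]
        refine hmain H hH _ fun x hx => ?_
        rw [Set.Finite.mem_toFinset] at hx
        obtain ⟨hx1, hx2⟩ := hx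
        have hx2' : htm x ≤ H := hx2
        have hmon : ∀ i, hr (aff (x i)) ≤ htm x := fun i => by
          rw [hr_aff]
          exact le_htm x i
        refine ⟨fun i => (hmon i).trans hx2', ?_⟩
        have h0 : 0 ≤ htm x := (hr_aff_nonneg _).trans (hmon 0)
        rcases hx1 with ⟨hx3, hx4⟩ | ⟨i, hi⟩
        · left
          refine ⟨hx3, ?_⟩
          by_cases hW : 0 ≤ wtt4 (e n).1.2 (e n).2.1 - κ
          · exact hx4.trans_le (mul_le_mul_of_nonneg_left hx2' hW)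
          · exfalso
            rw [not_le] at hW
            have h1 := mul_nonpos_of_nonpos_of_nonneg hW.le h0
            have h2 : 0 ≤ ∑ v ∈ UU (e n).1.2 (e n).2.1 x, Real.log (Nv v) :=
              Finset.sum_nonneg fun v _ => (log_Nv_pos v).le
            linarith
        · right
          exact ⟨i, Finset.mem_univ i, hi.trans_le (mul_le_mul_of_nonneg_left hx2' (by linarith))⟩
      · refine ⟨1, 0, one_pos, fun H hH => ?_⟩
        rw [if_neg hn, Set.empty_inter, Set.ncard_empty, Nat.cast_zero, zero_mul])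
  refine ⟨T, hT2, ?_⟩
  intro r F I hF hFF κ hκ
  obtain ⟨k, hk⟩ := exists_nat_gt (1 / κ)
  have hk2 : 1 / (k + 1 : ℝ) ≤ κ := by
    rw [div_lt_iff₀ hκ] at hk
    rw [div_le_iff₀ (by positivity)]
    nlinarith
  obtain ⟨n, hn⟩ := he (⟨r, F⟩, I, k)
  refine ⟨h n, fun x hxT hxh hx0 => ?_⟩
  have h1 : x ∉ Exc4 F I (1 / (k + 1 : ℝ)) := by
    intro hx
    have h2 := hT1 n x (by
      rw [hn, if_pos ⟨hF, hFF⟩]
      exact hx) hxT
    linarith
  have h0 : 0 ≤ htm x := by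
    have h2 := le_htm x 0
    rw [← hr_aff] at h2
    exact (hr_aff_nonneg _).trans h2
  unfold Exc4 at h1
  rw [Set.mem_ofPred_eq, not_or, not_and, not_exists] at h1
  obtain ⟨h2, h3⟩ := h1
  have h4 := mul_le_mul_of_nonneg_right hk2 h0
  refine ⟨?_, fun i => ?_⟩
  · have h5 := not_lt.1 (h2 hx0)
    linarith
  · have h5 := not_lt.1 (h3 i)
    linarith

end Pool.Agent.K9h89.AW
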